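import Pool.Agent.Tvo.Stmts

/-!
# TVO module Ar: arithmetic (O23)
-/

set_option autoImplicit false

namespace Pool.Agent.Tvo

open scoped Classical
open Pool.Agent.Tvb (Pos Zero Base Good hat TP)

/-- `2 ^ n n! ≤ (n + 1) ^ n`. -/
theorem Ar_fact (n : ℕ) : 2 ^ n * n.factorial ≤ (n + 1) ^ n := by
  induction n with
  | zero => simp
  | succ n ih =>
    have hb : 2 * (n + 1) ^ (n + 1) ≤ (n + 2) ^ (n + 1) := by
      have h := one_add_mul_le_pow (a := (1 : ℝ) / (n + 1)) (by
        have : (0 : ℝ) ≤ 1 / ((n : ℝ) + 1) := by positivity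
        linarith) (n + 1)
      have hn : (0 : ℝ) < (n : ℝ) + 1 := by positivity
      have h2 : (2 : ℝ) ≤ (1 + 1 / ((n : ℝ) + 1)) ^ (n + 1) := by
        refine le_trans ?_ h
        push_cast
        rw [mul_one_div_cancel hn.ne']
        norm_num
      have h3 : (1 + 1 / ((n : ℝ) + 1)) = ((n : ℝ) + 2) / ((n : ℝ) + 1) := by
        field_simp
        ring
      rw [h3, div_pow, le_div_iff₀ (by positivity)] at h2
      exact_mod_cast h2
    calc 2 ^ (n + 1) * (n + 1).factorial = 2 * (n + 1) * (2 ^ n * n.factorial) := by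
          rw [Nat.factorial_succ]; ring
      _ ≤ 2 * (n + 1) * (n + 1) ^ n := Nat.mul_le_mul_left _ ih
      _ = 2 * (n + 1) ^ (n + 1) := by ring
      _ ≤ (n + 2) ^ (n + 1) := hb
      _ = (n + 1 + 1) ^ (n + 1) := by ring

theorem oAr : Stmt_OAr := by
  intro m' d L t hm h
  obtain ⟨m, rfl⟩ : ∃ m, m' = m + 1 := ⟨m' - 1, (Nat.sub_add_cancel hm).symm⟩
  simp only [Nat.add_sub_cancel] at h ⊢
  have h1 : (m + 1) ^ (m * (d + 1)) ≤ (2 * L) ^ (m * (d + 1)) * (m.factorial * t) := by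
    have h2 : (m + 1) * (m + 1) ^ (m * (d + 1)) ≤
        (m + 1) * ((2 * L) ^ (m * (d + 1)) * (m.factorial * t)) := by
      calc (m + 1) * (m + 1) ^ (m * (d + 1)) = (m + 1) ^ (m * (d + 1) + 1) := by ring
        _ ≤ _ := h
        _ = (m + 1) * ((2 * L) ^ (m * (d + 1)) * (m.factorial * t)) := by
          rw [Nat.factorial_succ]; ring
    exact Nat.le_of_mul_le_mul_left h2 (Nat.succ_pos m)
  have h3 : (2 ^ m * m.factorial) ^ (d + 1) ≤ (m + 1) ^ (m * (d + 1)) := by
    rw [pow_mul]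
    exact Nat.pow_le_pow_left (Ar_fact m) _
  have h4 : 2 ^ (m * (d + 1)) * m.factorial * m.factorial ^ d ≤
      2 ^ (m * (d + 1)) * m.factorial * (L ^ (m * (d + 1)) * t) := by
    calc 2 ^ (m * (d + 1)) * m.factorial * m.factorial ^ d
        = (2 ^ m * m.factorial) ^ (d + 1) := by
          rw [mul_pow, ← pow_mul]; ring
      _ ≤ (2 * L) ^ (m * (d + 1)) * (m.factorial * t) := h3.trans h1
      _ = 2 ^ (m * (d + 1)) * m.factorial * (L ^ (m * (d + 1)) * t) := by
          rw [mul_pow]; ring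
  exact Nat.le_of_mul_le_mul_left h4 (by positivity)

end Pool.Agent.Tvo
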