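import Pool.Agent.Tvo.Stmts

/-!
# Module Block: the frame as a product of planes (MP_001fdd_co, odd primes)
-/

set_option autoImplicit false

namespace Pool.Agent.Tvo

open scoped Classical
open Pool.Agent.Tvb (Pos Zero Base Good hat TP)

/-- the family with planar blocks `m a` -/
noncomputable def Block_x {n : ℕ} (m : Fin n → Fin 2 → Fin 2 → ℝ) : Ix n → Ix n → ℝ :=
  fun c d => if c.1 = d.1 then m c.1 c.2 d.2 else 0

theorem Block_sum {n : ℕ} (m : Fin n → Fin 2 → Fin 2 → ℝ) (g t : Ix n → ℝ) :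
    ∑ c, g c • Block_x m c = t ↔ ∀ a, ∑ b, g (a, b) • m a b = fun b' => t (a, b') := by
  have key : ∀ a b', (∑ c, g c • Block_x m c) (a, b') = (∑ b, g (a, b) • m a b) b' := by
    intro a b'
    simp only [Finset.sum_apply, Pi.smul_apply, smul_eq_mul]
    rw [Fintype.sum_prod_type, Finset.sum_eq_single a]
    · apply Finset.sum_congr rfl
      intro b _
      simp [Block_x]
    · intro a' _ h
      apply Finset.sum_eq_zero
      intro b _
      simp [Block_x, h]
    · intro h
      exact absurd (Finset.mem_univ a) h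
  constructor
  · intro h a
    funext b'
    rw [← key, h]
  · intro h
    funext d
    obtain ⟨a, b'⟩ := d
    rw [key, h]

theorem Block_pos {n : ℕ} (m : Fin n → Fin 2 → Fin 2 → ℝ) (t : Ix n → ℝ) :
    Pos t (Block_x m) ↔ ∀ a, Pos (fun b' => t (a, b')) (m a) := by
  unfold Tvb.Pos
  constructor
  · rintro ⟨g, hg, h⟩ a
    exact ⟨fun b => g (a, b), fun b => hg _, (Block_sum m g t).1 h a⟩
  · intro h
    choose g hg h1 using h
    exact ⟨fun c => g c.1 c.2, fun c => hg _ _, (Block_sum m _ t).2 fun a => h1 a⟩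

theorem Block_base {n : ℕ} (m : Fin n → Fin 2 → Fin 2 → ℝ) (t : Ix n → ℝ)
    (h : ∀ a, Base (fun b' => t (a, b')) (m a)) : Base t (Block_x m) := by
  unfold Tvb.Base at h ⊢
  refine ⟨?_, ?_⟩
  · rw [Fintype.linearIndependent_iff]
    intro g hg c
    have h1 := (Block_sum m g 0).1 hg c.1
    exact Fintype.linearIndependent_iff.1 (h c.1).1 (fun b => g (c.1, b)) h1 c.2
  · choose g hg h1 using fun a => (h a).2
    exact ⟨fun c => g c.1 c.2, ((Block_sum m _ t).2 fun a => (hg a).symm).symm,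
      fun c => h1 _ _⟩

theorem Block_det {n : ℕ} (m : Fin n → Fin 2 → Fin 2 → ℝ) :
    Matrix.det (Matrix.of (Block_x m)) = ∏ a, Matrix.det (Matrix.of (m a)) := by
  rw [← Matrix.det_blockDiagonal (fun a => Matrix.of (m a)),
    ← Matrix.det_submatrix_equiv_self (Equiv.prodComm (Fin n) (Fin 2))
      (Matrix.blockDiagonal fun a => Matrix.of (m a))]
  congr 1

/-- the sign as a homomorphism -/
noncomputable def Block_s : ℝ →* ℤ :=
  ((SignType.castHom (α := ℤ)).toMonoidHom).comp (signHom (α := ℝ)).toMonoidHom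

theorem Block_so {n : ℕ} (m : Fin n → Fin 2 → Fin 2 → ℝ) :
    so (Block_x m) = ∏ a, so (m a) := by
  have h1 : ∀ (ι : Type) [Fintype ι] [DecidableEq ι] (x : ι → ι → ℝ),
      so x = Block_s (Matrix.det (Matrix.of x)) := by
    intro ι _ _ x
    rfl
  rw [h1, Block_det, map_prod]
  exact Finset.prod_congr rfl fun a _ => (h1 _ _).symm

theorem Block_ind {n : ℕ} (P : Fin n → Prop) : ind (∀ a, P a) = ∏ a, ind (P a) := by
  unfold ind
  by_cases h : ∀ a, P a
  · rw [if_pos h, Finset.prod_eq_one]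
    intro a _
    rw [if_pos (h a)]
  · rw [if_neg h]
    push Not at h
    obtain ⟨a, ha⟩ := h
    exact (Finset.prod_eq_zero (Finset.mem_univ a) (if_neg ha)).symm

theorem Block_PP {n : ℕ} (m : Fin n → Fin 2 → Fin 2 → ℝ) (t : Ix n → ℝ) :
    PP t (Block_x m) = ∏ a, PP (fun b' => t (a, b')) (m a) := by
  unfold PP
  rw [Block_so, propext (Block_pos m t), Block_ind, Finset.prod_mul_distrib]

theorem oBlock (hP : Stmt_OPlane) : Stmt_OBlock := by
  intro p k n _ hp χ f
  -- the planar blocks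
  set m : Fin n → Fin 2 → Fin 2 → ℝ := fun a =>
    ![![Real.cos (2 * Real.pi * ((dt (χ a) (f (a, 0))).val : ℝ) / p),
        Real.sin (2 * Real.pi * ((dt (χ a) (f (a, 0))).val : ℝ) / p)],
      ![Real.cos (2 * Real.pi * ((dt (χ a) (f (a, 1))).val : ℝ) / p + Real.pi / (3 * p)),
        Real.sin (2 * Real.pi * ((dt (χ a) (f (a, 1))).val : ℝ) / p + Real.pi / (3 * p))]]
    with hm
  have hx : (fun c => rho χ (f c) (fr p n c)) = Block_x m := by
    funext c d
    obtain ⟨a, b⟩ := c
    obtain ⟨a', b'⟩ := d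
    by_cases h : a = a'
    · subst h
      fin_cases b <;> fin_cases b' <;>
        simp [rho, fr, Block_x, hm, ang, Real.cos_add, Real.sin_add]
    · have h' : ¬ (a = a') := h
      simp [rho, fr, Block_x, h']
  have ht : ∀ a, (fun b' => fo p n (a, b')) =
      ![Real.cos (Real.pi / (3 * p)), -Real.sin (Real.pi / (3 * p))] := by
    intro a
    funext b'
    fin_cases b' <;> simp [fo]
  rw [hx]
  refine ⟨?_, ?_⟩
  · rw [Block_PP]
    have h1 : (p : ℤ) ^ n = ∏ _a : Fin n, (p : ℤ) := by simp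
    rw [h1, ← Finset.prod_mul_distrib]
    apply Finset.prod_congr rfl
    intro a _
    rw [ht a]
    exact (hP p hp (dt (χ a) (f (a, 0))) (dt (χ a) (f (a, 1)))).1
  · apply Block_base
    intro a
    rw [ht a]
    exact (hP p hp (dt (χ a) (f (a, 0))) (dt (χ a) (f (a, 1)))).2

end Pool.Agent.Tvo
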