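import Pool.Agent.Tvo.Stmts

/-!
# Number of the characters in one half (MP_001fdd_co)
-/

set_option autoImplicit false

namespace Pool.Agent.Tvo

open scoped Classical
open Pool.Agent.Tvb (Pos Zero Base Good hat TP)

/-- smallest element of a finite set of coordinates -/
noncomputable def Card_low {k : ℕ} [NeZero k] (s : Finset (Fin k)) : Fin k :=
  if h : s.Nonempty then s.min' h else 0

theorem Card_lead {p k : ℕ} [NeZero k] (χ : G p k) :
    lead χ = Card_low (Finset.univ.filter fun j => χ j ≠ 0) := rfl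

theorem Card_neg {p k : ℕ} [NeZero k] (χ : G p k) : lead (-χ) = lead χ := by
  rw [Card_lead, Card_lead]
  refine congrArg Card_low ?_
  ext j
  simp only [Finset.mem_filter, Finset.mem_univ, true_and, Pi.neg_apply, ne_eq, neg_eq_zero]

theorem Card_ne {p k : ℕ} [NeZero k] (χ : G p k) (h : χ ≠ 0) : χ (lead χ) ≠ 0 := by
  have h1 : (Finset.univ.filter fun j => χ j ≠ 0).Nonempty := by
    obtain ⟨j, hj⟩ := Function.ne_iff.1 h
    exact ⟨j, by simpa using hj⟩
  have h2 : lead χ = (Finset.univ.filter fun j => χ j ≠ 0).min' h1 := by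
    rw [Card_lead, Card_low, dif_pos h1]
  have h3 := Finset.min'_mem _ h1
  rw [← h2] at h3
  exact (Finset.mem_filter.1 h3).2

theorem Card_val {p : ℕ} [Fact p.Prime] (hp : p ≠ 2) (x : ZMod p) (hx : x ≠ 0) :
    (-x).val ≤ (p - 1) / 2 ↔ ¬ x.val ≤ (p - 1) / 2 := by
  have h1 : (-x).val = p - x.val := by
    rw [ZMod.neg_val, if_neg hx]
  have h2 : x.val < p := ZMod.val_lt x
  have h3 : x.val ≠ 0 := fun h => hx ((ZMod.val_eq_zero x).1 h)
  have h4 : p % 2 = 1 := Nat.odd_iff.1 ((Fact.out : p.Prime).odd_of_ne_two hp)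
  rw [h1]
  omega

theorem oCard : Stmt_OCard := by
  intro p k _ _ hp
  have hcard : Fintype.card (XH p k) = (Finset.univ.filter fun χ : G p k =>
      χ ≠ 0 ∧ (χ (lead χ)).val ≤ (p - 1) / 2).card := Fintype.card_subtype _
  set A := Finset.univ.filter fun χ : G p k => χ ≠ 0 ∧ (χ (lead χ)).val ≤ (p - 1) / 2 with hA
  set B := Finset.univ.filter fun χ : G p k => χ ≠ 0 ∧ ¬ (χ (lead χ)).val ≤ (p - 1) / 2 with hB
  have hAB : A.card = B.card := by
    refine Finset.card_nbij' (fun χ => -χ) (fun χ => -χ) ?_ ?_ ?_ ?_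
    · intro χ hχ
      have hχ' := (Finset.mem_filter.1 hχ).2
      refine Finset.mem_filter.2 ⟨Finset.mem_univ _, neg_ne_zero.2 hχ'.1, ?_⟩
      have h := Card_val hp _ (Card_ne χ hχ'.1)
      change ¬ ((-χ) (lead (-χ))).val ≤ (p - 1) / 2
      rw [Card_neg]
      change ¬ (-(χ (lead χ))).val ≤ (p - 1) / 2
      rw [h, not_not]
      exact hχ'.2
    · intro χ hχ
      have hχ' := (Finset.mem_filter.1 hχ).2
      refine Finset.mem_filter.2 ⟨Finset.mem_univ _, neg_ne_zero.2 hχ'.1, ?_⟩
      have h := Card_val hp _ (Card_ne χ hχ'.1)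
      change ((-χ) (lead (-χ))).val ≤ (p - 1) / 2
      rw [Card_neg]
      change (-(χ (lead χ))).val ≤ (p - 1) / 2
      rw [h]
      exact hχ'.2
    · intro χ _
      exact neg_neg χ
    · intro χ _
      exact neg_neg χ
  have hdis : Disjoint A B := by
    rw [Finset.disjoint_left]
    intro χ h1 h2
    exact (Finset.mem_filter.1 h2).2.2 (Finset.mem_filter.1 h1).2.2
  have hun : A ∪ B = Finset.univ.erase 0 := by
    ext χ
    simp only [hA, hB, Finset.mem_union, Finset.mem_filter, Finset.mem_univ, true_and,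
      Finset.mem_erase, and_true]
    tauto
  have h1 : (A ∪ B).card = p ^ k - 1 := by
    rw [hun, Finset.card_erase_of_mem (Finset.mem_univ _), Finset.card_univ,
      Fintype.card_fun, ZMod.card, Fintype.card_fin]
  rw [Finset.card_union_of_disjoint hdis, ← hAB] at h1
  rw [hcard, ← h1]
  ring

end Pool.Agent.Tvo
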