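import Pool.Agent.Tvo.Stmts

/-!
# Limits of positive relations (MP_001fdd_co)
-/

set_option autoImplicit false

namespace Pool.Agent.Tvo

open scoped Classical
open Filter Topology
open Pool.Agent.Tvb (Pos Zero Base Good hat TP)

theorem oClo : Stmt_OClo := by
  intro ι κ _ _ _ y h
  have h1 : ∀ n : ℕ, ∃ y' : ι → κ → ℝ, (∀ i, ‖y' i - y i‖ < 1 / ((n : ℝ) + 1)) ∧
      ∃ c : ι → ℝ, (∀ i, 0 ≤ c i) ∧ ∑ i, c i = 1 ∧ ∑ i, c i • y' i = 0 := by
    intro n
    obtain ⟨y', hy, c, hc, hs⟩ := h (1 / ((n : ℝ) + 1)) (by positivity)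
    have hpos : 0 < ∑ i, c i := Finset.sum_pos (fun i _ => hc i) Finset.univ_nonempty
    refine ⟨y', hy, fun i => c i / ∑ j, c j, fun i => (div_pos (hc i) hpos).le, ?_, ?_⟩
    · rw [← Finset.sum_div, div_self hpos.ne']
    · have h2 : ∀ i, (c i / ∑ j, c j) • y' i = (∑ j, c j)⁻¹ • (c i • y' i) := by
        intro i
        rw [smul_smul, div_eq_inv_mul]
      rw [Finset.sum_congr rfl fun i _ => h2 i, ← Finset.smul_sum, hs, smul_zero]
  choose y' hy c hc hc1 hc0 using h1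
  have hmem : ∀ n, c n ∈ stdSimplex ℝ ι := fun n => ⟨hc n, hc1 n⟩
  obtain ⟨a, ha, φ, hφ, hlim⟩ := (isCompact_stdSimplex ℝ ι).tendsto_subseq hmem
  have hylim : ∀ i, Tendsto (fun n => y' n i) atTop (𝓝 (y i)) := by
    intro i
    rw [tendsto_iff_norm_sub_tendsto_zero]
    exact squeeze_zero (fun n => norm_nonneg _) (fun n => (hy n i).le)
      tendsto_one_div_add_atTop_nhds_zero_nat
  refine ⟨a, ha.1, ha.2, ?_⟩
  have h3 : Tendsto (fun n => ∑ i, c (φ n) i • y' (φ n) i) atTop (𝓝 (∑ i, a i • y i)) := by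
    refine tendsto_finsetSum _ fun i _ => ?_
    exact ((tendsto_pi_nhds.1 hlim) i).smul ((hylim i).comp hφ.tendsto_atTop)
  have h4 : (fun n => ∑ i, c (φ n) i • y' (φ n) i) = fun _ => (0 : κ → ℝ) := by
    funext n
    exact hc0 (φ n)
  rw [h4] at h3
  exact (tendsto_nhds_unique h3 tendsto_const_nhds)

end Pool.Agent.Tvo
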