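import Pool.Agent.Tvo.Stmts

/-!
# The leading coefficient (MP_001fdd_co, odd prime powers)
-/

set_option autoImplicit false

namespace Pool.Agent.Tvo

open scoped Classical
open Pool.Agent.Tvb (Pos Zero Base Good hat TP)

theorem Coef_lead_ne {p k : ℕ} [NeZero k] (χ : G p k) (h : χ ≠ 0) : χ (lead χ) ≠ 0 := by
  have h1 : (Finset.univ.filter fun j => χ j ≠ 0).Nonempty := by
    obtain ⟨j, hj⟩ := Function.ne_iff.mp h
    exact ⟨j, Finset.mem_filter.mpr ⟨Finset.mem_univ j, hj⟩⟩
  have h2 : lead χ = (Finset.univ.filter fun j => χ j ≠ 0).min' h1 := by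
    simp only [lead]
    rw [dif_pos h1]
  rw [h2]
  exact (Finset.mem_filter.mp (Finset.min'_mem _ h1)).2

theorem Coef_lead_le {p k : ℕ} [NeZero k] (χ : G p k) (j : Fin k) (h : χ j ≠ 0) :
    lead χ ≤ j := by
  have h0 : j ∈ Finset.univ.filter fun j => χ j ≠ 0 := Finset.mem_filter.mpr ⟨Finset.mem_univ j, h⟩
  have h1 : (Finset.univ.filter fun j => χ j ≠ 0).Nonempty := ⟨j, h0⟩
  have h2 : lead χ = (Finset.univ.filter fun j => χ j ≠ 0).min' h1 := by
    simp only [lead]
    rw [dif_pos h1]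
  rw [h2]
  exact Finset.min'_le _ _ h0

/-- the sum of the values of the exponents -/
def Coef_wt {k : ℕ} (b : Fin k →₀ ℕ) : ℕ := ∑ j : Fin k, b j * (j : ℕ)

theorem Coef_wt_sum {k n : ℕ} (J : Fin n → Fin k) :
    Coef_wt (∑ a, Finsupp.single (J a) 1) = ∑ a, (J a : ℕ) := by
  unfold Coef_wt
  have h1 : ∀ j : Fin k, (∑ a, Finsupp.single (J a) 1 : Fin k →₀ ℕ) j * (j : ℕ) =
      ∑ a, if J a = j then (j : ℕ) else 0 := by
    intro j
    rw [Finsupp.finsetSum_apply, Finset.sum_mul]
    refine Finset.sum_congr rfl fun a _ => ?_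
    rw [Finsupp.single_apply]
    split_ifs <;> simp
  rw [Finset.sum_congr rfl fun j _ => h1 j, Finset.sum_comm]
  refine Finset.sum_congr rfl fun a _ => ?_
  rw [Finset.sum_ite_eq Finset.univ (J a), if_pos (Finset.mem_univ _)]

theorem Coef_prod_monomial {k n : ℕ} {R : Type} [CommRing R] (J : Fin n → Fin k) (c : Fin n → R) :
    ∏ a, (MvPolynomial.monomial (Finsupp.single (J a) 1) (c a) : MvPolynomial (Fin k) R) =
      MvPolynomial.monomial (∑ a, Finsupp.single (J a) 1) (∏ a, c a) := by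
  induction (Finset.univ : Finset (Fin n)) using Finset.induction_on with
  | empty => simp
  | insert a s ha ih =>
    rw [Finset.prod_insert ha, Finset.sum_insert ha, Finset.prod_insert ha, ih,
      MvPolynomial.monomial_mul]

theorem oCoef : Stmt_OCoef := by
  intro p k n _ _ hp χ hχ
  have h2 : (2 : ZMod p) ≠ 0 := by
    intro h
    have h3 : ((2 : ℕ) : ZMod p) = 0 := by exact_mod_cast h
    rw [ZMod.natCast_eq_zero_iff] at h3
    exact hp ((Nat.prime_dvd_prime_iff_eq (Fact.out : p.Prime) Nat.prime_two).mp h3)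
  have h3 : ∀ a : Fin n, (2 * ∑ j, MvPolynomial.X j *
      MvPolynomial.C (χ a j) : MvPolynomial (Fin k) (ZMod p)) =
      ∑ j, MvPolynomial.monomial (Finsupp.single j 1) (2 * χ a j) := by
    intro a
    rw [Finset.mul_sum]
    refine Finset.sum_congr rfl fun j _ => ?_
    rw [← MvPolynomial.C_mul_X_eq_monomial, map_mul]
    have : (MvPolynomial.C (2 : ZMod p) : MvPolynomial (Fin k) (ZMod p)) = 2 :=
      map_ofNat MvPolynomial.C 2
    rw [this]
    ring
  rw [Finset.prod_congr rfl fun a _ => h3 a, Finset.prod_univ_sum, MvPolynomial.coeff_sum]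
  have h4 : ∀ J : Fin n → Fin k, MvPolynomial.coeff (bb χ)
      (∏ a, (MvPolynomial.monomial (Finsupp.single (J a) 1) (2 * χ a (J a)) :
        MvPolynomial (Fin k) (ZMod p))) =
      if J = fun a => lead (χ a) then ∏ a, (2 * χ a (J a)) else 0 := by
    intro J
    rw [Coef_prod_monomial, MvPolynomial.coeff_monomial]
    by_cases hJ : J = fun a => lead (χ a)
    · subst hJ
      have h0 : (∑ a, Finsupp.single ((fun a => lead (χ a)) a) 1 : Fin k →₀ ℕ) = bb χ := rfl
      rw [if_pos h0, if_pos rfl]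
    · rw [if_neg hJ]
      split_ifs with h5
      · by_contra h6
        apply hJ
        have h7 : ∀ a, χ a (J a) ≠ 0 := by
          intro a ha
          apply h6
          apply Finset.prod_eq_zero (Finset.mem_univ a)
          rw [ha, mul_zero]
        have h8 : ∀ a, ((lead (χ a) : Fin k) : ℕ) ≤ (J a : ℕ) := fun a =>
          Coef_lead_le (χ a) (J a) (h7 a)
        have h9 : ∑ a, (J a : ℕ) = ∑ a, ((lead (χ a) : Fin k) : ℕ) := by
          rw [← Coef_wt_sum J, ← Coef_wt_sum fun a => lead (χ a), h5]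
          rfl
        have h10 := (Finset.sum_eq_sum_iff_of_le fun a _ => h8 a).mp h9.symm
        funext a
        exact (Fin.ext (h10 a (Finset.mem_univ a))).symm
      · rfl
  have h5 : (Fintype.piFinset fun _ : Fin n => (Finset.univ : Finset (Fin k))) =
      Finset.univ := Fintype.piFinset_univ
  rw [h5, Finset.sum_congr rfl fun J _ => h4 J, Finset.sum_ite_eq' Finset.univ,
    if_pos (Finset.mem_univ _)]
  rw [Finset.prod_ne_zero_iff]
  intro a _
  exact mul_ne_zero h2 (Coef_lead_ne (χ a) (hχ a))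

end Pool.Agent.Tvo
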