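import Pool.Agent.Tvo.Stmts

/-!
# The letters of a word with a coefficient (MP_001fdd_co, odd prime powers)
-/

set_option autoImplicit false

namespace Pool.Agent.Tvo

open scoped Classical
open Pool.Agent.Tvb (Pos Zero Base Good hat TP)

theorem Cont_MM {p k : ℕ} (x y : Lt p k) :
    ∃ c : ZMod p, MM x y = MvPolynomial.C c * MvPolynomial.X x.1 := by
  by_cases h : y.1 = x.1 ∧ y.2.2 = false ∧
      ((x.2.2 = false ∧ y.2.1 = x.2.1) ∨ (x.2.2 = true ∧ (y.2.1 : ℕ) = 0))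
  · refine ⟨(((if x.2.2 then dg p x.2.1 else 1) * 2 ^ (Nat.log 2 p - 1 - (x.2.1 : ℕ)) : ℕ) :
      ZMod p), ?_⟩
    rw [map_natCast, mul_comm]
    exact if_pos h
  · refine ⟨0, ?_⟩
    rw [map_zero, zero_mul]
    exact if_neg h

theorem Cont_MM_ne {p k : ℕ} (x y : Lt p k) (h : x.1 ≠ y.1) : MM x y = 0 := by
  unfold MM
  rw [if_neg]
  rintro ⟨h1, _⟩
  exact h h1.symm

theorem Cont_BB {p k : ℕ} (x y : Lt p k) (h : x.1 = y.1) :
    ∃ c : ZMod p, BB x y = MvPolynomial.C c * MvPolynomial.X x.1 := by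
  obtain ⟨c, hc⟩ := Cont_MM x y
  obtain ⟨d, hd⟩ := Cont_MM y x
  refine ⟨c + d, ?_⟩
  unfold BB
  rw [hc, hd, map_add, add_mul, h]

theorem Cont_BB_ne {p k : ℕ} (x y : Lt p k) (h : x.1 ≠ y.1) : BB x y = 0 := by
  unfold BB
  rw [Cont_MM_ne x y h, Cont_MM_ne y x (Ne.symm h), add_zero]

theorem Cont_coeff {k : ℕ} {R : Type} [CommRing R] (b : Fin k →₀ ℕ) (i : Fin k)
    (q : MvPolynomial (Fin k) R) (c : R) (m : ℕ)
    (h : MvPolynomial.coeff b ((-1) ^ m * (MvPolynomial.C c * MvPolynomial.X i) * q) ≠ 0) :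
    i ∈ b.support ∧ MvPolynomial.coeff (b - Finsupp.single i 1) q ≠ 0 := by
  have h1 : ((-1) ^ m * (MvPolynomial.C c * MvPolynomial.X i) * q : MvPolynomial (Fin k) R) =
      MvPolynomial.C ((-1) ^ m * c) * (MvPolynomial.X i * q) := by
    rw [map_mul, map_pow, map_neg, map_one]
    ring
  rw [h1, MvPolynomial.coeff_C_mul, MvPolynomial.coeff_X_mul'] at h
  by_cases hi : i ∈ b.support
  · rw [if_pos hi] at h
    exact ⟨hi, right_ne_zero_of_mul h⟩
  · rw [if_neg hi, mul_zero] at h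
    exact absurd rfl h

theorem Cont_card {p k N : ℕ} (w : Fin N → Lt p k) (j : Fin k) :
    (Finset.univ.filter fun c => (w c).1 = j).card = ∑ c, if (w c).1 = j then 1 else 0 := by
  rw [Finset.card_filter]

theorem Cont_main {p k : ℕ} : ∀ (N : ℕ) (w : Fin N → Lt p k) (b : Fin k →₀ ℕ),
    MvPolynomial.coeff b (pf BB N w) ≠ 0 →
    ∀ j, (∑ c, if (w c).1 = j then 1 else 0) = 2 * b j
  | 0, w, b, hb, j => by
    have h1 : pf BB 0 w = (1 : MvPolynomial (Fin k) (ZMod p)) := by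
      simp only [pf]
    rw [h1, MvPolynomial.coeff_one] at hb
    have h2 : 0 = b := by
      by_contra h3
      rw [if_neg h3] at hb
      exact hb rfl
    rw [← h2]
    simp
  | 1, w, b, hb, j => by
    have h1 : pf BB 1 w = (0 : MvPolynomial (Fin k) (ZMod p)) := by
      simp only [pf]
    rw [h1, MvPolynomial.coeff_zero] at hb
    exact absurd rfl hb
  | N + 2, w, b, hb, j => by
    have h1 : pf BB (N + 2) w = ∑ l : Fin (N + 1), (-1) ^ (l : ℕ) * BB (w 0) (w l.succ) *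
        (pf BB N (fun i => w (l.succAbove i).succ) : MvPolynomial (Fin k) (ZMod p)) := by
      rw [pf]
    rw [h1, MvPolynomial.coeff_sum] at hb
    obtain ⟨l, _, hl⟩ := Finset.exists_ne_zero_of_sum_ne_zero hb
    have h2 : (w 0).1 = (w l.succ).1 := by
      by_contra h3
      rw [Cont_BB_ne _ _ h3, mul_zero, zero_mul, MvPolynomial.coeff_zero] at hl
      exact hl rfl
    obtain ⟨c, hc⟩ := Cont_BB (w 0) (w l.succ) h2
    rw [hc] at hl
    obtain ⟨h4, h5⟩ := Cont_coeff _ _ _ _ _ hl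
    have h6 := Cont_main N _ _ h5 j
    rw [Fin.sum_univ_succ, Fin.sum_univ_succAbove _ l, h6, ← h2, Finsupp.tsub_apply,
      Finsupp.single_apply]
    have h7 : 1 ≤ b (w 0).1 := Nat.one_le_iff_ne_zero.mpr (Finsupp.mem_support_iff.mp h4)
    by_cases h8 : (w 0).1 = j
    · rw [if_pos h8]
      rw [h8] at h7
      omega
    · rw [if_neg h8]
      omega

theorem oCont : Stmt_OCont := by
  intro p k n _ _ χ w hw
  simp only [Wd, Finset.mem_filter, Finset.mem_univ, true_and]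
  intro j
  rw [Cont_card, Cont_main (2 * n) w (bb χ) hw j]
  congr 1
  unfold bb
  rw [Finsupp.finsetSum_apply, Finset.card_filter]
  refine Finset.sum_congr rfl fun a _ => ?_
  rw [Finsupp.single_apply]

end Pool.Agent.Tvo
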