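import Pool.Agent.Tvo.Stmts

/-!
# Module Cov: every family has a labelling from a word
-/

set_option autoImplicit false

namespace Pool.Agent.Tvo

open scoped Classical
open Pool.Agent.Tvb (Pos Zero Base Good hat TP)

theorem cov_min {ι : Type} [Finite ι] (f : ι → ℝ) (hf : ∀ i, 0 < f i) :
    ∃ δ > 0, ∀ i, δ ≤ f i := by
  rcases isEmpty_or_nonempty ι with h | h
  · exact ⟨1, one_pos, fun i => h.elim i⟩
  · obtain ⟨i, hi⟩ := Finite.exists_min f
    exact ⟨f i, hf i, hi⟩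

theorem cov_cc {p : ℕ} (g h : ZMod p) : cc g h = cc h g := by
  unfold cc
  rw [add_comm g h, add_comm g.valMinAbs]

theorem cov_Th (hFr : Stmt_OFrame) (hPa : Stmt_OPair) (hH : Stmt_OHor) {p k n : ℕ}
    [Fact p.Prime] (hp : p ≠ 2) (χ : Fin n → G p k) :
    Th χ (vl (p := p) (k := k)) BB (fo p n) (fr p n) =
      ∏ a : Fin n, (2 * ∑ j, MvPolynomial.X j * MvPolynomial.C (χ a j) :
        MvPolynomial (Fin k) (ZMod p)) := by
  obtain ⟨h2, hC, hE⟩ := hH p k hp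
  rw [hFr p k n hp χ (Lt p k) (MvPolynomial (Fin k) (ZMod p)) vl BB]
  rw [hPa n (Lt p k) (MvPolynomial (Fin k) (ZMod p)) BB h2 hC.1
    (fun a x y => ((cc (dt (χ a) (vl x)) (dt (χ a) (vl y)) : ℤ) : MvPolynomial (Fin k) (ZMod p)))
    (fun a x y => by rw [cov_cc])]
  exact Finset.prod_congr rfl fun a _ => hE (χ a)

theorem oCov (hI : Stmt_OInd) (hG : Stmt_OGen) (hF : Stmt_OFin) (hC : Stmt_OClo) (hR : Stmt_ORho)
    (hFr : Stmt_OFrame) (hPa : Stmt_OPair) (hH : Stmt_OHor) (hCo : Stmt_OCoef)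
    (hCt : Stmt_OCont) : Stmt_OCov := by
  intro p k n _ _ hp χ hχ T κ
  obtain ⟨hadd, -, hlin, hinj, hnorm, -⟩ := hR p k (n + 1) χ
  by_contra hcon
  have h1 : ∀ q : (Fin (2 * (n + 1)) → Lt p k) × (Ix (n + 1) → Bool), ∃ δ : ℝ, 0 < δ ∧
      (q.1 ∈ Wd χ → ∀ y' : Option (Ix (n + 1)) → Ix (n + 1) → ℝ,
        (∀ i, ‖y' i - rho χ (lab vl q.1 q.2 i + κ i) (T i)‖ < δ) →
        ¬ ∃ c : Option (Ix (n + 1)) → ℝ, (∀ i, 0 < c i) ∧ ∑ i, c i • y' i = 0) := by
    rintro ⟨w, ε⟩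
    by_contra h
    have hw : w ∈ Wd χ := by
      by_contra hw
      exact h ⟨1, one_pos, fun h' => absurd h' hw⟩
    have h2 := hC (Option (Ix (n + 1))) (Ix (n + 1))
      (fun i => rho χ (lab vl w ε i + κ i) (T i)) (by
      intro δ hδ
      by_contra h3
      refine h ⟨δ, hδ, fun _ y' hy' hc => h3 ⟨y', hy', hc⟩⟩)
    exact hcon ⟨w, hw, ε, h2⟩
  choose f hf hf' using h1
  obtain ⟨δ, hδ, hδ'⟩ := cov_min f hf
  obtain ⟨h2, hcyc, -⟩ := hH p k hp
  obtain ⟨u, hu, hTh, hB⟩ := hI p k n hp χ (Lt p k) (MvPolynomial (Fin k) (ZMod p)) vl BB h2 hcyc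
    (fun c => rho χ (κ (some c)) (T (some c))) (δ / 3) (by positivity)
  obtain ⟨v, hv, hg⟩ := hG (Ix (n + 1)) (fo p (n + 1)) ((Ix (n + 1) → G p k) × G p k)
    (fun a => rho χ a.2) (fun a c => rho χ (a.1 c) (u c)) (fun a => hlin a.2)
    (fun a => hinj a.2) (fun a => hB a.1) (rho χ (κ none) (T none)) (δ / 3) (by positivity)
  rw [cov_Th hFr hPa hH hp χ] at hTh
  have hφ : MvPolynomial.coeffAddMonoidHom (bb χ) (Th χ (vl (p := p) (k := k)) BB
      (fo p (n + 1)) u) ≠ 0 := by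
    rw [hTh]
    exact hCo p k (n + 1) hp χ hχ
  obtain ⟨w, hw, ε, hz⟩ := hF p k (n + 1) χ (Lt p k) (MvPolynomial (Fin k) (ZMod p)) (ZMod p)
    (MvPolynomial.coeffAddMonoidHom (bb χ)) vl BB (fo p (n + 1)) u v
    (fun f g => hg (f, g)) hφ
  have hwW : w ∈ Wd χ := hCt p k (n + 1) χ w hw
  obtain ⟨b, c, hb, hc, hsum⟩ := hz
  refine hf' (w, ε) hwW (fun i => rho χ (lab vl w ε i) (i.elim v u)) ?_
    ⟨fun i => i.elim b c, ?_, ?_⟩
  · intro i
    refine lt_of_lt_of_le ?_ (hδ' (w, ε))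
    have e1 : rho χ (lab vl w ε i) (i.elim v u) - rho χ (lab vl w ε i + κ i) (T i) =
        rho χ (lab vl w ε i) (i.elim v u - rho χ (κ i) (T i)) := by
      rw [hadd]
      exact ((hlin (lab vl w ε i)).map_sub _ _).symm
    have e2 : ‖i.elim v u - rho χ (κ i) (T i)‖ < δ / 3 := by
      cases i with
      | none => exact hv
      | some c => exact hu c
    calc ‖rho χ (lab vl w ε i) (i.elim v u) - rho χ (lab vl w ε i + κ i) (T i)‖
        = ‖rho χ (lab vl w ε i) (i.elim v u - rho χ (κ i) (T i))‖ := by rw [e1]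
      _ ≤ 2 * ‖i.elim v u - rho χ (κ i) (T i)‖ := hnorm _ _
      _ < δ := by linarith
  · intro i
    cases i with
    | none => exact hb
    | some i => exact hc i
  · rw [Fintype.sum_option]
    exact hsum

end Pool.Agent.Tvo
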