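import Pool.Agent.Tvo.Stmts

/-!
# TVO module Dbl: double counting (O22)
-/

set_option autoImplicit false

namespace Pool.Agent.Tvo

open scoped Classical
open Pool.Agent.Tvb (Pos Zero Base Good hat TP)

theorem oDbl : Stmt_ODbl := by
  intro p k n _ Λ _ val W A h
  choose w hw ε hε using h
  have hinj : Function.Injective (fun κ : Option (Ix n) → G p k =>
      (((w κ, ε κ), (fun i => lab val (w κ) (ε κ) i + κ i)) :
        ((Fin (2 * n) → Λ) × (Ix n → Bool)) × (Option (Ix n) → G p k))) := by
    intro κ κ' hκ
    simp only [Prod.mk.injEq] at hκ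
    obtain ⟨⟨h1, h2⟩, h3⟩ := hκ
    funext i
    have := congrFun h3 i
    simp only [h1, h2] at this
    exact add_left_cancel this
  have hcard := Finset.card_le_card_of_injOn
    (s := (Finset.univ : Finset (Option (Ix n) → G p k)))
    (t := (W ×ˢ (Finset.univ : Finset (Ix n → Bool))) ×ˢ A)
    (fun κ : Option (Ix n) → G p k =>
      (((w κ, ε κ), (fun i => lab val (w κ) (ε κ) i + κ i)) :
        ((Fin (2 * n) → Λ) × (Ix n → Bool)) × (Option (Ix n) → G p k)))
    (fun κ _ => by
      simp only [Finset.coe_product, Set.mem_prod, Finset.mem_coe, Finset.coe_univ, Set.mem_univ,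
        and_true]
      exact ⟨hw κ, hε κ⟩)
    hinj.injOn
  have e1 : (Finset.univ : Finset (Option (Ix n) → G p k)).card = (p ^ k) ^ (2 * n + 1) := by
    rw [Finset.card_univ, Fintype.card_fun]
    simp [G, Ix, ZMod.card, mul_comm]
  have e2 : Fintype.card (Ix n) = 2 * n := by simp [Ix, mul_comm]
  rw [e1, Finset.card_product, Finset.card_product, Finset.card_univ, Fintype.card_fun, e2] at hcard
  simpa using hcard

end Pool.Agent.Tvo
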