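import Pool.Agent.Tvo.Stmts

/-!
# If the degree is not zero there is a zero (MP_001fdd_co, odd prime powers)
-/

set_option autoImplicit false

namespace Pool.Agent.Tvo

open scoped Classical
open Pool.Agent.Tvb (Pos Zero Base Good hat TP)

/-- change of one choice -/
def fin_flip {n : ℕ} (c : Ix n) (ε : Ix n → Bool) : Ix n → Bool :=
  Function.update ε c (!ε c)

lemma fin_flip_self {n : ℕ} (c : Ix n) (ε : Ix n → Bool) : fin_flip c ε c = !ε c := by
  unfold fin_flip
  rw [Function.update_self]

lemma fin_flip_ne {n : ℕ} {c c' : Ix n} (h : c' ≠ c) (ε : Ix n → Bool) :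
    fin_flip c ε c' = ε c' := by
  unfold fin_flip
  rw [Function.update_of_ne h]

lemma fin_flip_flip {n : ℕ} (c : Ix n) (ε : Ix n → Bool) : fin_flip c (fin_flip c ε) = ε := by
  funext c'
  by_cases h : c' = c
  · subst h
    rw [fin_flip_self, fin_flip_self, Bool.not_not]
  · rw [fin_flip_ne h, fin_flip_ne h]

lemma fin_se_flip {n : ℕ} (c : Ix n) (ε : Ix n → Bool) : se (fin_flip c ε) = -se ε := by
  unfold se
  rw [← Finset.mul_prod_erase Finset.univ
      (fun c' => if fin_flip c ε c' then (1 : ℤ) else -1) (Finset.mem_univ c),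
    ← Finset.mul_prod_erase Finset.univ
      (fun c' => if ε c' then (1 : ℤ) else -1) (Finset.mem_univ c)]
  have h1 : ∏ c' ∈ Finset.univ.erase c, (if fin_flip c ε c' then (1 : ℤ) else -1) =
      ∏ c' ∈ Finset.univ.erase c, (if ε c' then (1 : ℤ) else -1) := by
    refine Finset.prod_congr rfl fun c' hc' => ?_
    rw [fin_flip_ne (Finset.ne_of_mem_erase hc')]
  rw [h1, fin_flip_self]
  cases ε c <;> simp

lemma fin_cancel {n : ℕ} (c : Ix n) (F : (Ix n → Bool) → ℤ)
    (hF : ∀ ε, F (fin_flip c ε) = F ε) : ∑ ε, se ε * F ε = 0 := by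
  refine Finset.sum_involution (fun ε _ => fin_flip c ε) ?_ ?_ ?_ ?_
  · intro ε _
    rw [hF, fin_se_flip]
    ring
  · intro ε _ _ h
    have h1 := congrFun h c
    rw [fin_flip_self] at h1
    exact Bool.not_ne_self _ h1
  · intro ε _
    exact Finset.mem_univ _
  · intro ε _
    exact fin_flip_flip c ε

lemma fin_pt {p k n : ℕ} {Λ : Type} (val : Λ → G p k) (w : Fin (2 * n) → Λ) {c c' : Ix n}
    (h : c' ≠ c) (ε : Ix n → Bool) : pt val w (fin_flip c ε) c' = pt val w ε c' := by
  unfold pt
  rw [fin_flip_ne h]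

/-- module Fin -/
theorem oFin (hV : Stmt_OVec) : Stmt_OFin := by
  intro p k n hp χ Λ K K' _ _ _ φ val B ω u v hG hTh
  by_contra hcon
  apply hTh
  unfold Th
  rw [map_sum]
  refine Finset.sum_eq_zero fun w _ => ?_
  set z : ℤ := ∑ ε : Ix n → Bool, se ε * PP ω (fun c => rho χ (pt val w ε c) (u c)) with hz
  have h1 : pf B (2 * n) w * (z : K) = z • pf B (2 * n) w := by
    rw [zsmul_eq_mul, mul_comm]
  rw [h1, map_zsmul]
  by_cases h2 : φ (pf B (2 * n) w) = 0
  · rw [h2, smul_zero]
  · have hnz : ∀ ε : Ix n → Bool,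
        ¬ Zero (fun c => rho χ (pt val w ε c) (u c)) (rho χ (pA val w (2 * n)) v) :=
      fun ε hε => hcon ⟨w, h2, ε, hε⟩
    have h3 : ∀ ε : Ix n → Bool, PP ω (fun c => rho χ (pt val w ε c) (u c)) =
        ∑ i, PP ω (Function.update (fun c => rho χ (pt val w ε c) (u c)) i
          (rho χ (pA val w (2 * n)) v)) := by
      intro ε
      have h4 := (hV _ ω _ _ (hG (pt val w ε) (pA val w (2 * n)))).1
      have h5 : ind (Zero (fun c => rho χ (pt val w ε c) (u c))
          (rho χ (pA val w (2 * n)) v)) = 0 := if_neg (hnz ε)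
      rw [h5, mul_zero] at h4
      exact sub_eq_zero.1 h4
    have h6 : z = 0 := by
      rw [hz]
      have h7 : ∑ ε : Ix n → Bool, se ε * PP ω (fun c => rho χ (pt val w ε c) (u c)) =
          ∑ i, ∑ ε : Ix n → Bool, se ε *
            PP ω (Function.update (fun c => rho χ (pt val w ε c) (u c)) i
              (rho χ (pA val w (2 * n)) v)) := by
        rw [Finset.sum_comm]
        refine Finset.sum_congr rfl fun ε _ => ?_
        rw [h3 ε, Finset.mul_sum]
      rw [h7]
      refine Finset.sum_eq_zero fun i _ => ?_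
      refine fin_cancel i (fun ε => PP ω (Function.update
        (fun c => rho χ (pt val w ε c) (u c)) i (rho χ (pA val w (2 * n)) v))) fun ε => ?_
      refine congrArg (PP ω) ?_
      funext c'
      by_cases h : c' = i
      · subst h
        rw [Function.update_self, Function.update_self]
      · rw [Function.update_of_ne h, Function.update_of_ne h, fin_pt val w h ε]
    rw [h6, zero_smul]

end Pool.Agent.Tvo
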