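import Pool.Agent.Tvo.Stmts

/-!
# The labellings are Tverberg labellings
-/

set_option autoImplicit false

namespace Pool.Agent.Tvo

open scoped Classical
open Pool.Agent.Tvb (Pos Zero Base Good hat TP)

/-- the value of the character `χ` at `g`, as a complex number -/
noncomputable def Four_E {p k : ℕ} [Fact p.Prime] (χ g : G p k) : ℂ :=
  ZMod.stdAddChar (N := p) (dt χ g)

theorem Four_dt_add {p k : ℕ} (χ χ' g : G p k) : dt (χ + χ') g = dt χ g + dt χ' g := by
  unfold dt
  rw [← Finset.sum_add_distrib]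
  exact Finset.sum_congr rfl fun j _ => by simp [add_mul]

theorem Four_dt_neg {p k : ℕ} (χ g : G p k) : dt (-χ) g = - dt χ g := by
  unfold dt
  rw [← Finset.sum_neg_distrib]
  exact Finset.sum_congr rfl fun j _ => by simp

theorem Four_dt_neg_right {p k : ℕ} (χ g : G p k) : dt χ (-g) = - dt χ g := by
  unfold dt
  rw [← Finset.sum_neg_distrib]
  exact Finset.sum_congr rfl fun j _ => by simp

theorem Four_dt_add_right {p k : ℕ} (χ g g' : G p k) : dt χ (g + g') = dt χ g + dt χ g' := by
  unfold dt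
  rw [← Finset.sum_add_distrib]
  exact Finset.sum_congr rfl fun j _ => by simp [mul_add]

variable {p k : ℕ} [Fact p.Prime]

theorem Four_E_add (χ χ' g : G p k) : Four_E (χ + χ') g = Four_E χ g * Four_E χ' g := by
  unfold Four_E
  rw [Four_dt_add, AddChar.map_add_eq_mul]

theorem Four_E_add_right (χ g g' : G p k) : Four_E χ (g + g') = Four_E χ g * Four_E χ g' := by
  unfold Four_E
  rw [Four_dt_add_right, AddChar.map_add_eq_mul]

theorem Four_E_zero (g : G p k) : Four_E 0 g = 1 := by
  unfold Four_E dt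
  simp

theorem Four_E_ang (χ g : G p k) :
    Four_E χ g = (Real.cos (ang χ g) : ℂ) + (Real.sin (ang χ g) : ℂ) * Complex.I := by
  unfold Four_E
  rw [ZMod.stdAddChar_apply, ZMod.toCircle_apply, Complex.ofReal_cos, Complex.ofReal_sin,
    ← Complex.exp_mul_I]
  unfold ang
  congr 1
  push_cast
  ring

theorem Four_sum_E (g : G p k) :
    ∑ χ : G p k, Four_E χ g = if g = 0 then (p : ℂ) ^ k else 0 := by
  split_ifs with h
  · subst h
    have : ∀ χ : G p k, Four_E χ 0 = 1 := by
      intro χ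
      unfold Four_E dt
      simp
    simp [this]
  · obtain ⟨j, hj⟩ := Function.ne_iff.1 h
    have h3 : Four_E (Pi.single j 1) g ≠ 1 := by
      have h5 : dt (Pi.single j 1) g = g j := by
        unfold dt
        rw [Finset.sum_eq_single j]
        · simp
        · intro b _ hb
          simp [Pi.single_eq_of_ne hb]
        · simp
      unfold Four_E
      rw [h5]
      intro h6
      have h7 : ZMod.stdAddChar (N := p) (g j) = ZMod.stdAddChar (N := p) 0 := by
        rw [h6, AddChar.map_zero_eq_one]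
      exact hj (ZMod.injective_stdAddChar h7)
    have h4 : ∑ χ : G p k, Four_E χ g = ∑ χ : G p k, Four_E (χ + Pi.single j 1) g :=
      (Equiv.sum_comp (Equiv.addRight (Pi.single j 1 : G p k)) fun χ => Four_E χ g).symm
    simp only [Four_E_add] at h4
    rw [← Finset.sum_mul] at h4
    by_contra h8
    exact h3 (mul_left_cancel₀ h8 (by rw [← h4, mul_one]))

theorem Four_inv (C : G p k → ℂ)
    (hC : ∀ χ : G p k, χ ≠ 0 → ∑ h, Four_E χ h * C h = 0) (h : G p k) :
    (p : ℂ) ^ k * C h = ∑ h', C h' := by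
  have h1 : ∑ χ : G p k, Four_E χ (-h) * ∑ h', Four_E χ h' * C h' = ∑ h', C h' := by
    rw [Finset.sum_eq_single 0]
    · simp [Four_E_zero]
    · intro χ _ hχ
      rw [hC χ hχ, mul_zero]
    · simp
  rw [← h1]
  have h2 : ∀ χ : G p k, Four_E χ (-h) * ∑ h', Four_E χ h' * C h' =
      ∑ h', Four_E χ (-h + h') * C h' := by
    intro χ
    rw [Finset.mul_sum]
    exact Finset.sum_congr rfl fun h' _ => by rw [Four_E_add_right]; ring
  simp only [h2]
  rw [Finset.sum_comm]
  have h3 : ∀ h' : G p k, ∑ χ : G p k, Four_E χ (-h + h') * C h' =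
      if h' = h then (p : ℂ) ^ k * C h' else 0 := by
    intro h'
    rw [← Finset.sum_mul, Four_sum_E]
    have h4 : -h + h' = 0 ↔ h' = h := by
      rw [neg_add_eq_zero]
      exact eq_comm
    by_cases h5 : h' = h
    · rw [if_pos (h4.2 h5), if_pos h5]
    · rw [if_neg (fun h6 => h5 (h4.1 h6)), if_neg h5, zero_mul]
  simp only [h3]
  simp

theorem Four_lead_neg {p k : ℕ} [NeZero k] (χ : G p k) : lead (-χ) = lead χ := by
  have h : (Finset.univ.filter fun j => (-χ) j ≠ 0) = Finset.univ.filter fun j => χ j ≠ 0 := by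
    ext j
    simp
  unfold lead
  rw [h]

theorem Four_lead_ne {p k : ℕ} [NeZero k] (χ : G p k) (hχ : χ ≠ 0) : χ (lead χ) ≠ 0 := by
  obtain ⟨j, hj⟩ := Function.ne_iff.1 hχ
  have hne : (Finset.univ.filter fun j => χ j ≠ 0).Nonempty :=
    ⟨j, Finset.mem_filter.2 ⟨Finset.mem_univ _, hj⟩⟩
  unfold lead
  rw [dif_pos hne]
  exact (Finset.mem_filter.1 (Finset.min'_mem _ hne)).2

theorem Four_half [NeZero k] (hp : p ≠ 2) (χ : G p k) (hχ : χ ≠ 0) :
    (χ (lead χ)).val ≤ (p - 1) / 2 ∨ ((-χ) (lead (-χ))).val ≤ (p - 1) / 2 := by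
  rw [Four_lead_neg]
  have h0 : p % 2 = 1 := ((Fact.out : p.Prime).eq_two_or_odd).resolve_left hp
  have h1 := Four_lead_ne χ hχ
  have : NeZero (χ (lead χ)) := ⟨h1⟩
  have h2 : ((-χ) (lead χ)).val = p - (χ (lead χ)).val := by
    rw [Pi.neg_apply]
    exact ZMod.val_neg_of_ne_zero _
  have h3 := ZMod.val_lt (χ (lead χ))
  rw [h2]
  omega

theorem oFour : Stmt_OFour := by
  intro p k d n _ _ hp e q f hf
  obtain ⟨c, hc0, hc1, hc2⟩ := hf
  -- the equations of the coordinates
  have hcos : ∀ (χ : XH p k) (j : Fin (d + 1)),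
      ∑ i, c i * (Real.cos (ang χ.1 (f i)) * hat (q i) j) = 0 := by
    intro χ j
    have h1 := congrFun hc2 (e.symm (χ, j), 0)
    rw [Finset.sum_apply] at h1
    rw [Pi.zero_apply] at h1
    rw [← h1]
    refine Finset.sum_congr rfl fun i _ => ?_
    simp [rho, chi, vec]
  have hsin : ∀ (χ : XH p k) (j : Fin (d + 1)),
      ∑ i, c i * (Real.sin (ang χ.1 (f i)) * hat (q i) j) = 0 := by
    intro χ j
    have h1 := congrFun hc2 (e.symm (χ, j), 1)
    rw [Finset.sum_apply] at h1
    rw [Pi.zero_apply] at h1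
    rw [← h1]
    refine Finset.sum_congr rfl fun i _ => ?_
    simp [rho, chi, vec]
  have hcoX : ∀ (χ : XH p k) (j : Fin (d + 1)),
      ∑ i, (c i : ℂ) * (Four_E χ.1 (f i) * (hat (q i) j : ℂ)) = 0 := by
    intro χ j
    have h1 : ∑ i, (c i : ℂ) * (Four_E χ.1 (f i) * (hat (q i) j : ℂ)) =
        ((∑ i, c i * (Real.cos (ang χ.1 (f i)) * hat (q i) j) : ℝ) : ℂ) +
        ((∑ i, c i * (Real.sin (ang χ.1 (f i)) * hat (q i) j) : ℝ) : ℂ) * Complex.I := by
      rw [Complex.ofReal_sum, Complex.ofReal_sum, Finset.sum_mul, ← Finset.sum_add_distrib]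
      refine Finset.sum_congr rfl fun i _ => ?_
      rw [Four_E_ang]
      push_cast
      ring
    rw [h1, hcos, hsin]
    simp
  have hconj : ∀ (χ g : G p k), Four_E (-χ) g = (starRingEnd ℂ) (Four_E χ g) := by
    intro χ g
    have h1 : Four_E (-χ) g * Four_E χ g = 1 := by
      rw [← Four_E_add, neg_add_cancel, Four_E_zero]
    have h2 : (starRingEnd ℂ) (Four_E χ g) * Four_E χ g = 1 := by
      rw [mul_comm, Complex.mul_conj, Four_E_ang, Complex.normSq_add_mul_I]
      have := Real.cos_sq_add_sin_sq (ang χ g)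
      exact_mod_cast this
    have h3 : Four_E χ g ≠ 0 := by
      intro h0
      rw [h0, mul_zero] at h1
      exact zero_ne_one h1
    exact mul_right_cancel₀ h3 (h1.trans h2.symm)
  have hco : ∀ (χ : G p k) (hχ : χ ≠ 0) (j : Fin (d + 1)),
      ∑ i, (c i : ℂ) * (Four_E χ (f i) * (hat (q i) j : ℂ)) = 0 := by
    intro χ hχ j
    rcases Four_half hp χ hχ with h | h
    · exact hcoX ⟨χ, hχ, h⟩ j
    · have h1 := hcoX ⟨-χ, neg_ne_zero.2 hχ, h⟩ j
      have h2 := congrArg (starRingEnd ℂ) h1
      rw [map_sum, map_zero] at h2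
      rw [← h2]
      refine Finset.sum_congr rfl fun i _ => ?_
      rw [map_mul, map_mul, ← hconj, neg_neg, Complex.conj_ofReal, Complex.conj_ofReal]
  -- the partial sums
  have keyC : ∀ (j : Fin (d + 1)) (h : G p k),
      (p : ℂ) ^ k * ∑ i, (if f i = h then (c i : ℂ) * (hat (q i) j : ℂ) else 0) =
        ∑ i, (c i : ℂ) * (hat (q i) j : ℂ) := by
    intro j h
    rw [Four_inv (fun h => ∑ i, (if f i = h then (c i : ℂ) * (hat (q i) j : ℂ) else 0)) _ h]
    · rw [Finset.sum_comm]
      refine Finset.sum_congr rfl fun i _ => ?_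
      simp
    · intro χ hχ
      refine Eq.trans ?_ (hco χ hχ j)
      simp only [Finset.mul_sum]
      rw [Finset.sum_comm]
      refine Finset.sum_congr rfl fun i _ => ?_
      rw [Finset.sum_eq_single (f i)]
      · simp; ring
      · intro b _ hb
        rw [if_neg (Ne.symm hb), mul_zero]
      · simp
  have key : ∀ (j : Fin (d + 1)) (h : G p k),
      (p : ℝ) ^ k * ∑ i, (if f i = h then c i * hat (q i) j else 0) = ∑ i, c i * hat (q i) j := by
    intro j h
    have h1 := keyC j h
    have h2 : ∀ i, (if f i = h then (c i : ℂ) * (hat (q i) j : ℂ) else 0) =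
        (((if f i = h then c i * hat (q i) j else 0) : ℝ) : ℂ) := by
      intro i
      split_ifs
      · push_cast; rfl
      · simp
    simp only [h2] at h1
    have h3 : ((((p : ℝ) ^ k * ∑ i, (if f i = h then c i * hat (q i) j else 0) : ℝ)) : ℂ) =
        ((∑ i, c i * hat (q i) j : ℝ) : ℂ) := by
      rw [Complex.ofReal_mul, Complex.ofReal_pow, Complex.ofReal_natCast, Complex.ofReal_sum,
        Complex.ofReal_sum]
      refine h1.trans (Finset.sum_congr rfl fun i _ => ?_)
      push_cast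
      rfl
    exact Complex.ofReal_injective h3
  refine ⟨∑ i, c i • q i, fun h => ?_⟩
  have hmass : ∑ i ∈ Finset.univ.filter (fun i => f i = h), (p : ℝ) ^ k * c i = 1 := by
    have h1 := key (Fin.last d) h
    simp only [hat, Fin.snoc_last, mul_one] at h1
    rw [hc1] at h1
    rw [← Finset.mul_sum, Finset.sum_filter]
    exact h1
  have hy : ∑ i, c i • q i =
      ∑ i ∈ Finset.univ.filter (fun i => f i = h), ((p : ℝ) ^ k * c i) • q i := by
    ext j
    have h1 := key (Fin.castSucc j) h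
    simp only [hat, Fin.snoc_castSucc] at h1
    simp only [WithLp.ofLp_sum, WithLp.ofLp_smul, Finset.sum_apply, Pi.smul_apply, smul_eq_mul]
    rw [← h1, Finset.mul_sum, Finset.sum_filter]
    refine Finset.sum_congr rfl fun i _ => ?_
    split_ifs <;> ring
  rw [hy]
  refine (convex_convexHull ℝ _).sum_mem (fun i _ => by have := hc0 i; positivity) hmass ?_
  intro i hi
  exact subset_convexHull ℝ _ ⟨i, (Finset.mem_filter.1 hi).2, rfl⟩

end Pool.Agent.Tvo
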