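import Pool.Agent.Tvo.Stmts

/-!
# Lower bounds for the number of Tverberg partitions (MP_001fdd_co), odd prime powers: the frame
-/

set_option autoImplicit false

namespace Pool.Agent.Tvo

open scoped Classical
open Pool.Agent.Tvb (Pos Zero Base Good hat TP)

theorem frame_dt_add {p k : ℕ} (χ g h : G p k) : dt χ (g + h) = dt χ g + dt χ h := by
  unfold dt
  rw [← Finset.sum_add_distrib]
  exact Finset.sum_congr rfl fun j _ => by rw [Pi.add_apply, mul_add]

theorem frame_pA_succ {p k N : ℕ} {Λ : Type} (val : Λ → G p k) (w : Fin N → Λ) (i : Fin N) :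
    pA val w ((i : ℕ) + 1) = pA val w i + val (w i) := by
  unfold pA
  have h : ∀ c : Fin N, (if (c : ℕ) < (i : ℕ) + 1 then val (w c) else 0) =
      (if (c : ℕ) < (i : ℕ) then val (w c) else 0) + (if c = i then val (w c) else 0) := by
    intro c
    by_cases hc : c = i
    · subst hc
      rw [if_pos (Nat.lt_succ_self _), if_neg (lt_irrefl _), if_pos rfl, zero_add]
    · have hc' : (c : ℕ) ≠ (i : ℕ) := fun h => hc (Fin.ext h)
      by_cases h2 : (c : ℕ) < (i : ℕ)
      · rw [if_pos (by omega), if_pos h2, if_neg hc, add_zero]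
      · rw [if_neg (by omega), if_neg h2, if_neg hc, add_zero]
  rw [Finset.sum_congr rfl fun c _ => h c, Finset.sum_add_distrib,
    Finset.sum_ite_eq' Finset.univ i (fun c => val (w c)), if_pos (Finset.mem_univ i)]

/-- the local contribution -/
noncomputable def frF {p : ℕ} (i j : ZMod p) : ℤ :=
  (j - i).valMinAbs - (((j.val : ℕ) : ℤ) - ((i.val : ℕ) : ℤ))

theorem frame_cc {p : ℕ} (hp : p ≠ 0) (g h : ZMod p) :
    (p : ℤ) * cc g h = g.valMinAbs + h.valMinAbs - (g + h).valMinAbs := by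
  haveI : NeZero p := ⟨hp⟩
  unfold cc
  apply Int.mul_ediv_cancel'
  rw [← ZMod.intCast_zmod_eq_zero_iff_dvd]
  push_cast
  ring

theorem frame_local {p : ℕ} (hp : p ≠ 0) (i0 i1 i2 : ZMod p) :
    frF i1 i2 - frF i1 i1 - frF i0 i2 + frF i0 i1 = (p : ℤ) * cc (i1 - i0) (i2 - i1) := by
  rw [frame_cc hp]
  unfold frF
  have h1 : i1 - i0 + (i2 - i1) = i2 - i0 := by ring
  rw [h1, sub_self, ZMod.valMinAbs_zero]
  ring

/-- a function of the coordinates as a family of pairs -/
def frameEq (n : ℕ) : (Ix n → Bool) ≃ (Fin n → Bool × Bool) where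
  toFun ε a := (ε (a, 0), ε (a, 1))
  invFun g c := if c.2 = 0 then (g c.1).1 else (g c.1).2
  left_inv ε := by
    funext c
    obtain ⟨a, b⟩ := c
    fin_cases b <;> simp
  right_inv g := by
    funext a
    simp

theorem frame_sum (n : ℕ) (X : Fin n → Bool → Bool → ℤ) :
    ∑ ε : Ix n → Bool, se ε * ∏ a : Fin n, X a (ε (a, 0)) (ε (a, 1)) =
      ∏ a : Fin n, (X a true true - X a true false - X a false true + X a false false) := by
  have h1 : ∀ a : Fin n, X a true true - X a true false - X a false true + X a false false =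
      ∑ b : Bool × Bool, ((if b.1 then 1 else -1) * (if b.2 then 1 else -1)) * X a b.1 b.2 := by
    intro a
    rw [Fintype.sum_prod_type]
    simp
    ring
  rw [Finset.prod_congr rfl fun a _ => h1 a, Finset.prod_univ_sum, Fintype.piFinset_univ]
  rw [← Equiv.sum_comp (frameEq n)]
  refine Finset.sum_congr rfl fun ε _ => ?_
  rw [Finset.prod_mul_distrib]
  congr 1
  unfold se
  rw [Fintype.prod_prod_type]
  refine Finset.prod_congr rfl fun a _ => ?_
  rw [Fin.prod_univ_two]
  rfl

theorem oFrame (hB : Stmt_OBlock) : Stmt_OFrame := by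
  intro p k n _ hp2 χ Λ K _ _ val B
  have hp0 : p ≠ 0 := (Fact.out : p.Prime).ne_zero
  unfold Th
  refine Finset.sum_congr rfl fun w _ => ?_
  congr 1
  rw [← Int.cast_prod]
  congr 1
  have hpn : ((p : ℤ)) ^ n ≠ 0 := pow_ne_zero _ (by exact_mod_cast hp0)
  apply mul_left_cancel₀ hpn
  rw [Finset.mul_sum]
  have h1 : ∀ ε : Ix n → Bool, (p : ℤ) ^ n * (se ε * PP (fo p n)
      (fun c => rho χ (pt val w ε c) (fr p n c))) = se ε * ∏ a : Fin n,
        frF (dt (χ a) (pA val w (2 * (a : ℕ) + (if ε (a, 0) then 1 else 0))))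
          (dt (χ a) (pA val w (2 * (a : ℕ) + 1 + (if ε (a, 1) then 1 else 0)))) := by
    intro ε
    have h2 := (hB p k n hp2 χ (pt val w ε)).1
    rw [mul_left_comm, h2]
    rfl
  rw [Finset.sum_congr rfl fun ε _ => h1 ε]
  rw [frame_sum n (fun a b0 b1 => frF (dt (χ a) (pA val w (2 * (a : ℕ) + (if b0 then 1 else 0))))
          (dt (χ a) (pA val w (2 * (a : ℕ) + 1 + (if b1 then 1 else 0)))))]
  have hpow : (p : ℤ) ^ n = ∏ _a : Fin n, (p : ℤ) := by
    rw [Finset.prod_const, Finset.card_univ, Fintype.card_fin]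
  rw [hpow, ← Finset.prod_mul_distrib]
  refine Finset.prod_congr rfl fun a _ => ?_
  have s0 : pA val w (2 * (a : ℕ) + 1) = pA val w (2 * (a : ℕ)) + val (w (e0 a)) :=
    frame_pA_succ val w (e0 a)
  have s1 : pA val w (2 * (a : ℕ) + 1 + 1) = pA val w (2 * (a : ℕ) + 1) + val (w (e1 a)) :=
    frame_pA_succ val w (e1 a)
  have d0 : dt (χ a) (val (w (e0 a))) = dt (χ a) (pA val w (2 * (a : ℕ) + 1)) -
      dt (χ a) (pA val w (2 * (a : ℕ))) := by
    rw [s0, frame_dt_add]
    ring
  have d1 : dt (χ a) (val (w (e1 a))) = dt (χ a) (pA val w (2 * (a : ℕ) + 1 + 1)) -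
      dt (χ a) (pA val w (2 * (a : ℕ) + 1)) := by
    rw [s1, frame_dt_add]
    ring
  rw [d0, d1, ← frame_local hp0]
  simp

end Pool.Agent.Tvo
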