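import Pool.Agent.Tvo.Stmts

/-!
# O6: generic choice of a vector
-/

set_option autoImplicit false

namespace Pool.Agent.Tvo

open scoped Classical
open Pool.Agent.Tvb (Pos Zero Base Good hat TP)

theorem Gen_dense {κ : Type} [Fintype κ] (φ : (κ → ℝ) →ₗ[ℝ] ℝ) (hφ : φ ≠ 0) :
    Dense {v : κ → ℝ | φ v ≠ 0} := by
  have hz : ∃ z, φ z ≠ 0 := by
    by_contra hcon
    push Not at hcon
    exact hφ (LinearMap.ext hcon)
  obtain ⟨z, hz⟩ := hz
  rw [Metric.dense_iff]
  intro v r hr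
  by_cases hv : φ v = 0
  · have hpos : (0 : ℝ) < 2 * (‖z‖ + 1) := by positivity
    refine ⟨v + (r / (2 * (‖z‖ + 1))) • z, ?_, ?_⟩
    · rw [Metric.mem_ball, dist_eq_norm, add_sub_cancel_left, norm_smul, Real.norm_eq_abs,
        abs_of_pos (div_pos hr hpos), div_mul_eq_mul_div, div_lt_iff₀ hpos]
      nlinarith [norm_nonneg z]
    · show φ (v + (r / (2 * (‖z‖ + 1))) • z) ≠ 0
      rw [map_add, hv, zero_add, map_smul, smul_eq_mul]
      exact mul_ne_zero (div_pos hr hpos).ne' hz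
  · exact ⟨v, Metric.mem_ball_self hr, hv⟩

theorem Gen_avoid {κ : Type} [Fintype κ] {ι : Type} [Finite ι] (φ : ι → (κ → ℝ) →ₗ[ℝ] ℝ)
    (hφ : ∀ i, φ i ≠ 0) (T : κ → ℝ) {δ : ℝ} (hδ : 0 < δ) :
    ∃ v : κ → ℝ, ‖v - T‖ < δ ∧ ∀ i, φ i v ≠ 0 := by
  have hd : Dense (⋂ i, {v : κ → ℝ | φ i v ≠ 0}) := by
    refine dense_iInter_of_isOpen (fun i => ?_) fun i => Gen_dense (φ i) (hφ i)
    exact isOpen_ne_fun (LinearMap.continuous_of_finiteDimensional (φ i)) continuous_const
  obtain ⟨v, hv1, hv2⟩ := Metric.dense_iff.mp hd T δ hδ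
  refine ⟨v, ?_, fun i => Set.mem_iInter.mp hv2 i⟩
  rw [← dist_eq_norm]
  exact hv1

theorem oGen : Stmt_OGen := by
  intro κ _ ω s _ l x hlin hinj hx T δ hδ
  choose hli c hc hc0 using hx
  -- the coordinates
  let B : ∀ a, Module.Basis κ ℝ (κ → ℝ) := fun a =>
    basisOfLinearIndependentOfCardEqFinrank' (x a) (hli a) (by simp)
  have hB : ∀ a i, B a i = x a i := fun a i => by
    simp only [B, coe_basisOfLinearIndependentOfCardEqFinrank']
  let L : s → (κ → ℝ) →ₗ[ℝ] (κ → ℝ) := fun a => IsLinearMap.mk' (l a) (hlin a)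
  have hL : ∀ a v, L a v = l a v := fun a v => rfl
  have hsurj : ∀ a, Function.Surjective (L a) := fun a =>
    LinearMap.injective_iff_surjective.mp (hinj a)
  let φ : s → κ → (κ → ℝ) →ₗ[ℝ] ℝ := fun a i => ((B a).coord i).comp (L a)
  have hφ : ∀ a i v, φ a i v = (B a).repr (l a v) i := fun a i v => rfl
  -- preimages of the basis vectors
  have hpre : ∀ a j, ∃ z, l a z = x a j := fun a j => hsurj a (x a j)
  choose z hz using hpre
  have hval : ∀ a i j, φ a i (z a j) = if j = i then 1 else 0 := by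
    intro a i j
    rw [hφ, hz, ← hB, Module.Basis.repr_self, Finsupp.single_apply]
  let ι : Type := (s × κ) ⊕ {p : s × κ × κ // p.2.1 ≠ p.2.2}
  let ψ : ι → (κ → ℝ) →ₗ[ℝ] ℝ := fun p => match p with
    | Sum.inl p => φ p.1 p.2
    | Sum.inr p => c p.1.1 p.1.2.1 • φ p.1.1 p.1.2.2 - c p.1.1 p.1.2.2 • φ p.1.1 p.1.2.1
  have hψ : ∀ p, ψ p ≠ 0 := by
    rintro (⟨a, i⟩ | ⟨⟨a, i, j⟩, hij⟩) h0
    · have h1 := congrArg (fun f => f (z a i)) h0
      simp only [ψ, hval, LinearMap.zero_apply, if_true] at h1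
      exact one_ne_zero h1
    · have h1 := congrArg (fun f => f (z a j)) h0
      have hji : ¬ j = i := fun h => hij h.symm
      simp only [ψ, LinearMap.sub_apply, LinearMap.smul_apply, smul_eq_mul, hval,
        LinearMap.zero_apply, if_true, if_neg hji] at h1
      rw [mul_one, mul_zero, sub_zero] at h1
      exact hc0 a i h1
  have : Finite ι := inferInstance
  obtain ⟨v, hv1, hv2⟩ := Gen_avoid ψ hψ T hδ
  refine ⟨v, hv1, fun a => ⟨hli a, fun i => φ a i v, fun i => c a i / φ a i v, ?_, ?_, ?_, ?_, ?_⟩⟩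
  · have h1 := (B a).sum_repr (l a v)
    simp only [hB] at h1
    exact h1.symm
  · rw [hc a]
    refine Finset.sum_congr rfl fun i _ => ?_
    rw [mul_div_cancel₀]
    exact hv2 (Sum.inl (a, i))
  · exact fun i => hv2 (Sum.inl (a, i))
  · exact fun i => div_ne_zero (hc0 a i) (hv2 (Sum.inl (a, i)))
  · intro i j hij
    by_contra hne
    have h1 := hv2 (Sum.inr ⟨(a, i, j), hne⟩)
    apply h1
    simp only [ψ, LinearMap.sub_apply, LinearMap.smul_apply, smul_eq_mul]
    have hi := hv2 (Sum.inl (a, i))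
    have hj := hv2 (Sum.inl (a, j))
    simp only [ψ] at hi hj
    simp only at hij
    rw [div_eq_div_iff hi hj] at hij
    linarith

end Pool.Agent.Tvo
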