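import Pool.Agent.Tvo.Stmts

/-!
# O13: the cycle of the Horner scheme
-/

set_option autoImplicit false

namespace Pool.Agent.Tvo

open scoped Classical
open Pool.Agent.Tvb (Pos Zero Base Good hat TP)

theorem Hor_log_pos {p : ℕ} (hp : p.Prime) : 0 < Nat.log 2 p := Nat.log_pos one_lt_two hp.two_le

theorem Hor_gn_zero {p : ℕ} (hp : p.Prime) : gn p 0 = 1 := by
  unfold gn
  rw [Nat.sub_zero]
  have h1 : 2 ^ Nat.log 2 p ≤ p := Nat.pow_log_le_self 2 hp.ne_zero
  have h2 : p < 2 ^ (Nat.log 2 p + 1) := Nat.lt_pow_succ_log_self one_lt_two p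
  rw [pow_succ] at h2
  refine Nat.div_eq_of_lt_le ?_ ?_
  · rwa [one_mul]
  · rw [mul_comm]
    exact h2

theorem Hor_gn_log (p : ℕ) : gn p (Nat.log 2 p) = p := by
  unfold gn
  rw [Nat.sub_self, pow_zero, Nat.div_one]

theorem Hor_gn_succ {p i : ℕ} (hi : i < Nat.log 2 p) : gn p (i + 1) = 2 * gn p i + dg p i := by
  unfold gn dg
  have h1 : Nat.log 2 p - i = (Nat.log 2 p - 1 - i) + 1 := by omega
  have h2 : Nat.log 2 p - (i + 1) = Nat.log 2 p - 1 - i := by omega
  rw [h1, h2, pow_succ, ← Nat.div_div_eq_div_mul]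
  omega

theorem Hor_dg (p i : ℕ) : dg p i = 0 ∨ dg p i = 1 := by
  unfold dg
  exact Nat.mod_two_eq_zero_or_one _

/-- the Horner scheme -/
theorem Hor_sum {R : Type} [CommRing R] {p : ℕ} (hp : p.Prime) (S : ℕ → R) :
    ∀ n, n ≤ Nat.log 2 p →
    ∑ i ∈ Finset.range n, (2 : R) ^ (n - 1 - i) *
      ((S (gn p i) + S (gn p i) - S (gn p i + gn p i)) +
        (dg p i : R) * (S (2 * gn p i) + S 1 - S (2 * gn p i + 1))) =
      (gn p n : R) * S 1 - S (gn p n) := by
  intro n
  induction n with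
  | zero =>
    intro _
    rw [Finset.sum_range_zero, Hor_gn_zero hp, Nat.cast_one, one_mul, sub_self]
  | succ n ih =>
    intro hn
    have ih' := ih (by omega)
    rw [Finset.sum_range_succ]
    have h1 : ∑ i ∈ Finset.range n, (2 : R) ^ (n + 1 - 1 - i) *
        ((S (gn p i) + S (gn p i) - S (gn p i + gn p i)) +
          (dg p i : R) * (S (2 * gn p i) + S 1 - S (2 * gn p i + 1))) =
        2 * ∑ i ∈ Finset.range n, (2 : R) ^ (n - 1 - i) *
        ((S (gn p i) + S (gn p i) - S (gn p i + gn p i)) +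
          (dg p i : R) * (S (2 * gn p i) + S 1 - S (2 * gn p i + 1))) := by
      rw [Finset.mul_sum]
      refine Finset.sum_congr rfl fun i hi => ?_
      have hi' := Finset.mem_range.1 hi
      have h2 : n + 1 - 1 - i = (n - 1 - i) + 1 := by omega
      rw [h2, pow_succ]
      ring
    rw [h1, ih']
    have h3 : n + 1 - 1 - n = 0 := by omega
    rw [h3, pow_zero, one_mul, Hor_gn_succ (by omega : n < Nat.log 2 p)]
    rcases Hor_dg p n with h | h
    · rw [h, ← two_mul (gn p n), add_zero, Nat.cast_mul, Nat.cast_zero, Nat.cast_ofNat]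
      ring
    · rw [h, ← two_mul (gn p n), Nat.cast_add, Nat.cast_mul, Nat.cast_one, Nat.cast_ofNat]
      ring

theorem Hor_fin {R : Type} [CommRing R] {p : ℕ} (hp : p.Prime) (S : ℕ → R) :
    ∑ i : Fin (Nat.log 2 p), (2 : R) ^ (Nat.log 2 p - 1 - (i : ℕ)) *
      ((S (gn p i) + S (gn p i) - S (gn p i + gn p i)) +
        (dg p i : R) * (S (2 * gn p i) + S 1 - S (2 * gn p i + 1))) =
      (p : R) * S 1 - S p := by
  have h := Hor_sum hp S (Nat.log 2 p) le_rfl
  rw [Hor_gn_log, Finset.sum_range] at h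
  exact h

/-- the weights, as natural numbers -/
noncomputable def Hor_m {p k : ℕ} (x y : Lt p k) : ℕ :=
  if y.1 = x.1 ∧ y.2.2 = false ∧
      ((x.2.2 = false ∧ y.2.1 = x.2.1) ∨ (x.2.2 = true ∧ (y.2.1 : ℕ) = 0)) then
    (if x.2.2 then dg p x.2.1 else 1) * 2 ^ (Nat.log 2 p - 1 - (x.2.1 : ℕ))
  else 0

theorem Hor_MM {p k : ℕ} (x y : Lt p k) :
    MM x y = MvPolynomial.X x.1 * ((Hor_m x y : ℕ) : MvPolynomial (Fin k) (ZMod p)) := by
  unfold MM Hor_m
  split_ifs
  · rfl
  · rfl
  · rw [Nat.cast_zero, mul_zero]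

theorem Hor_weights {R : Type} [CommRing R] {p k : ℕ} (hL : 0 < Nat.log 2 p) (t : Fin k → R)
    (F : Lt p k → Lt p k → R) :
    ∑ x : Lt p k, ∑ y : Lt p k, t x.1 * (Hor_m x y : R) * F x y =
      ∑ j : Fin k, t j * ∑ i : Fin (Nat.log 2 p), (2 : R) ^ (Nat.log 2 p - 1 - (i : ℕ)) *
        (F (j, i, false) (j, i, false) +
          (dg p i : R) * F (j, i, true) (j, ⟨0, hL⟩, false)) := by
  have h1 : ∀ x : Lt p k, ∑ y : Lt p k, t x.1 * (Hor_m x y : R) * F x y =
      t x.1 * (2 : R) ^ (Nat.log 2 p - 1 - (x.2.1 : ℕ)) *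
        (if x.2.2 then (dg p x.2.1 : R) * F x (x.1, ⟨0, hL⟩, false) else
          F x (x.1, x.2.1, false)) := by
    rintro ⟨j, i, b⟩
    cases b with
    | false =>
      rw [Finset.sum_eq_single (j, i, false)]
      · have h2 : Hor_m ((j, i, false) : Lt p k) (j, i, false) =
            2 ^ (Nat.log 2 p - 1 - (i : ℕ)) := by
          simp [Hor_m]
        rw [h2]
        simp
      · rintro ⟨j', i', b'⟩ - hne
        have h2 : Hor_m ((j, i, false) : Lt p k) (j', i', b') = 0 := by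
          unfold Hor_m
          rw [if_neg]
          rintro ⟨e1, e2, e3⟩
          rcases e3 with ⟨-, e3⟩ | ⟨e3, -⟩
          · apply hne
            simp only at e1 e2 e3
            rw [e1, e2, e3]
          · simp at e3
        rw [h2, Nat.cast_zero, mul_zero, zero_mul]
      · intro h
        exact absurd (Finset.mem_univ _) h
    | true =>
      rw [Finset.sum_eq_single (j, ⟨0, hL⟩, false)]
      · have h2 : Hor_m ((j, i, true) : Lt p k) (j, ⟨0, hL⟩, false) =
            dg p i * 2 ^ (Nat.log 2 p - 1 - (i : ℕ)) := by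
          simp [Hor_m]
        rw [h2]
        simp only [Nat.cast_mul, Nat.cast_pow, Nat.cast_ofNat, if_true]
        ring
      · rintro ⟨j', i', b'⟩ - hne
        have h2 : Hor_m ((j, i, true) : Lt p k) (j', i', b') = 0 := by
          unfold Hor_m
          rw [if_neg]
          rintro ⟨e1, e2, e3⟩
          rcases e3 with ⟨e3, -⟩ | ⟨-, e3⟩
          · simp at e3
          · apply hne
            simp only at e1 e2 e3
            have e4 : i' = ⟨0, hL⟩ := Fin.ext e3
            rw [e1, e2, e4]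
        rw [h2, Nat.cast_zero, mul_zero, zero_mul]
      · intro h
        exact absurd (Finset.mem_univ _) h
  rw [Finset.sum_congr rfl fun x _ => h1 x, Fintype.sum_prod_type]
  refine Finset.sum_congr rfl fun j _ => ?_
  rw [Fintype.sum_prod_type, Finset.mul_sum]
  refine Finset.sum_congr rfl fun i _ => ?_
  rw [Fintype.sum_bool]
  simp only [if_true, Bool.false_eq_true, if_false]
  ring

theorem Hor_vl_false {p k : ℕ} (j : Fin k) (i : Fin (Nat.log 2 p)) :
    vl ((j, i, false) : Lt p k) = Pi.single j ((gn p i : ℕ) : ZMod p) := by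
  simp [vl]

theorem Hor_vl_true {p k : ℕ} (j : Fin k) (i : Fin (Nat.log 2 p)) :
    vl ((j, i, true) : Lt p k) = Pi.single j ((2 * gn p i : ℕ) : ZMod p) := by
  simp [vl]

theorem Hor_sgl_add {p k : ℕ} (j : Fin k) (a b : ℕ) :
    (Pi.single j ((a : ℕ) : ZMod p) + Pi.single j ((b : ℕ) : ZMod p) : G p k) =
      Pi.single j (((a + b : ℕ)) : ZMod p) := by
  rw [← Pi.single_add, Nat.cast_add]

/-- the contraction of the weights with a coboundary -/
theorem Hor_cob {R : Type} [CommRing R] {p k : ℕ} (hp : p.Prime) (t : Fin k → R)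
    (s : G p k → R) (hs : s 0 = 0) :
    ∑ x : Lt p k, ∑ y : Lt p k, t x.1 * (Hor_m x y : R) *
      (s (vl x) + s (vl y) - s (vl x + vl y)) =
      ∑ j : Fin k, t j * ((p : R) * s (Pi.single j 1)) := by
  rw [Hor_weights (Hor_log_pos hp) t (fun x y => s (vl x) + s (vl y) - s (vl x + vl y))]
  refine Finset.sum_congr rfl fun j _ => ?_
  have h := Hor_fin (R := R) hp (fun n => s (Pi.single j ((n : ℕ) : ZMod p)))
  simp only [Nat.cast_one, CharP.cast_eq_zero, Pi.single_zero, hs, sub_zero] at h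
  rw [← h]
  refine congrArg (fun z => t j * z) (Finset.sum_congr rfl fun i _ => ?_)
  rw [Hor_vl_false, Hor_vl_true, Hor_vl_false, Hor_sgl_add, Hor_sgl_add]
  have h0 : gn p ((⟨0, Hor_log_pos hp⟩ : Fin (Nat.log 2 p)) : ℕ) = 1 := Hor_gn_zero hp
  rw [h0, Nat.cast_one]

theorem Hor_two {p : ℕ} [Fact p.Prime] (hp2 : p ≠ 2) (k : ℕ) :
    IsUnit (2 : MvPolynomial (Fin k) (ZMod p)) := by
  have h1 : (2 : ZMod p) ≠ 0 := by
    intro h
    have h2 : ((2 : ℕ) : ZMod p) = 0 := by rw [Nat.cast_ofNat]; exact h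
    rw [ZMod.natCast_eq_zero_iff] at h2
    exact hp2 ((Nat.prime_dvd_prime_iff_eq (Fact.out : p.Prime) Nat.prime_two).1 h2)
  have h2 : IsUnit (2 : ZMod p) := isUnit_iff_ne_zero.2 h1
  have h3 := h2.map (MvPolynomial.C : ZMod p →+* MvPolynomial (Fin k) (ZMod p))
  rwa [map_ofNat] at h3

theorem Hor_BB_symm {p k : ℕ} (a b : Lt p k) : BB a b = BB b a := by
  unfold BB
  rw [add_comm]

theorem Hor_BB_sum {p k : ℕ} (F : Lt p k → Lt p k → MvPolynomial (Fin k) (ZMod p))
    (hF : ∀ x y, F x y = F y x) :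
    ∑ x : Lt p k, ∑ y : Lt p k, BB x y * F x y =
      2 * ∑ x : Lt p k, ∑ y : Lt p k,
        MvPolynomial.X x.1 * ((Hor_m x y : ℕ) : MvPolynomial (Fin k) (ZMod p)) * F x y := by
  have h1 : ∑ x : Lt p k, ∑ y : Lt p k, BB x y * F x y =
      (∑ x : Lt p k, ∑ y : Lt p k, MM x y * F x y) +
        ∑ x : Lt p k, ∑ y : Lt p k, MM y x * F x y := by
    rw [← Finset.sum_add_distrib]
    refine Finset.sum_congr rfl fun x _ => ?_
    rw [← Finset.sum_add_distrib]
    refine Finset.sum_congr rfl fun y _ => ?_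
    unfold BB
    rw [add_mul]
  have h2 : ∑ x : Lt p k, ∑ y : Lt p k, MM y x * F x y =
      ∑ x : Lt p k, ∑ y : Lt p k, MM x y * F x y := by
    rw [Finset.sum_comm]
    refine Finset.sum_congr rfl fun x _ => Finset.sum_congr rfl fun y _ => ?_
    rw [hF]
  rw [h1, h2, ← two_mul]
  refine congrArg (fun z => 2 * z) (Finset.sum_congr rfl fun x _ =>
    Finset.sum_congr rfl fun y _ => ?_)
  rw [Hor_MM]

theorem Hor_dt_add {p k : ℕ} (χ a b : G p k) : dt χ (a + b) = dt χ a + dt χ b := by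
  unfold dt
  rw [← Finset.sum_add_distrib]
  refine Finset.sum_congr rfl fun j _ => ?_
  rw [Pi.add_apply, mul_add]

theorem Hor_dt_single {p k : ℕ} (χ : G p k) (j : Fin k) : dt χ (Pi.single j 1) = χ j := by
  unfold dt
  rw [Finset.sum_eq_single j]
  · rw [Pi.single_eq_same, mul_one]
  · intro b _ hb
    rw [Pi.single_eq_of_ne hb, mul_zero]
  · intro h
    exact absurd (Finset.mem_univ _) h

theorem Hor_cc {p : ℕ} [Fact p.Prime] (g h : ZMod p) :
    (p : ℤ) * cc g h = g.valMinAbs + h.valMinAbs - (g + h).valMinAbs := by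
  unfold cc
  refine Int.mul_ediv_cancel' ?_
  rw [← ZMod.intCast_zmod_eq_zero_iff_dvd]
  push_cast
  rw [sub_self]

theorem Hor_cc_symm {p : ℕ} (g h : ZMod p) : cc g h = cc h g := by
  unfold cc
  rw [add_comm g h, add_comm g.valMinAbs]

theorem oHor : Stmt_OHor := by
  intro p k _ hp2
  have hp : p.Prime := Fact.out
  refine ⟨Hor_two hp2 k, ⟨Hor_BB_symm, ?_⟩, ?_⟩
  · intro s hs
    rw [Hor_BB_sum (fun x y => s (vl x) + s (vl y) - s (vl x + vl y))
      (fun x y => by rw [add_comm (s (vl x)), add_comm (vl x)]), Hor_cob hp _ s hs]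
    rw [Finset.sum_eq_zero, mul_zero]
    intro j _
    rw [CharP.cast_eq_zero, zero_mul, mul_zero]
  · intro χ
    rw [Hor_BB_sum (fun x y => ((cc (dt χ (vl x)) (dt χ (vl y)) : ℤ) :
      MvPolynomial (Fin k) (ZMod p))) (fun x y => by rw [Hor_cc_symm]),
      Hor_weights (Hor_log_pos hp) (fun j => MvPolynomial.X j)
        (fun x y => ((cc (dt χ (vl x)) (dt χ (vl y)) : ℤ) : MvPolynomial (Fin k) (ZMod p)))]
    refine congrArg (fun z => 2 * z) (Finset.sum_congr rfl fun j _ => ?_)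
    refine congrArg (fun z => MvPolynomial.X j * z) ?_
    -- the integer identity
    have key : ∑ i : Fin (Nat.log 2 p), (2 : ℤ) ^ (Nat.log 2 p - 1 - (i : ℕ)) *
        (cc (dt χ (vl ((j, i, false) : Lt p k))) (dt χ (vl ((j, i, false) : Lt p k))) +
          (dg p i : ℤ) * cc (dt χ (vl ((j, i, true) : Lt p k)))
            (dt χ (vl ((j, ⟨0, Hor_log_pos hp⟩, false) : Lt p k)))) = (χ j).valMinAbs := by
      have h1 := Hor_weights (R := ℤ) (p := p) (k := k) (Hor_log_pos hp)
        (fun l => if l = j then (1 : ℤ) else 0)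
        (fun x y => (p : ℤ) * cc (dt χ (vl x)) (dt χ (vl y)))
      have h2 := Hor_cob (R := ℤ) (p := p) (k := k) hp
        (fun l => if l = j then (1 : ℤ) else 0) (fun g => (dt χ g).valMinAbs)
        (by simp [dt])
      have h3 : ∀ x y : Lt p k, (p : ℤ) * cc (dt χ (vl x)) (dt χ (vl y)) =
          (dt χ (vl x)).valMinAbs + (dt χ (vl y)).valMinAbs -
            (dt χ (vl x + vl y)).valMinAbs := by
        intro x y
        rw [Hor_cc, Hor_dt_add]
      simp only [← h3] at h2
      rw [h1] at h2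
      simp only [ite_mul, one_mul, zero_mul, Finset.sum_ite_eq', Finset.mem_univ, if_true,
        Hor_dt_single] at h2
      have hp0 : (p : ℤ) ≠ 0 := by exact_mod_cast hp.ne_zero
      refine mul_left_cancel₀ hp0 ?_
      rw [← h2, Finset.mul_sum]
      refine Finset.sum_congr rfl fun i _ => ?_
      ring
    have h4 := congrArg (fun z : ℤ => (z : MvPolynomial (Fin k) (ZMod p))) key
    simp only [Int.cast_sum, Int.cast_mul, Int.cast_add, Int.cast_pow, Int.cast_ofNat,
      Int.cast_natCast] at h4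
    rw [h4]
    have h5 : ((χ j).valMinAbs : MvPolynomial (Fin k) (ZMod p)) =
        MvPolynomial.C (((χ j).valMinAbs : ℤ) : ZMod p) := by
      rw [map_intCast]
    rw [h5, ZMod.coe_valMinAbs]

end Pool.Agent.Tvo
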