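import Pool.Agent.Tvo.Stmts

/-!
# TVO module Pair: contraction of the Pfaffian with symmetric functions
-/

set_option autoImplicit false

namespace Pool.Agent.Tvo

open scoped Classical
open Pool.Agent.Tvb (Pos Zero Base Good hat TP)

theorem Pair_sum {Λ K : Type} [Fintype Λ] [CommRing K] (N : ℕ) (f : (Fin (N + 1) → Λ) → K) :
    ∑ w, f w = ∑ x, ∑ w' : Fin N → Λ, f (Fin.cons x w') := by
  rw [← Fintype.sum_prod_type' (f := fun (x : Λ) (w' : Fin N → Λ) => f (Fin.cons x w'))]
  exact (Fintype.sum_equiv (Fin.consEquiv fun _ : Fin (N + 1) => Λ) _ _ (fun _ => rfl)).symm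

theorem Pair_rem {Λ : Type} {N : ℕ} (w : Fin (N + 2) → Λ) : rem2 0 w = fun j => w j.succ.succ := by
  funext j
  simp [rem2]

theorem Pair_step {Λ K : Type} [Fintype Λ] [CommRing K] (hPf : Stmt_OPf) (B : Λ → Λ → K)
    (h2 : IsUnit (2 : K)) (hB : ∀ a b, B a b = B b a) (N : ℕ) (c : Λ → Λ → K)
    (hc : ∀ x y, c x y = c y x) (R : (Fin N → Λ) → K) :
    ∑ w : Fin (N + 2) → Λ, pf B (N + 2) w * (c (w 0) (w 1) * R (fun j => w j.succ.succ)) =
      (∑ x, ∑ y, B x y * c x y) * ∑ w : Fin N → Λ, pf B N w * R w := by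
  set s : Equiv.Perm (Fin (N + 2)) := Equiv.swap 0 1 with hs
  have hswap : ∀ w : Fin (N + 2) → Λ, pf B (N + 2) w + pf B (N + 2) (fun c => w (s c)) =
      2 * (B (w 0) (w 1) * pf B N (fun j => w j.succ.succ)) := by
    intro w
    have h := (hPf Λ K B hB).1 N w 0
    rw [Fin.val_zero, Pair_rem] at h
    exact h
  have hs0 : s 0 = 1 := Equiv.swap_apply_left 0 1
  have hs1 : s 1 = 0 := Equiv.swap_apply_right 0 1
  have hss : ∀ j : Fin N, s j.succ.succ = j.succ.succ := by
    intro j
    apply Equiv.swap_apply_of_ne_of_ne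
    · exact Fin.succ_ne_zero _
    · intro h
      have h' := congrArg Fin.val h
      simp at h'
  have hre : ∑ w : Fin (N + 2) → Λ, pf B (N + 2) (fun c => w (s c)) *
      (c (w 0) (w 1) * R (fun j => w j.succ.succ)) =
      ∑ w : Fin (N + 2) → Λ, pf B (N + 2) w * (c (w 0) (w 1) * R (fun j => w j.succ.succ)) := by
    refine Fintype.sum_equiv (Equiv.arrowCongr s (Equiv.refl Λ)) _ _ fun w => ?_
    have hw : (Equiv.arrowCongr s (Equiv.refl Λ)) w = fun c => w (s c) := by
      funext c
      simp [Equiv.arrowCongr, hs]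
    rw [hw]
    simp only [hs0, hs1, hss]
    rw [hc (w 1) (w 0)]
  have hdbl : 2 * ∑ w : Fin (N + 2) → Λ, pf B (N + 2) w *
      (c (w 0) (w 1) * R (fun j => w j.succ.succ)) =
      2 * ((∑ x, ∑ y, B x y * c x y) * ∑ w : Fin N → Λ, pf B N w * R w) := by
    calc 2 * ∑ w : Fin (N + 2) → Λ, pf B (N + 2) w *
          (c (w 0) (w 1) * R (fun j => w j.succ.succ))
        = ∑ w : Fin (N + 2) → Λ, (pf B (N + 2) w + pf B (N + 2) (fun c => w (s c))) *
          (c (w 0) (w 1) * R (fun j => w j.succ.succ)) := by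
          simp only [add_mul]
          rw [Finset.sum_add_distrib, hre, two_mul]
      _ = ∑ w : Fin (N + 2) → Λ, 2 * (B (w 0) (w 1) * pf B N (fun j => w j.succ.succ)) *
          (c (w 0) (w 1) * R (fun j => w j.succ.succ)) := by
          refine Finset.sum_congr rfl fun w _ => ?_
          rw [hswap w]
      _ = ∑ x, ∑ y, ∑ w : Fin N → Λ, 2 * (B x y * pf B N w) * (c x y * R w) := by
          rw [Pair_sum]
          refine Finset.sum_congr rfl fun x _ => ?_
          rw [Pair_sum]
          refine Finset.sum_congr rfl fun y _ => ?_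
          refine Finset.sum_congr rfl fun w _ => ?_
          rfl
      _ = 2 * ((∑ x, ∑ y, B x y * c x y) * ∑ w : Fin N → Λ, pf B N w * R w) := by
          rw [Finset.sum_mul, Finset.mul_sum]
          refine Finset.sum_congr rfl fun x _ => ?_
          rw [Finset.sum_mul, Finset.mul_sum]
          refine Finset.sum_congr rfl fun y _ => ?_
          rw [Finset.mul_sum, Finset.mul_sum]
          refine Finset.sum_congr rfl fun w _ => ?_
          ring
  exact h2.mul_left_cancel hdbl

theorem oPair (hPf : Stmt_OPf) : Stmt_OPair := by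
  intro n
  induction n with
  | zero =>
    intro Λ K _ _ B _ _ c _
    have : Unique (Fin (2 * 0) → Λ) := by
      change Unique (Fin 0 → Λ)
      infer_instance
    rw [Fintype.sum_unique]
    simp [pf]
  | succ n ih =>
    intro Λ K _ _ B h2 hB c hc
    have h1 := Pair_step hPf B h2 hB (2 * n) (c 0) (hc 0)
      (fun w => ∏ a : Fin n, c a.succ (w (e0 a)) (w (e1 a)))
    rw [ih Λ K B h2 hB (fun a => c a.succ) (fun a => hc a.succ)] at h1
    rw [Fin.prod_univ_succ, ← h1]
    refine Finset.sum_congr rfl fun w _ => ?_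
    rw [Fin.prod_univ_succ]
    rfl

end Pool.Agent.Tvo
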