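import Pool.Agent.Tvo.Stmts

/-!
# Module Pf: exchange of two neighbours and expansion along the last letter
-/

set_option autoImplicit false

namespace Pool.Agent.Tvo

open scoped Classical
open Pool.Agent.Tvb (Pos Zero Base Good hat TP)

section
variable {Λ K : Type} [CommRing K] (B : Λ → Λ → K)

/-- the expansion operator: sum over the letters `l_j` of `(-1)^j B a l_j F (l without l_j)` -/
def Pf_ex (a : Λ) : (List Λ → K) → List Λ → K
  | _, [] => 0
  | F, b :: l => B a b * F l - Pf_ex a (fun l' => F (b :: l')) l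

/-- the Pfaffian on lists -/
def Pf_N : ℕ → List Λ → K
  | 0, [] => 1
  | 0, _ :: _ => 0
  | 1, _ => 0
  | _ + 2, [] => 0
  | n + 2, a :: l => Pf_ex B a (Pf_N n) l

@[simp] theorem Pf_ex_nil (a : Λ) (F : List Λ → K) : Pf_ex B a F [] = 0 := rfl

@[simp] theorem Pf_ex_cons (a b : Λ) (F : List Λ → K) (l : List Λ) :
    Pf_ex B a F (b :: l) = B a b * F l - Pf_ex B a (fun l' => F (b :: l')) l := rfl

theorem Pf_ex_add (a : Λ) (F G : List Λ → K) (l : List Λ) :
    Pf_ex B a (fun l' => F l' + G l') l = Pf_ex B a F l + Pf_ex B a G l := by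
  induction l generalizing F G with
  | nil => simp
  | cons b l ih =>
    simp only [Pf_ex_cons]
    rw [ih (fun l' => F (b :: l')) (fun l' => G (b :: l'))]
    ring

theorem Pf_ex_smul (a : Λ) (r : K) (F : List Λ → K) (l : List Λ) :
    Pf_ex B a (fun l' => r * F l') l = r * Pf_ex B a F l := by
  induction l generalizing F with
  | nil => simp
  | cons b l ih =>
    simp only [Pf_ex_cons]
    rw [ih (fun l' => F (b :: l'))]
    ring

theorem Pf_ex_zero (a : Λ) (l : List Λ) : Pf_ex B a (fun _ => 0) l = 0 := by
  induction l with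
  | nil => simp
  | cons b l ih =>
    simp only [Pf_ex_cons]
    rw [ih]
    ring

/-- linearity in the form needed below -/
theorem Pf_ex_lin (a : Λ) (r : K) (F G : List Λ → K) (l : List Λ) :
    Pf_ex B a (fun l' => r * F l' - G l') l = r * Pf_ex B a F l - Pf_ex B a G l := by
  have h : (fun l' => r * F l' - G l') = fun l' => (r * F l') + ((-1) * G l') := by
    funext l'; ring
  rw [h, Pf_ex_add, Pf_ex_smul, Pf_ex_smul]
  ring

theorem Pf_ex_append (a : Λ) (F : List Λ → K) (l1 l2 : List Λ) :
    Pf_ex B a F (l1 ++ l2) = Pf_ex B a (fun l => F (l ++ l2)) l1 +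
      (-1) ^ l1.length * Pf_ex B a (fun l => F (l1 ++ l)) l2 := by
  induction l1 generalizing F with
  | nil => simp
  | cons b l1 ih =>
    simp only [List.cons_append, Pf_ex_cons, List.length_cons]
    rw [ih (fun l' => F (b :: l'))]
    ring

/-- two expansions anticommute -/
theorem Pf_anti (a b : Λ) (F : List Λ → K) (l : List Λ) :
    Pf_ex B a (fun l' => Pf_ex B b F l') l + Pf_ex B b (fun l' => Pf_ex B a F l') l = 0 := by
  induction l generalizing F with
  | nil => simp
  | cons c l ih =>
    simp only [Pf_ex_cons]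
    rw [Pf_ex_lin, Pf_ex_lin]
    linear_combination ih (fun l' => F (c :: l'))

theorem Pf_N_zero_cons (a : Λ) (l : List Λ) : Pf_N B 0 (a :: l) = 0 := rfl

theorem Pf_N_one (l : List Λ) : Pf_N B 1 l = 0 := by
  cases l <;> rfl

theorem Pf_N_cons (n : ℕ) (a : Λ) (l : List Λ) :
    Pf_N B (n + 2) (a :: l) = Pf_ex B a (Pf_N B n) l := by
  cases n <;> rfl

theorem Pf_N_nil (n : ℕ) : Pf_N B (n + 2) ([] : List Λ) = 0 := rfl

/-- exchange of two neighbours -/
theorem Pf_swap (hB : ∀ a b, B a b = B b a) (n : ℕ) : ∀ (l1 l2 : List Λ) (a b : Λ),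
    Pf_N B (n + 2) (l1 ++ a :: b :: l2) + Pf_N B (n + 2) (l1 ++ b :: a :: l2) =
      2 * (B a b * Pf_N B n (l1 ++ l2)) := by
  induction n using Nat.twoStepInduction with
  | zero =>
    intro l1 l2 a b
    cases l1 with
    | nil =>
      simp only [List.nil_append, Pf_N_cons, Pf_ex_cons, Pf_N_zero_cons, Pf_ex_zero, hB b a]
      ring
    | cons c l1 =>
      simp only [List.cons_append, Pf_N_cons, Pf_N_zero_cons]
      have h : ∀ (x y : Λ), Pf_ex B c (Pf_N B 0) (l1 ++ x :: y :: l2) = 0 := by
        intro x y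
        rw [Pf_ex_append]
        have h1 : (fun l => Pf_N B 0 (l ++ x :: y :: l2)) = fun _ => 0 := by
          funext l
          cases l <;> rfl
        have h2 : (fun l => Pf_N B 0 (l1 ++ x :: y :: l)) = fun _ => 0 := by
          funext l
          cases l1 <;> rfl
        have h3 : Pf_N B 0 (l1 ++ y :: l2) = 0 := by
          cases l1 <;> rfl
        have h4 : Pf_N B 0 (l1 ++ x :: l2) = 0 := by
          cases l1 <;> rfl
        simp only [Pf_ex_cons]
        rw [h1, h2, h3, h4, Pf_ex_zero, Pf_ex_zero]
        ring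
      rw [h, h]
      ring
  | one =>
    intro l1 l2 a b
    have h : (Pf_N B 1 : List Λ → K) = fun _ => 0 := by
      funext l
      exact Pf_N_one B l
    have h2 : ∀ l : List Λ, Pf_N B (1 + 2) l = 0 := by
      intro l
      cases l with
      | nil => rfl
      | cons c l => rw [Pf_N_cons, h, Pf_ex_zero]
    rw [h2, h2, Pf_N_one]
    ring
  | more n ih _ =>
    intro l1 l2 a b
    cases l1 with
    | nil =>
      have h : ∀ c : Λ, (fun l' => Pf_N B (n + 2) (c :: l')) =
          fun l' => Pf_ex B c (Pf_N B n) l' := fun c => by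
        funext l'
        rw [Pf_N_cons]
      simp only [List.nil_append]
      rw [Pf_N_cons, Pf_N_cons, Pf_ex_cons, Pf_ex_cons, h, h, hB b a]
      linear_combination (-1 : K) * Pf_anti B a b (Pf_N B n) l2
    | cons c l1 =>
      simp only [List.cons_append]
      rw [Pf_N_cons, Pf_N_cons, Pf_N_cons, Pf_ex_append, Pf_ex_append, Pf_ex_append]
      simp only [Pf_ex_cons]
      have h1 : Pf_ex B c (fun l => Pf_N B (n + 2) (l ++ a :: b :: l2)) l1 +
          Pf_ex B c (fun l => Pf_N B (n + 2) (l ++ b :: a :: l2)) l1 =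
          2 * B a b * Pf_ex B c (fun l => Pf_N B n (l ++ l2)) l1 := by
        rw [← Pf_ex_add, ← Pf_ex_smul]
        congr 1
        funext l
        rw [ih l l2 a b]
        ring
      have h2 : Pf_ex B c (fun l => Pf_N B (n + 2) (l1 ++ a :: b :: l)) l2 +
          Pf_ex B c (fun l => Pf_N B (n + 2) (l1 ++ b :: a :: l)) l2 =
          2 * B a b * Pf_ex B c (fun l => Pf_N B n (l1 ++ l)) l2 := by
        rw [← Pf_ex_add, ← Pf_ex_smul]
        congr 1
        funext l
        rw [ih l1 l a b]
        ring
      linear_combination h1 + (-1) ^ l1.length * h2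

/-- parity -/
theorem Pf_ex_par (a : Λ) (F : List Λ → K) (l : List Λ) :
    Pf_ex B a (fun l' => (-1) ^ l'.length * F l') l = (-1) ^ (l.length + 1) * Pf_ex B a F l := by
  induction l generalizing F with
  | nil => simp
  | cons b l ih =>
    simp only [Pf_ex_cons, List.length_cons]
    have h : (fun l' : List Λ => (-1 : K) ^ (l'.length + 1) * F (b :: l')) =
        fun l' => (-1) * ((-1) ^ l'.length * F (b :: l')) := by
      funext l'; ring
    rw [h, Pf_ex_smul, ih (fun l' => F (b :: l'))]
    ring

theorem Pf_N_par (n : ℕ) : ∀ l : List Λ, (-1) ^ l.length * Pf_N B n l = Pf_N B n l := by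
  induction n using Nat.twoStepInduction with
  | zero =>
    intro l
    cases l with
    | nil => simp
    | cons a l => rw [Pf_N_zero_cons]; ring
  | one =>
    intro l
    rw [Pf_N_one]
    ring
  | more n ih _ =>
    intro l
    cases l with
    | nil => simp
    | cons a l =>
      rw [Pf_N_cons, List.length_cons, ← Pf_ex_par]
      congr 1
      funext l'
      exact ih l'

/-- expansion along the last letter -/
theorem Pf_last (hB : ∀ a b, B a b = B b a) (n : ℕ) : ∀ (l : List Λ) (z : Λ),
    Pf_N B (n + 2) (l ++ [z]) = Pf_ex B z (Pf_N B n) l := by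
  induction n using Nat.twoStepInduction with
  | zero =>
    intro l z
    cases l with
    | nil => simp [Pf_N_cons]
    | cons a l =>
      rw [List.cons_append, Pf_N_cons, Pf_ex_append, Pf_ex_cons, Pf_ex_cons, Pf_ex_nil]
      have h1 : (fun l' => Pf_N B 0 (l' ++ [z])) = fun _ => 0 := by
        funext l'
        cases l' <;> rfl
      have h2 : (fun l' => Pf_N B 0 (a :: l')) = fun _ => 0 := by
        funext l'
        rfl
      rw [h1, h2, Pf_ex_zero, Pf_ex_zero, List.append_nil, hB z a]
      linear_combination B a z * Pf_N_par B 0 l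
  | one =>
    intro l z
    have h : (Pf_N B 1 : List Λ → K) = fun _ => 0 := by
      funext l
      exact Pf_N_one B l
    have h2 : ∀ l : List Λ, Pf_N B (1 + 2) l = 0 := by
      intro l
      cases l with
      | nil => rfl
      | cons c l => rw [Pf_N_cons, h, Pf_ex_zero]
    rw [h2, h, Pf_ex_zero]
  | more n ih _ =>
    intro l z
    cases l with
    | nil => simp [Pf_N_cons]
    | cons a l =>
      rw [List.cons_append, Pf_N_cons, Pf_ex_append, Pf_ex_cons, Pf_ex_cons, Pf_ex_nil]
      have h1 : (fun l' => Pf_N B (n + 2) (l' ++ [z])) = fun l' => Pf_ex B z (Pf_N B n) l' := by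
        funext l'
        exact ih l' z
      have h2 : (fun l' => Pf_N B (n + 2) (a :: l')) = fun l' => Pf_ex B a (Pf_N B n) l' := by
        funext l'
        rw [Pf_N_cons]
      rw [h1, h2, List.append_nil, hB z a]
      linear_combination B a z * Pf_N_par B (n + 2) l + Pf_anti B a z (Pf_N B n) l

/-! ### translation -/

theorem Pf_ex_ofFn (a : Λ) (n : ℕ) : ∀ (F : List Λ → K) (u : Fin (n + 1) → Λ),
    Pf_ex B a F (List.ofFn u) = ∑ j : Fin (n + 1), (-1) ^ (j : ℕ) * B a (u j) *
      F (List.ofFn fun i => u (j.succAbove i)) := by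
  induction n with
  | zero =>
    intro F u
    rw [List.ofFn_succ, Pf_ex_cons]
    simp
  | succ n ih =>
    intro F u
    rw [List.ofFn_succ, Pf_ex_cons, ih]
    conv_rhs => rw [Fin.sum_univ_succ]
    simp only [Fin.val_zero, pow_zero, one_mul, Fin.succAbove_zero, Fin.val_succ, sub_eq_add_neg]
    rw [← Finset.sum_neg_distrib]
    congr 1
    refine Finset.sum_congr rfl fun j _ => ?_
    have h : (List.ofFn fun i : Fin (n + 1) => u (j.succ.succAbove i)) =
        u 0 :: List.ofFn fun i : Fin n => u (j.succAbove i).succ := by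
      rw [List.ofFn_succ]
      simp only [Fin.succ_succAbove_zero, Fin.succ_succAbove_succ]
    rw [h, pow_succ]
    ring

theorem Pf_eq (N : ℕ) : ∀ w : Fin N → Λ, pf B N w = Pf_N B N (List.ofFn w) := by
  induction N using Nat.twoStepInduction with
  | zero =>
    intro w
    rw [List.ofFn_zero]
    rfl
  | one =>
    intro w
    rw [Pf_N_one]
    rfl
  | more n ih _ =>
    intro w
    rw [List.ofFn_succ, Pf_N_cons, Pf_ex_ofFn]
    show (∑ j : Fin (n + 1), (-1) ^ (j : ℕ) * B (w 0) (w j.succ) *
      pf B n (fun i => w (j.succAbove i).succ)) = _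
    refine Finset.sum_congr rfl fun j _ => ?_
    rw [ih]

theorem Pf_split (N : ℕ) (w : Fin (N + 2) → Λ) (i : Fin (N + 1)) :
    ∃ l1 l2 : List Λ, List.ofFn w = l1 ++ w i.castSucc :: w i.succ :: l2 ∧
      List.ofFn (fun c => w (Equiv.swap i.castSucc i.succ c)) =
        l1 ++ w i.succ :: w i.castSucc :: l2 ∧
      List.ofFn (rem2 i w) = l1 ++ l2 := by
  have hi := i.2
  refine ⟨List.ofFn fun j : Fin i => w ⟨j, by have := j.2; omega⟩,
    List.ofFn fun j : Fin (N - i) => w ⟨i + 2 + j, by have := j.2; omega⟩, ?_, ?_, ?_⟩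
  · apply List.ext_getElem
    · simp; omega
    · intro c h1 h2
      simp only [List.getElem_ofFn, List.getElem_append, List.getElem_cons, List.length_ofFn]
      split_ifs with h3 h4 h5
      · rfl
      · congr 1
        ext
        simp only [Fin.val_castSucc]
        omega
      · congr 1
        ext
        simp only [Fin.val_succ]
        omega
      · congr 1
        ext
        simp only
        omega
  · apply List.ext_getElem
    · simp; omega
    · intro c h1 h2
      simp only [List.getElem_ofFn, List.getElem_append, List.getElem_cons, List.length_ofFn,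
        Equiv.swap_apply_def, Fin.ext_iff, Fin.val_castSucc, Fin.val_succ]
      split_ifs <;> first | (congr 1; done) | (exfalso; omega) | (congr 1; ext; simp; omega)
  · apply List.ext_getElem
    · simp; omega
    · intro c h1 h2
      simp only [List.getElem_ofFn, List.getElem_append, List.length_ofFn, rem2]
      split_ifs with h3
      · congr 1
      · congr 1
        ext
        simp only [Fin.val_succ]
        omega

end

theorem oPf : Stmt_OPf := by
  intro Λ K _ B hB
  refine ⟨fun N w i => ?_, fun N w => ?_⟩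
  · obtain ⟨l1, l2, h1, h2, h3⟩ := Pf_split N w i
    rw [Pf_eq, Pf_eq, Pf_eq, h1, h2, h3]
    exact Pf_swap B hB N l1 l2 _ _
  · have h : List.ofFn w = (List.ofFn fun i : Fin (N + 1) => w i.castSucc) ++
        [w (Fin.last (N + 1))] := by
      rw [List.ofFn_succ', List.concat_eq_append]
    rw [Pf_eq, h, Pf_last B hB, Pf_ex_ofFn]
    refine Finset.sum_congr rfl fun j _ => ?_
    rw [Pf_eq, hB (w (Fin.last (N + 1)))]

end Pool.Agent.Tvo
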