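import Pool.Agent.Tvo.Stmts
import Pool.Agent.Tvo.Pf

/-!
# Module Path: the sum of the cells of the words
-/

set_option autoImplicit false

namespace Pool.Agent.Tvo

open scoped Classical
open Pool.Agent.Tvb (Pos Zero Base Good hat TP)

/-! ### sums over words -/

section SW
variable {Λ K : Type} [Fintype Λ] [CommRing K]

/-- sum over the words of length `n` -/
def Path_S : ℕ → (List Λ → K) → K
  | 0, Φ => Φ []
  | n + 1, Φ => ∑ a, Path_S n (fun l => Φ (a :: l))

theorem Path_S_zero (Φ : List Λ → K) : Path_S 0 Φ = Φ [] := rfl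

theorem Path_S_succ (n : ℕ) (Φ : List Λ → K) :
    Path_S (n + 1) Φ = ∑ a, Path_S n (fun l => Φ (a :: l)) := rfl

theorem Path_S_congr (n : ℕ) : ∀ (Φ Φ' : List Λ → K), (∀ l, l.length = n → Φ l = Φ' l) →
    Path_S n Φ = Path_S n Φ' := by
  induction n with
  | zero =>
    intro Φ Φ' h
    exact h [] rfl
  | succ n ih =>
    intro Φ Φ' h
    rw [Path_S_succ, Path_S_succ]
    refine Finset.sum_congr rfl fun a _ => ih _ _ fun l hl => h _ ?_
    rw [List.length_cons, hl]

theorem Path_S_add (n : ℕ) : ∀ (Φ Φ' : List Λ → K),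
    Path_S n (fun l => Φ l + Φ' l) = Path_S n Φ + Path_S n Φ' := by
  induction n with
  | zero => intro Φ Φ'; rfl
  | succ n ih =>
    intro Φ Φ'
    rw [Path_S_succ, Path_S_succ, Path_S_succ, ← Finset.sum_add_distrib]
    exact Finset.sum_congr rfl fun a _ => ih _ _

theorem Path_S_smul (n : ℕ) : ∀ (r : K) (Φ : List Λ → K),
    Path_S n (fun l => r * Φ l) = r * Path_S n Φ := by
  induction n with
  | zero => intro r Φ; rfl
  | succ n ih =>
    intro r Φ
    rw [Path_S_succ, Path_S_succ, Finset.mul_sum]
    exact Finset.sum_congr rfl fun a _ => ih _ _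

theorem Path_S_sub (n : ℕ) (Φ Φ' : List Λ → K) :
    Path_S n (fun l => Φ l - Φ' l) = Path_S n Φ - Path_S n Φ' := by
  have h : (fun l => Φ l - Φ' l) = fun l => Φ l + (-1) * Φ' l := by
    funext l; ring
  rw [h, Path_S_add, Path_S_smul]
  ring

theorem Path_S_sum (n : ℕ) {ι : Type} (s : Finset ι) : ∀ (Φ : ι → List Λ → K),
    Path_S n (fun l => ∑ i ∈ s, Φ i l) = ∑ i ∈ s, Path_S n (Φ i) := by
  induction n with
  | zero => intro Φ; rfl
  | succ n ih =>
    intro Φ
    simp only [Path_S_succ]
    rw [Finset.sum_comm]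
    exact Finset.sum_congr rfl fun a _ => ih _

theorem Path_S_last (n : ℕ) : ∀ (Φ : List Λ → K),
    Path_S (n + 1) Φ = ∑ z, Path_S n (fun l => Φ (l ++ [z])) := by
  induction n with
  | zero => intro Φ; rfl
  | succ n ih =>
    intro Φ
    rw [Path_S_succ]
    have h : ∀ a, Path_S (n + 1) (fun l => Φ (a :: l)) =
        ∑ z, Path_S n (fun l => Φ (a :: (l ++ [z]))) := fun a => ih _
    rw [Finset.sum_congr rfl fun a _ => h a, Finset.sum_comm]
    rfl

theorem Path_S_ofFn (n : ℕ) : ∀ (Φ : List Λ → K),
    ∑ w : Fin n → Λ, Φ (List.ofFn w) = Path_S n Φ := by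
  induction n with
  | zero =>
    intro Φ
    simp [Path_S]
  | succ n ih =>
    intro Φ
    rw [← (Fin.consEquiv (fun _ : Fin (n + 1) => Λ)).sum_comp, Fintype.sum_prod_type,
      Path_S_succ]
    refine Finset.sum_congr rfl fun a _ => ?_
    rw [← ih]
    refine Finset.sum_congr rfl fun w _ => ?_
    have h : List.ofFn ((Fin.consEquiv (fun _ : Fin (n + 1) => Λ)) (a, w)) =
        a :: List.ofFn w := by
      rw [List.ofFn_succ]
      simp [Fin.consEquiv]
    rw [h]

end SW

/-! ### insertion of letters -/

section ins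
variable {Λ K A : Type} [Fintype Λ] [CommRing K] (B : Λ → Λ → K)

/-- insertion of a letter -/
def Path_ins (a : Λ) : (List Λ → K) → List Λ → K
  | Φ, [] => ∑ b, B a b * Φ [b]
  | Φ, c :: l => ∑ b, B a b * Φ (b :: c :: l) - Path_ins a (fun l' => Φ (c :: l')) l

theorem Path_ins_spec (a : Λ) (m : ℕ) : ∀ (F Φ : List Λ → K),
    Path_S (m + 1) (fun l => Pf_ex B a F l * Φ l) =
      Path_S m (fun l => F l * Path_ins B a Φ l) := by
  induction m with
  | zero =>
    intro F Φ
    simp only [Path_S_succ, Path_S_zero, Pf_ex_cons, Pf_ex_nil, Path_ins, sub_zero,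
      Finset.mul_sum]
    exact Finset.sum_congr rfl fun b _ => by ring
  | succ m ih =>
    intro F Φ
    rw [Path_S_succ]
    simp only [Pf_ex_cons, sub_mul]
    have h1 : ∀ c, Path_S (m + 1) (fun l => B a c * F l * Φ (c :: l) -
        Pf_ex B a (fun l' => F (c :: l')) l * Φ (c :: l)) =
        Path_S (m + 1) (fun l => F l * (B a c * Φ (c :: l))) -
        Path_S m (fun l => F (c :: l) * Path_ins B a (fun l' => Φ (c :: l')) l) := by
      intro c
      rw [Path_S_sub, ih (fun l' => F (c :: l')) (fun l' => Φ (c :: l'))]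
      congr 1
      apply Path_S_congr
      intro l _
      ring
    rw [Finset.sum_congr rfl fun c _ => h1 c, Finset.sum_sub_distrib, ← Path_S_sum]
    have h2 : (fun l : List Λ => F l * Path_ins B a Φ l) =
        fun l => F l * Path_ins B a Φ l := rfl
    have h3 : Path_S (m + 1) (fun l => F l * Path_ins B a Φ l) =
        Path_S (m + 1) (fun l => ∑ c, F l * (B a c * Φ (c :: l))) -
        ∑ c, Path_S m (fun l => F (c :: l) * Path_ins B a (fun l' => Φ (c :: l')) l) := by
      rw [Path_S_succ, Path_S_succ, ← Finset.sum_sub_distrib]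
      refine Finset.sum_congr rfl fun c _ => ?_
      rw [← Path_S_sub]
      apply Path_S_congr
      intro l _
      rw [Path_ins, mul_sub, Finset.mul_sum]
    rw [h3]

end ins

/-! ### steps, merging of steps -/

section mg
variable {Λ K A : Type} [Fintype Λ] [CommRing K] [AddCommGroup A]

/-- alternating sum over the mergings of neighbouring steps -/
def Path_mg : (List A → K) → List A → K
  | _, [] => 0
  | _, [_] => 0
  | Ψ, g :: h :: s => Ψ ((g + h) :: s) - Path_mg (fun t => Ψ (g :: t)) (h :: s)

theorem Path_mg_sub (Ψ Ψ' : List A → K) (s : List A) :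
    Path_mg (fun t => Ψ t - Ψ' t) s = Path_mg Ψ s - Path_mg Ψ' s := by
  induction s generalizing Ψ Ψ' with
  | nil => simp [Path_mg]
  | cons g s ih =>
    cases s with
    | nil => simp [Path_mg]
    | cons h s =>
      simp only [Path_mg]
      rw [ih (fun t => Ψ (g :: t)) (fun t => Ψ' (g :: t))]
      ring

variable (B : Λ → Λ → K) (val : Λ → A)

/-- insertion of the sum of two steps -/
def Path_insG : (List A → K) → List Λ → K
  | Ψ, [] => ∑ a, ∑ b, B a b * Ψ [val a + val b]
  | Ψ, c :: l => ∑ a, ∑ b, B a b * Ψ ((val a + val b) :: val c :: l.map val) -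
      Path_insG (fun t => Ψ (val c :: t)) l

theorem Path_mid (m : ℕ) : ∀ (F F' : List Λ → K) (Ψ : List A → K),
    (∀ (l1 l2 : List Λ) (a b : Λ), F (l1 ++ a :: b :: l2) + F (l1 ++ b :: a :: l2) =
      2 * (B a b * F' (l1 ++ l2))) →
    2 * Path_S (m + 2) (fun w => F w * Path_mg Ψ (w.map val)) =
      2 * Path_S m (fun l => F' l * Path_insG B val Ψ l) := by
  induction m with
  | zero =>
    intro F F' Ψ h
    simp only [Path_S_succ, Path_S_zero, List.map_cons, List.map_nil, Path_mg, sub_zero,
      Path_insG]
    have h1 : ∑ a, ∑ b, F [a, b] * Ψ [val a + val b] = ∑ a, ∑ b, F [b, a] * Ψ [val a + val b] := by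
      rw [Finset.sum_comm]
      refine Finset.sum_congr rfl fun a _ => Finset.sum_congr rfl fun b _ => ?_
      rw [add_comm (val b)]
    rw [two_mul]
    nth_rewrite 2 [h1]
    rw [← Finset.sum_add_distrib, Finset.mul_sum, Finset.mul_sum]
    refine Finset.sum_congr rfl fun a _ => ?_
    rw [← Finset.sum_add_distrib, Finset.mul_sum, Finset.mul_sum]
    refine Finset.sum_congr rfl fun b _ => ?_
    have h2 := h [] [] a b
    simp only [List.nil_append] at h2
    linear_combination Ψ [val a + val b] * h2
  | succ m ih =>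
    intro F F' Ψ h
    have e1 : Path_S (m + 3) (fun w => F w * Path_mg Ψ (w.map val)) =
        ∑ a, ∑ b, Path_S (m + 1) (fun l => F (a :: b :: l) *
          Ψ ((val a + val b) :: l.map val)) -
        ∑ a, Path_S (m + 2) (fun l => F (a :: l) *
          Path_mg (fun t => Ψ (val a :: t)) (l.map val)) := by
      rw [Path_S_succ, ← Finset.sum_sub_distrib]
      refine Finset.sum_congr rfl fun a _ => ?_
      rw [Path_S_succ, Path_S_succ (m + 1), ← Finset.sum_sub_distrib]
      refine Finset.sum_congr rfl fun b _ => ?_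
      rw [← Path_S_sub]
      apply Path_S_congr
      intro l _
      simp only [List.map_cons, Path_mg]
      ring
    have e2 : ∀ a, 2 * Path_S (m + 2) (fun l => F (a :: l) *
          Path_mg (fun t => Ψ (val a :: t)) (l.map val)) =
        2 * Path_S m (fun l => F' (a :: l) *
          Path_insG B val (fun t => Ψ (val a :: t)) l) := by
      intro a
      apply ih (fun l => F (a :: l)) (fun l => F' (a :: l)) (fun t => Ψ (val a :: t))
      intro l1 l2 x y
      exact h (a :: l1) l2 x y
    have e3 : 2 * ∑ a, ∑ b, Path_S (m + 1) (fun l => F (a :: b :: l) *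
          Ψ ((val a + val b) :: l.map val)) =
        2 * Path_S (m + 1) (fun l => F' l * ∑ a, ∑ b, B a b *
          Ψ ((val a + val b) :: l.map val)) := by
      have h1 : ∑ a, ∑ b, Path_S (m + 1) (fun l => F (a :: b :: l) *
          Ψ ((val a + val b) :: l.map val)) = ∑ a, ∑ b, Path_S (m + 1) (fun l =>
          F (b :: a :: l) * Ψ ((val a + val b) :: l.map val)) := by
        rw [Finset.sum_comm]
        refine Finset.sum_congr rfl fun a _ => Finset.sum_congr rfl fun b _ => ?_
        rw [add_comm (val b)]
      have h2 : Path_S (m + 1) (fun l => F' l * ∑ a, ∑ b, B a b *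
          Ψ ((val a + val b) :: l.map val)) = ∑ a, ∑ b, Path_S (m + 1) (fun l =>
          F' l * (B a b * Ψ ((val a + val b) :: l.map val))) := by
        rw [← Finset.sum_congr rfl fun a _ => Path_S_sum (m + 1) Finset.univ _, ← Path_S_sum]
        apply Path_S_congr
        intro l _
        simp only [Finset.mul_sum]
      rw [h2, two_mul]
      nth_rewrite 2 [h1]
      rw [← Finset.sum_add_distrib, Finset.mul_sum]
      refine Finset.sum_congr rfl fun a _ => ?_
      rw [← Finset.sum_add_distrib, Finset.mul_sum]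
      refine Finset.sum_congr rfl fun b _ => ?_
      rw [← Path_S_add, ← Path_S_smul]
      apply Path_S_congr
      intro l _
      have h3 := h [] l a b
      simp only [List.nil_append] at h3
      linear_combination Ψ ((val a + val b) :: l.map val) * h3
    have e4 : Path_S (m + 1) (fun l => F' l * Path_insG B val Ψ l) =
        Path_S (m + 1) (fun l => F' l * ∑ a, ∑ b, B a b *
          Ψ ((val a + val b) :: l.map val)) -
        ∑ a, Path_S m (fun l => F' (a :: l) *
          Path_insG B val (fun t => Ψ (val a :: t)) l) := by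
      rw [Path_S_succ, Path_S_succ, ← Finset.sum_sub_distrib]
      refine Finset.sum_congr rfl fun c _ => ?_
      rw [← Path_S_sub]
      apply Path_S_congr
      intro l _
      rw [Path_insG, mul_sub, List.map_cons]
    rw [e1, e4, mul_sub, mul_sub, e3, Finset.mul_sum, Finset.mul_sum,
      Finset.sum_congr rfl fun a _ => e2 a]

end mg

section cyc
variable {p k : ℕ} {Λ K : Type} [Fintype Λ] [CommRing K] {val : Λ → G p k} {B : Λ → Λ → K}

theorem Path_cyc (h : Cyc val B) (l : List Λ) : ∀ (Ψ : List (G p k) → K),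
    (∀ s, (0 : G p k) ∈ s → Ψ s = 0) →
    2 * ∑ a, Path_ins B a (fun l' => Ψ (l'.map val)) l = Path_insG B val Ψ l := by
  have hsym : ∀ s : G p k → K, ∑ a, ∑ b, B a b * s (val a) = ∑ a, ∑ b, B a b * s (val b) := by
    intro s
    rw [Finset.sum_comm]
    refine Finset.sum_congr rfl fun a _ => Finset.sum_congr rfl fun b _ => ?_
    rw [h.1 b a]
  have key : ∀ s : G p k → K, s 0 = 0 →
      2 * ∑ a, ∑ b, B a b * s (val b) = ∑ a, ∑ b, B a b * s (val a + val b) := by
    intro s hs
    have h1 := h.2 s hs
    have h2 : ∑ a, ∑ b, B a b * (s (val a) + s (val b) - s (val a + val b)) =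
        ∑ a, ∑ b, B a b * s (val a) + ∑ a, ∑ b, B a b * s (val b) -
        ∑ a, ∑ b, B a b * s (val a + val b) := by
      rw [← Finset.sum_add_distrib, ← Finset.sum_sub_distrib]
      refine Finset.sum_congr rfl fun a _ => ?_
      rw [← Finset.sum_add_distrib, ← Finset.sum_sub_distrib]
      refine Finset.sum_congr rfl fun b _ => ?_
      ring
    rw [h2, hsym] at h1
    linear_combination h1
  induction l with
  | nil =>
    intro Ψ hΨ
    simp only [Path_ins, Path_insG, List.map_cons, List.map_nil]
    exact key (fun g => Ψ [g]) (hΨ _ (by simp))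
  | cons c l ih =>
    intro Ψ hΨ
    simp only [Path_ins, Path_insG, List.map_cons, Finset.sum_sub_distrib]
    have h1 := key (fun g => Ψ (g :: val c :: l.map val)) (hΨ _ (by simp))
    have h2 := ih (fun t => Ψ (val c :: t)) (fun s hs => hΨ _ (List.mem_cons_of_mem _ hs))
    linear_combination h1 - h2

end cyc

/-! ### boxes and faces -/

section box
variable {K A : Type} [CommRing K] [AddCommGroup A]

/-- the box of a path starting at `x` with given steps -/
def Path_bx : A → List A → (List A → K) → K
  | _, [], H => H []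
  | x, g :: s, H => Path_bx (x + g) s (fun t => H ((x + g) :: t)) -
      Path_bx (x + g) s (fun t => H (x :: t))

/-- the face of a path starting at `x` with given steps -/
def Path_ph : A → List A → (List A → K) → K
  | x, [], H => H [x]
  | x, g :: s, H => Path_ph (x + g) s (fun t => H ((x + g) :: t)) -
      Path_ph (x + g) s (fun t => H (x :: t))

theorem Path_face (s : List A) : ∀ (x g : A) (H : List A → K),
    Path_bx x (g :: s) H = (-1) ^ s.length * (Path_ph (x + g) s H -
      Path_mg (fun t => Path_ph x t H) (g :: s) -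
      (-1) ^ s.length * Path_ph x (g :: s).dropLast H) := by
  induction s with
  | nil =>
    intro x g H
    simp [Path_bx, Path_ph, Path_mg]
  | cons h s ih =>
    intro x g H
    rw [Path_bx, ih, ih]
    simp only [Path_mg, List.dropLast_cons_cons, List.length_cons]
    have h1 : (fun t => Path_ph x (g :: t) H) = fun t =>
        Path_ph (x + g) t (fun t => H ((x + g) :: t)) -
        Path_ph (x + g) t (fun t => H (x :: t)) := by
      funext t
      rw [Path_ph]
    have h2 : Path_ph (x + g) (h :: s) H = Path_ph (x + g + h) s (fun t => H ((x + g + h) :: t)) -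
        Path_ph (x + g + h) s (fun t => H ((x + g) :: t)) := by
      rw [Path_ph]
    have h3 : Path_ph x ((g + h) :: s) H =
        Path_ph (x + g + h) s (fun t => H ((x + g + h) :: t)) -
        Path_ph (x + g + h) s (fun t => H (x :: t)) := by
      rw [Path_ph, ← add_assoc]
    have h4 : Path_ph x (g :: (h :: s).dropLast) H =
        Path_ph (x + g) (h :: s).dropLast (fun t => H ((x + g) :: t)) -
        Path_ph (x + g) (h :: s).dropLast (fun t => H (x :: t)) := by
      rw [Path_ph]
    rw [h1, Path_mg_sub, h2, h3, h4]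
    have h5 : ((-1 : K) ^ s.length) * (-1) ^ s.length = 1 := by
      rw [← mul_pow]
      simp
    ring_nf
    try ring

theorem Path_ph_zero (s : List A) : ∀ (x : A) (H : List A → K), (0 : A) ∈ s →
    Path_ph x s H = 0 := by
  induction s with
  | nil => intro x H h; simp at h
  | cons g s ih =>
    intro x H h
    rw [Path_ph]
    rcases List.mem_cons.1 h with h | h
    · rw [← h, add_zero, sub_self]
    · rw [ih _ _ h, ih _ _ h, sub_self]

theorem Path_ph_add (s : List A) (g : A) : ∀ (x : A) (H : List A → K),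
    Path_ph (x + g) s H = Path_ph x s (fun t => H (t.map (fun y => y + g))) := by
  induction s with
  | nil => intro x H; rfl
  | cons h s ih =>
    intro x H
    rw [Path_ph, Path_ph, add_right_comm x g h, ih, ih]
    rfl

end box

/-! ### from functions to lists -/

theorem Path_par {A : Type} [AddCommGroup A] {m : ℕ} (w : Fin (m + 1) → A) (i : ℕ) :
    (∑ d : Fin (m + 1), if (d : ℕ) < i + 1 then w d else 0) =
      w 0 + ∑ d : Fin m, if (d : ℕ) < i then w d.succ else 0 := by
  rw [Fin.sum_univ_succ]
  simp only [Fin.val_zero, Fin.val_succ, add_lt_add_iff_right]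
  rw [if_pos (Nat.succ_pos i)]

theorem Path_sum {K A : Type} [CommRing K] [AddCommGroup A] (m : ℕ) :
    ∀ (x : A) (w : Fin m → A) (H : List A → K),
    ∑ ε : Fin m → Bool, (∏ c, if ε c then (1 : K) else -1) * H (List.ofFn fun c : Fin m =>
      x + ∑ d : Fin m, if (d : ℕ) < (c : ℕ) + (if ε c then 1 else 0) then w d else 0) =
    Path_bx x (List.ofFn w) H := by
  induction m with
  | zero =>
    intro x w H
    simp [Path_bx]
  | succ m ih =>
    intro x w H
    rw [← (Fin.consEquiv (fun _ : Fin (m + 1) => Bool)).sum_comp, Fintype.sum_prod_type,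
      Fintype.sum_bool, List.ofFn_succ, Path_bx, ← ih, ← ih, ← Finset.sum_sub_distrib,
      ← Finset.sum_add_distrib]
    refine Finset.sum_congr rfl fun ε _ => ?_
    have key : ∀ b : Bool, (List.ofFn fun c : Fin (m + 1) => x + ∑ d : Fin (m + 1),
        if (d : ℕ) < (c : ℕ) + (if (Fin.consEquiv (fun _ : Fin (m + 1) => Bool)) (b, ε) c
          then 1 else 0) then w d else 0) =
        (x + if b then w 0 else 0) :: List.ofFn fun c : Fin m => x + w 0 + ∑ d : Fin m,
          if (d : ℕ) < (c : ℕ) + (if ε c then 1 else 0) then w d.succ else 0 := by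
      intro b
      rw [List.ofFn_succ]
      congr 1
      · cases b
        · simp [Fin.consEquiv]
        · simp only [Fin.consEquiv, Equiv.coe_fn_mk, Fin.cons_zero, Fin.val_zero, if_true]
          rw [Path_par w 0]
          simp
      · congr 1
        funext c
        simp only [Fin.consEquiv, Equiv.coe_fn_mk, Fin.cons_succ, Fin.val_succ]
        rw [show (c : ℕ) + 1 + (if ε c then 1 else 0) = (c : ℕ) + (if ε c then 1 else 0) + 1 by
          ring, Path_par, add_assoc]
    have hp : ∀ b : Bool, (∏ c : Fin (m + 1), if (Fin.consEquiv (fun _ : Fin (m + 1) => Bool))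
        (b, ε) c then (1 : K) else -1) = (if b then 1 else -1) * ∏ c, if ε c then (1 : K) else -1 := by
      intro b
      rw [Fin.prod_univ_succ]
      simp [Fin.consEquiv]
    rw [key true, key false, hp true, hp false]
    simp only [if_true, Bool.false_eq_true, if_false, add_zero]
    ring

/-- the positions of the coordinates -/
def Path_e (n : ℕ) : Ix n ≃ Fin (2 * n) where
  toFun c := ⟨ps c, by
    have h1 := c.1.2
    have h2 := c.2.2
    unfold ps
    omega⟩
  invFun i := (⟨(i : ℕ) / 2, by have := i.2; omega⟩, ⟨(i : ℕ) % 2, by omega⟩)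
  left_inv c := by
    have h2 := c.2.2
    apply Prod.ext
    · apply Fin.ext
      simp only [ps]
      omega
    · apply Fin.ext
      simp only [ps]
      omega
  right_inv i := by
    apply Fin.ext
    simp only [ps]
    omega

/-- the function on lists -/
noncomputable def Path_H {A K : Type} [CommRing K] {N : ℕ} (H : (Fin N → A) → K) (t : List A) :
    K :=
  if h : t.length = N then H (fun c => t.get (c.cast h.symm)) else 0

theorem Path_H_ofFn {A K : Type} [CommRing K] {N : ℕ} (H : (Fin N → A) → K) (f : Fin N → A) :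
    Path_H H (List.ofFn f) = H f := by
  unfold Path_H
  rw [dif_pos (List.length_ofFn (f := f))]
  congr 1
  funext c
  simp [-List.ofFn_succ]

theorem Path_H_map {A K : Type} [CommRing K] [AddCommGroup A] {N : ℕ} (H : (Fin N → A) → K)
    (hH : ∀ f g, H (fun c => f c + g) = H f) (g : A) (t : List A) :
    Path_H H (t.map (fun x => x + g)) = Path_H H t := by
  unfold Path_H
  by_cases h : t.length = N
  · have h' : (t.map (fun x => x + g)).length = N := by rw [List.length_map, h]
    rw [dif_pos h, dif_pos h', ← hH (fun c => t.get (c.cast h.symm)) g]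
    congr 1
    funext c
    simp
  · have h' : ¬ (t.map (fun x => x + g)).length = N := by rwa [List.length_map]
    rw [dif_neg h, dif_neg h']

theorem Path_core {p k : ℕ} {Λ K : Type} [Fintype Λ] [CommRing K] (val : Λ → G p k)
    (B : Λ → Λ → K) (h2 : IsUnit (2 : K)) (hC : Cyc val B) (M : ℕ) (hM : Even M)
    (H : List (G p k) → K) (hH : ∀ g t, H (t.map (fun x => x + g)) = H t) :
    Path_S (M + 2) (fun l => Pf_N B (M + 2) l * Path_bx 0 (l.map val) H) = 0 := by
  set Ψ : List (G p k) → K := fun s => Path_ph 0 s H with hΨ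
  have hΨ0 : ∀ s, (0 : G p k) ∈ s → Ψ s = 0 := fun s hs => Path_ph_zero s 0 H hs
  have hΨadd : ∀ (g : G p k) (s : List (G p k)), Path_ph (0 + g) s H = Ψ s := by
    intro g s
    rw [Path_ph_add]
    congr 1
    funext t
    exact hH g t
  have hodd : (-1 : K) ^ (M + 1) = -1 := by
    rw [pow_succ, hM.neg_one_pow]
    ring
  have e1 : ∀ l : List Λ, l.length = M + 2 →
      Pf_N B (M + 2) l * Path_bx 0 (l.map val) H =
        Pf_N B (M + 2) l * Path_mg Ψ (l.map val) - Pf_N B (M + 2) l * Ψ (l.tail.map val) -
        Pf_N B (M + 2) l * Ψ (l.map val).dropLast := by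
    intro l hl
    cases l with
    | nil => simp at hl
    | cons a l =>
      have hl' : (l.map val).length = M + 1 := by
        rw [List.length_map]
        simpa using hl
      rw [List.map_cons, Path_face, hl', hodd, hΨadd, List.tail_cons]
      ring
  rw [Path_S_congr _ _ _ e1, Path_S_sub, Path_S_sub]
  have hA : Path_S (M + 2) (fun l => Pf_N B (M + 2) l * Ψ (l.tail.map val)) =
      ∑ a, Path_S M (fun l => Pf_N B M l * Path_ins B a (fun l' => Ψ (l'.map val)) l) := by
    rw [Path_S_succ]
    refine Finset.sum_congr rfl fun a _ => ?_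
    rw [← Path_ins_spec]
    apply Path_S_congr
    intro l _
    rw [Pf_N_cons, List.tail_cons]
  have hZ : Path_S (M + 2) (fun l => Pf_N B (M + 2) l * Ψ (l.map val).dropLast) =
      ∑ a, Path_S M (fun l => Pf_N B M l * Path_ins B a (fun l' => Ψ (l'.map val)) l) := by
    rw [Path_S_last]
    refine Finset.sum_congr rfl fun a _ => ?_
    rw [← Path_ins_spec]
    apply Path_S_congr
    intro l _
    rw [Pf_last B hC.1, List.map_append, List.map_cons, List.map_nil, List.dropLast_concat]
  have hMid := Path_mid B val M (Pf_N B (M + 2)) (Pf_N B M) Ψ (fun l1 l2 a b =>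
    Pf_swap B hC.1 M l1 l2 a b)
  have hI : 2 * ∑ a, Path_S M (fun l => Pf_N B M l *
      Path_ins B a (fun l' => Ψ (l'.map val)) l) =
      Path_S M (fun l => Pf_N B M l * Path_insG B val Ψ l) := by
    rw [← Path_S_sum, ← Path_S_smul]
    apply Path_S_congr
    intro l _
    rw [← Path_cyc hC l Ψ hΨ0, ← Finset.mul_sum]
    ring
  rw [hA, hZ]
  have hfin : (2 : K) * (Path_S (M + 2) (fun l => Pf_N B (M + 2) l * Path_mg Ψ (l.map val)) -
      ∑ a, Path_S M (fun l => Pf_N B M l * Path_ins B a (fun l' => Ψ (l'.map val)) l) -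
      ∑ a, Path_S M (fun l => Pf_N B M l * Path_ins B a (fun l' => Ψ (l'.map val)) l)) = 0 := by
    linear_combination hMid - 2 * hI
  exact (h2.mul_right_eq_zero).1 hfin

theorem oPath (hPf : Stmt_OPf) : Stmt_OPath := by
  have _ := hPf
  intro p k n Λ K _ _ val B h2 hC H hH
  set H' : (Fin (2 * (n + 1)) → G p k) → K := fun f => H (fun c => f (Path_e (n + 1) c)) with hH'
  have hH'inv : ∀ f g, H' (fun c => f c + g) = H' f := fun f g => hH _ g
  have h1 : ∀ w : Fin (2 * (n + 1)) → Λ, ∑ ε : Ix (n + 1) → Bool,
      ((se ε : ℤ) : K) * H (pt val w ε) =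
      Path_bx 0 ((List.ofFn w).map val) (Path_H H') := by
    intro w
    rw [List.map_ofFn, ← Path_sum]
    rw [← (Equiv.arrowCongr (Path_e (n + 1)) (Equiv.refl Bool)).symm.sum_comp]
    refine Finset.sum_congr rfl fun ε _ => ?_
    rw [Path_H_ofFn]
    congr 1
    · have h3 : ((se ((Equiv.arrowCongr (Path_e (n + 1)) (Equiv.refl Bool)).symm ε) : ℤ) : K) =
          ∏ c : Ix (n + 1), if ε (Path_e (n + 1) c) then (1 : K) else -1 := by
        unfold se
        rw [Int.cast_prod]
        refine Finset.prod_congr rfl fun c _ => ?_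
        show (((if ε (Path_e (n + 1) c) then (1 : ℤ) else -1) : ℤ) : K) = _
        cases ε (Path_e (n + 1) c) <;> simp
      rw [h3]
      exact (Path_e (n + 1)).prod_comp (fun i => if ε i then (1 : K) else -1)
    · show H (pt val w _) = H _
      congr 1
      funext c
      show pA val w (ps c + if ε (Path_e (n + 1) c) then 1 else 0) = _
      unfold pA
      exact (zero_add _).symm
  have h3 : ∀ w : Fin (2 * (n + 1)) → Λ, pf B (2 * (n + 1)) w * ∑ ε : Ix (n + 1) → Bool,
      ((se ε : ℤ) : K) * H (pt val w ε) =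
      (fun l : List Λ => Pf_N B (2 * (n + 1)) l * Path_bx 0 (l.map val) (Path_H H'))
        (List.ofFn w) := by
    intro w
    rw [h1 w, Pf_eq]
  rw [Finset.sum_congr rfl fun w _ => h3 w, Path_S_ofFn (2 * (n + 1))
    (fun l : List Λ => Pf_N B (2 * (n + 1)) l * Path_bx 0 (l.map val) (Path_H H'))]
  exact Path_core val B h2 hC (2 * n) (even_two_mul n) (Path_H H') (Path_H_map H' hH'inv)

end Pool.Agent.Tvo
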