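import Pool.Agent.Tvo.Stmts

/-!
# The plane (MP_001fdd_co, number of parts an odd prime power)
-/

set_option autoImplicit false

namespace Pool.Agent.Tvo

open scoped Classical
open Pool.Agent.Tvb (Pos Zero Base Good hat TP)

theorem Plane_det (a b c d : ℝ) : so ![![a, b], ![c, d]] =
    ((SignType.sign (a * d - b * c) : SignType) : ℤ) := by
  unfold so
  rw [Matrix.det_fin_two]
  simp

theorem Plane_unique (a b c d e f l m : ℝ) (hD : a * d - b * c ≠ 0)
    (h : ∑ i : Fin 2, (![l, m] : Fin 2 → ℝ) i • (![![a, b], ![c, d]] : Fin 2 → Fin 2 → ℝ) i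
      = ![e, f]) :
    l = (e * d - f * c) / (a * d - b * c) ∧ m = (a * f - b * e) / (a * d - b * c) := by
  have h0 := congrFun h 0
  have h1 := congrFun h 1
  simp [Fin.sum_univ_two] at h0 h1
  constructor
  · rw [eq_div_iff hD, ← h0, ← h1]; ring
  · rw [eq_div_iff hD, ← h0, ← h1]; ring

theorem Plane_sum (a b c d e f : ℝ) (hD : a * d - b * c ≠ 0) :
    ∑ i : Fin 2, (![(e * d - f * c) / (a * d - b * c), (a * f - b * e) / (a * d - b * c)] :
      Fin 2 → ℝ) i • (![![a, b], ![c, d]] : Fin 2 → Fin 2 → ℝ) i = ![e, f] := by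
  funext k
  fin_cases k
  · simp only [Fin.sum_univ_two, Fin.isValue, Matrix.cons_val_zero, Matrix.cons_val_one,
      Pi.add_apply, Pi.smul_apply, smul_eq_mul, Fin.zero_eta]
    rw [div_mul_eq_mul_div, div_mul_eq_mul_div, ← add_div, div_eq_iff hD]
    ring
  · simp only [Fin.sum_univ_two, Fin.isValue, Matrix.cons_val_zero, Matrix.cons_val_one,
      Pi.add_apply, Pi.smul_apply, smul_eq_mul, Fin.mk_one]
    rw [div_mul_eq_mul_div, div_mul_eq_mul_div, ← add_div, div_eq_iff hD]
    ring

theorem Plane_pos (a b c d e f : ℝ) (hD : a * d - b * c ≠ 0) :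
    Pos (![e, f] : Fin 2 → ℝ) ![![a, b], ![c, d]] ↔
      0 < (e * d - f * c) / (a * d - b * c) ∧ 0 < (a * f - b * e) / (a * d - b * c) := by
  constructor
  · rintro ⟨k, hk, hs⟩
    have hk2 : k = ![k 0, k 1] := by
      funext i; fin_cases i <;> rfl
    rw [hk2] at hs
    obtain ⟨h1, h2⟩ := Plane_unique a b c d e f (k 0) (k 1) hD hs
    rw [← h1, ← h2]
    exact ⟨hk 0, hk 1⟩
  · rintro ⟨h1, h2⟩
    refine ⟨![(e * d - f * c) / (a * d - b * c), (a * f - b * e) / (a * d - b * c)], ?_,
      Plane_sum a b c d e f hD⟩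
    intro i
    fin_cases i
    · exact h1
    · exact h2

theorem Plane_base (a b c d e f : ℝ) (hD : a * d - b * c ≠ 0) (hL : e * d - f * c ≠ 0)
    (hM : a * f - b * e ≠ 0) : Base (![e, f] : Fin 2 → ℝ) ![![a, b], ![c, d]] := by
  refine ⟨?_, ![(e * d - f * c) / (a * d - b * c), (a * f - b * e) / (a * d - b * c)],
    (Plane_sum a b c d e f hD).symm, ?_⟩
  · rw [Fintype.linearIndependent_iff]
    intro g hg
    have hg2 : g = ![g 0, g 1] := by
      funext i; fin_cases i <;> rfl
    rw [hg2] at hg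
    have hz : (0 : Fin 2 → ℝ) = ![0, 0] := by
      funext i; fin_cases i <;> rfl
    rw [hz] at hg
    obtain ⟨h1, h2⟩ := Plane_unique a b c d 0 0 (g 0) (g 1) hD hg
    intro i
    fin_cases i
    · simpa using h1
    · simpa using h2
  · intro i
    fin_cases i
    · exact div_ne_zero hL hD
    · exact div_ne_zero hM hD

/-- sign of the sine of multiples of `π / q` -/
theorem Plane_sin_pos (q : ℕ) (n : ℤ) (hn : 0 < n) (hq : n < q) :
    0 < Real.sin (n * (Real.pi / q)) := by
  have hq0 : (0 : ℝ) < q := by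
    have : (0 : ℤ) < q := lt_trans hn hq
    exact_mod_cast this
  apply Real.sin_pos_of_pos_of_lt_pi
  · have : (0 : ℝ) < n := by exact_mod_cast hn
    have := Real.pi_pos
    positivity
  · have h1 : (n : ℝ) < q := by exact_mod_cast hq
    rw [← mul_div_assoc, div_lt_iff₀ hq0, mul_comm Real.pi]
    exact mul_lt_mul_of_pos_right h1 Real.pi_pos

theorem Plane_sin_neg (q : ℕ) (n : ℤ) (hn : (q : ℤ) < n) (hq : n < 2 * q) :
    Real.sin (n * (Real.pi / q)) < 0 := by
  have hq1 : (0 : ℤ) < q := by omega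
  have hq0 : (0 : ℝ) < q := by exact_mod_cast hq1
  have h := Plane_sin_pos q (n - q) (by omega) (by omega)
  have e : ((n - q : ℤ) : ℝ) * (Real.pi / q) = n * (Real.pi / q) - Real.pi := by
    push_cast
    field_simp
  rw [e, Real.sin_sub_pi] at h
  linarith

theorem Plane_sin_neg2 (q : ℕ) (n : ℤ) (hn : n < 0) (hq : -(q : ℤ) < n) :
    Real.sin (n * (Real.pi / q)) < 0 := by
  have h := Plane_sin_pos q (-n) (by omega) (by omega)
  have e : ((-n : ℤ) : ℝ) * (Real.pi / q) = -(n * (Real.pi / q)) := by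
    push_cast
    ring
  rw [e, Real.sin_neg] at h
  linarith

theorem Plane_sin_pos2 (q : ℕ) (n : ℤ) (hn : n < -(q : ℤ)) (hq : -(2 * q : ℤ) < n) :
    0 < Real.sin (n * (Real.pi / q)) := by
  have h := Plane_sin_neg q (-n) (by omega) (by omega)
  have e : ((-n : ℤ) : ℝ) * (Real.pi / q) = -(n * (Real.pi / q)) := by
    push_cast
    ring
  rw [e, Real.sin_neg] at h
  linarith

theorem oPlane : Stmt_OPlane := by
  intro p hp hp2 i j
  have hodd : p % 2 = 1 := by
    rcases hp.out.eq_two_or_odd with h | h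
    · exact absurd h hp2
    · exact h
  have hp0 : 0 < p := hp.out.pos
  have hpR : (0 : ℝ) < p := by exact_mod_cast hp0
  set I : ℤ := (i.val : ℤ) with hI
  set J : ℤ := (j.val : ℤ) with hJ
  have hI0 : 0 ≤ I := by omega
  have hJ0 : 0 ≤ J := by omega
  have hIp : I < p := by
    have := ZMod.val_lt i
    omega
  have hJp : J < p := by
    have := ZMod.val_lt j
    omega
  have hIR : ((i.val : ℕ) : ℝ) = (I : ℝ) := by rw [hI]; push_cast; rfl
  have hJR : ((j.val : ℕ) : ℝ) = (J : ℝ) := by rw [hJ]; push_cast; rfl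
  set η : ℝ := Real.pi / (3 * p) with hη
  have hη3 : η = Real.pi / ((3 * p : ℕ) : ℝ) := by rw [hη]; push_cast; rfl
  set A : ℝ := 2 * Real.pi * (i.val : ℝ) / p with hA
  set B : ℝ := 2 * Real.pi * (j.val : ℝ) / p + η with hB
  -- the three sines
  have hD : Real.cos A * Real.sin B - Real.sin A * Real.cos B =
      Real.sin (((6 * (J - I) + 1 : ℤ) : ℝ) * (Real.pi / ((3 * p : ℕ) : ℝ))) := by
    have e : ((6 * (J - I) + 1 : ℤ) : ℝ) * (Real.pi / ((3 * p : ℕ) : ℝ)) = B - A := by
      rw [hB, hA, hη, hIR, hJR]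
      push_cast
      field_simp
      ring
    rw [e, Real.sin_sub B A]
    ring
  have hL : Real.cos η * Real.sin B - (-Real.sin η) * Real.cos B =
      Real.sin (((6 * J + 2 : ℤ) : ℝ) * (Real.pi / ((3 * p : ℕ) : ℝ))) := by
    have e : ((6 * J + 2 : ℤ) : ℝ) * (Real.pi / ((3 * p : ℕ) : ℝ)) = B + η := by
      rw [hB, hη, hJR]
      push_cast
      field_simp
      ring
    rw [e, Real.sin_add B η]
    ring
  have hM : Real.cos A * (-Real.sin η) - Real.sin A * Real.cos η =
      -Real.sin (((6 * I + 1 : ℤ) : ℝ) * (Real.pi / ((3 * p : ℕ) : ℝ))) := by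
    have e : ((6 * I + 1 : ℤ) : ℝ) * (Real.pi / ((3 * p : ℕ) : ℝ)) = A + η := by
      rw [hA, hη, hIR]
      push_cast
      field_simp
      ring
    rw [e, Real.sin_add A η]
    ring
  -- signs
  have hq : ((3 * p : ℕ) : ℤ) = 3 * (p : ℤ) := by push_cast; rfl
  have sD1 : (0 < 6 * (J - I) + 1 ∧ 6 * (J - I) + 1 < 3 * (p : ℤ)) ∨
      6 * (J - I) + 1 < -(3 * (p : ℤ)) →
      0 < Real.cos A * Real.sin B - Real.sin A * Real.cos B := by
    rintro (⟨h1, h2⟩ | h)
    · rw [hD]; exact Plane_sin_pos _ _ h1 (by omega)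
    · rw [hD]; exact Plane_sin_pos2 _ _ (by omega) (by omega)
  have sD2 : (6 * (J - I) + 1 < 0 ∧ -(3 * (p : ℤ)) < 6 * (J - I) + 1) ∨
      3 * (p : ℤ) < 6 * (J - I) + 1 →
      Real.cos A * Real.sin B - Real.sin A * Real.cos B < 0 := by
    rintro (⟨h1, h2⟩ | h)
    · rw [hD]; exact Plane_sin_neg2 _ _ h1 (by omega)
    · rw [hD]; exact Plane_sin_neg _ _ (by omega) (by omega)
  have sL1 : 6 * J + 2 < 3 * (p : ℤ) →
      0 < Real.cos η * Real.sin B - (-Real.sin η) * Real.cos B := by
    intro h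
    rw [hL]; exact Plane_sin_pos _ _ (by omega) (by omega)
  have sL2 : 3 * (p : ℤ) < 6 * J + 2 →
      Real.cos η * Real.sin B - (-Real.sin η) * Real.cos B < 0 := by
    intro h
    rw [hL]; exact Plane_sin_neg _ _ (by omega) (by omega)
  have sM1 : 6 * I + 1 < 3 * (p : ℤ) →
      Real.cos A * (-Real.sin η) - Real.sin A * Real.cos η < 0 := by
    intro h
    rw [hM]
    have := Plane_sin_pos (3 * p) (6 * I + 1) (by omega) (by omega)
    linarith
  have sM2 : 3 * (p : ℤ) < 6 * I + 1 →
      0 < Real.cos A * (-Real.sin η) - Real.sin A * Real.cos η := by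
    intro h
    rw [hM]
    have := Plane_sin_neg (3 * p) (6 * I + 1) (by omega) (by omega)
    linarith
  have dD : Real.cos A * Real.sin B - Real.sin A * Real.cos B ≠ 0 := by
    rcases (by omega : ((0 < 6 * (J - I) + 1 ∧ 6 * (J - I) + 1 < 3 * (p : ℤ)) ∨
      6 * (J - I) + 1 < -(3 * (p : ℤ))) ∨ ((6 * (J - I) + 1 < 0 ∧
        -(3 * (p : ℤ)) < 6 * (J - I) + 1) ∨ 3 * (p : ℤ) < 6 * (J - I) + 1)) with h | h
    · exact (sD1 h).ne'
    · exact (sD2 h).ne
  have dL : Real.cos η * Real.sin B - (-Real.sin η) * Real.cos B ≠ 0 := by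
    rcases (by omega : 6 * J + 2 < 3 * (p : ℤ) ∨ 3 * (p : ℤ) < 6 * J + 2) with h | h
    · exact (sL1 h).ne'
    · exact (sL2 h).ne
  have dM : Real.cos A * (-Real.sin η) - Real.sin A * Real.cos η ≠ 0 := by
    rcases (by omega : 6 * I + 1 < 3 * (p : ℤ) ∨ 3 * (p : ℤ) < 6 * I + 1) with h | h
    · exact (sM1 h).ne
    · exact (sM2 h).ne'
  have hcast : (((J - I : ℤ)) : ZMod p) = j - i := by
    rw [hI, hJ]
    push_cast
    simp
  refine ⟨?_, Plane_base _ _ _ _ _ _ dD dL dM⟩
  unfold PP
  rw [Plane_det]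
  have hP := Plane_pos (Real.cos A) (Real.sin A) (Real.cos B) (Real.sin B) (Real.cos η)
    (-Real.sin η) dD
  have hp1 : 1 < p := hp.out.one_lt
  rcases (by omega : 2 * (J - I) < -(p : ℤ) ∨ (p : ℤ) < 2 * (J - I) ∨
      (-(p : ℤ) < 2 * (J - I) ∧ 2 * (J - I) ≤ (p : ℤ))) with h | h | ⟨h, h'⟩
  · -- all positive
    have kD := sD1 (Or.inr (by omega))
    have kL := sL1 (by omega)
    have kM := sM2 (by omega)
    have hv : (j - i).valMinAbs = J - I + p := by
      rw [ZMod.valMinAbs_spec]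
      refine ⟨?_, ?_, ?_⟩
      · rw [← hcast]; push_cast; simp
      · omega
      · omega
    have hpos : Pos (![Real.cos η, -Real.sin η] : Fin 2 → ℝ)
        ![![Real.cos A, Real.sin A], ![Real.cos B, Real.sin B]] :=
      hP.2 ⟨div_pos kL kD, div_pos kM kD⟩
    rw [hv, sign_pos kD, ind, if_pos hpos]
    simp
  · -- all negative
    have kD := sD2 (Or.inr (by omega))
    have kL := sL2 (by omega)
    have kM := sM1 (by omega)
    have hv : (j - i).valMinAbs = J - I - p := by
      rw [ZMod.valMinAbs_spec]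
      refine ⟨?_, ?_, ?_⟩
      · rw [← hcast]; push_cast; simp
      · omega
      · omega
    have hpos : Pos (![Real.cos η, -Real.sin η] : Fin 2 → ℝ)
        ![![Real.cos A, Real.sin A], ![Real.cos B, Real.sin B]] :=
      hP.2 ⟨div_pos_of_neg_of_neg kL kD, div_pos_of_neg_of_neg kM kD⟩
    rw [hv, sign_neg kD, ind, if_pos hpos]
    simp
  · have hv : (j - i).valMinAbs = J - I := by
      rw [ZMod.valMinAbs_spec]
      refine ⟨?_, ?_, ?_⟩
      · rw [← hcast]
      · omega
      · omega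
    have hpos : ¬ Pos (![Real.cos η, -Real.sin η] : Fin 2 → ℝ)
        ![![Real.cos A, Real.sin A], ![Real.cos B, Real.sin B]] := by
      rw [hP]
      rintro ⟨g1, g2⟩
      rcases dD.lt_or_gt with kD | kD
      · have kL : Real.cos η * Real.sin B - (-Real.sin η) * Real.cos B < 0 := by
          by_contra hc
          push Not at hc
          exact absurd g1 (not_lt.2 (div_nonpos_of_nonneg_of_nonpos hc kD.le))
        have kM : Real.cos A * (-Real.sin η) - Real.sin A * Real.cos η < 0 := by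
          by_contra hc
          push Not at hc
          exact absurd g2 (not_lt.2 (div_nonpos_of_nonneg_of_nonpos hc kD.le))
        have t1 : 3 * (p : ℤ) < 6 * J + 2 := by
          by_contra hc
          exact absurd (sL1 (by omega)) (not_lt.2 kL.le)
        have t2 : 6 * I + 1 < 3 * (p : ℤ) := by
          by_contra hc
          exact absurd (sM2 (by omega)) (not_lt.2 kM.le)
        exact absurd (sD1 (Or.inl (by omega))) (not_lt.2 kD.le)
      · have kL : 0 < Real.cos η * Real.sin B - (-Real.sin η) * Real.cos B := by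
          by_contra hc
          push Not at hc
          exact absurd g1 (not_lt.2 (div_nonpos_of_nonpos_of_nonneg hc kD.le))
        have kM : 0 < Real.cos A * (-Real.sin η) - Real.sin A * Real.cos η := by
          by_contra hc
          push Not at hc
          exact absurd g2 (not_lt.2 (div_nonpos_of_nonpos_of_nonneg hc kD.le))
        have t1 : 6 * J + 2 < 3 * (p : ℤ) := by
          by_contra hc
          exact absurd (sL2 (by omega)) (not_lt.2 kL.le)
        have t2 : 3 * (p : ℤ) < 6 * I + 1 := by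
          by_contra hc
          exact absurd (sM1 (by omega)) (not_lt.2 kM.le)
        exact absurd (sD2 (Or.inl (by omega))) (not_lt.2 kD.le)
    rw [hv, ind, if_neg hpos]
    simp

end Pool.Agent.Tvo
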