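import Pool.Agent.Tvo.Stmts

/-!
# The action (MP_001fdd_co, odd prime powers)
-/

set_option autoImplicit false

namespace Pool.Agent.Tvo

open scoped Classical
open Pool.Agent.Tvb (Pos Zero Base Good hat TP)

lemma rho_dt_add {p k : ℕ} (χ a b : G p k) : dt χ (a + b) = dt χ a + dt χ b := by
  unfold dt
  rw [← Finset.sum_add_distrib]
  exact Finset.sum_congr rfl fun j _ => by rw [Pi.add_apply, mul_add]

lemma rho_dt_zero {p k : ℕ} (χ : G p k) : dt χ 0 = 0 := by
  unfold dt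
  exact Finset.sum_eq_zero fun j _ => by rw [Pi.zero_apply, mul_zero]

lemma rho_ang_zero {p k : ℕ} [Fact p.Prime] (χ : G p k) : ang χ 0 = 0 := by
  unfold ang
  rw [rho_dt_zero, ZMod.val_zero]
  simp

lemma rho_ang_add {p k : ℕ} [hp : Fact p.Prime] (χ a b : G p k) :
    ∃ m : ℕ, ang χ (a + b) = ang χ a + ang χ b - m * (2 * Real.pi) := by
  have hp0 : (p : ℝ) ≠ 0 := Nat.cast_ne_zero.2 hp.out.ne_zero
  refine ⟨((dt χ a).val + (dt χ b).val) / p, ?_⟩
  unfold ang
  rw [rho_dt_add, ZMod.val_add]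
  have h := Nat.mod_add_div ((dt χ a).val + (dt χ b).val) p
  have h' : ((((dt χ a).val + (dt χ b).val) % p : ℕ) : ℝ) +
      (p : ℝ) * ((((dt χ a).val + (dt χ b).val) / p : ℕ) : ℝ) =
      ((dt χ a).val : ℝ) + ((dt χ b).val : ℝ) := by exact_mod_cast h
  have h2 : ((((dt χ a).val + (dt χ b).val) % p : ℕ) : ℝ) =
      ((dt χ a).val : ℝ) + ((dt χ b).val : ℝ) -
        (p : ℝ) * ((((dt χ a).val + (dt χ b).val) / p : ℕ) : ℝ) := by linarith
  rw [h2]
  field_simp

lemma rho_cos_add {p k : ℕ} [Fact p.Prime] (χ a b : G p k) :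
    Real.cos (ang χ (a + b)) = Real.cos (ang χ a) * Real.cos (ang χ b) -
      Real.sin (ang χ a) * Real.sin (ang χ b) := by
  obtain ⟨m, hm⟩ := rho_ang_add χ a b
  rw [hm, Real.cos_sub_nat_mul_two_pi, Real.cos_add]

lemma rho_sin_add {p k : ℕ} [Fact p.Prime] (χ a b : G p k) :
    Real.sin (ang χ (a + b)) = Real.sin (ang χ a) * Real.cos (ang χ b) +
      Real.cos (ang χ a) * Real.sin (ang χ b) := by
  obtain ⟨m, hm⟩ := rho_ang_add χ a b
  rw [hm, Real.sin_sub_nat_mul_two_pi, Real.sin_add]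

lemma rho_snd {n : ℕ} {c : Ix n} (h : c.2 ≠ 0) : c = (c.1, 1) := by
  obtain ⟨a, b⟩ := c
  have hb : b = 1 := by
    have : b ≠ 0 := h
    omega
  rw [hb]

lemma rho_fst {n : ℕ} {c : Ix n} (h : c.2 = 0) : c = (c.1, 0) := by
  obtain ⟨a, b⟩ := c
  have hb : b = 0 := h
  rw [hb]

lemma rho_at_zero {p k n : ℕ} (χ : Fin n → G p k) (g : G p k) (v : Ix n → ℝ) (a : Fin n) :
    rho χ g v (a, 0) = Real.cos (ang (χ a) g) * v (a, 0) - Real.sin (ang (χ a) g) * v (a, 1) := by
  unfold rho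
  rw [if_pos rfl]

lemma rho_at_one {p k n : ℕ} (χ : Fin n → G p k) (g : G p k) (v : Ix n → ℝ) (a : Fin n) :
    rho χ g v (a, 1) = Real.sin (ang (χ a) g) * v (a, 0) + Real.cos (ang (χ a) g) * v (a, 1) := by
  unfold rho
  rw [if_neg (show ((1 : Fin 2) = 0) → False from fun h => absurd h one_ne_zero)]

lemma rho_add {p k n : ℕ} [Fact p.Prime] (χ : Fin n → G p k) (a b : G p k) (v : Ix n → ℝ) :
    rho χ (a + b) v = rho χ a (rho χ b v) := by
  funext c
  by_cases h : c.2 = 0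
  · rw [rho_fst h, rho_at_zero, rho_at_zero, rho_at_zero, rho_at_one, rho_cos_add, rho_sin_add]
    ring
  · rw [rho_snd h, rho_at_one, rho_at_one, rho_at_zero, rho_at_one, rho_cos_add, rho_sin_add]
    ring

lemma rho_zero {p k n : ℕ} [Fact p.Prime] (χ : Fin n → G p k) (v : Ix n → ℝ) :
    rho χ 0 v = v := by
  funext c
  by_cases h : c.2 = 0
  · rw [rho_fst h, rho_at_zero, rho_ang_zero, Real.cos_zero, Real.sin_zero]
    ring
  · rw [rho_snd h, rho_at_one, rho_ang_zero, Real.cos_zero, Real.sin_zero]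
    ring

lemma rho_lin {p k n : ℕ} (χ : Fin n → G p k) (g : G p k) :
    IsLinearMap ℝ (rho χ g : (Ix n → ℝ) → Ix n → ℝ) := by
  refine ⟨fun v w => ?_, fun r v => ?_⟩
  · funext c
    rw [Pi.add_apply]
    by_cases h : c.2 = 0
    · rw [rho_fst h, rho_at_zero, rho_at_zero, rho_at_zero, Pi.add_apply, Pi.add_apply]
      ring
    · rw [rho_snd h, rho_at_one, rho_at_one, rho_at_one, Pi.add_apply, Pi.add_apply]
      ring
  · funext c
    rw [Pi.smul_apply]
    by_cases h : c.2 = 0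
    · rw [rho_fst h, rho_at_zero, rho_at_zero, Pi.smul_apply, Pi.smul_apply, smul_eq_mul,
        smul_eq_mul, smul_eq_mul]
      ring
    · rw [rho_snd h, rho_at_one, rho_at_one, Pi.smul_apply, Pi.smul_apply, smul_eq_mul,
        smul_eq_mul, smul_eq_mul]
      ring

lemma rho_norm {p k n : ℕ} (χ : Fin n → G p k) (g : G p k) (v : Ix n → ℝ) :
    ‖rho χ g v‖ ≤ 2 * ‖v‖ := by
  have hv : 0 ≤ ‖v‖ := norm_nonneg v
  have hb : ∀ (s t : ℝ) (c d : Ix n), |s| ≤ 1 → |t| ≤ 1 → |s * v c| + |t * v d| ≤ 2 * ‖v‖ := by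
    intro s t c d hs ht
    have h1 : |v c| ≤ ‖v‖ := by
      rw [← Real.norm_eq_abs]; exact norm_le_pi_norm v c
    have h2 : |v d| ≤ ‖v‖ := by
      rw [← Real.norm_eq_abs]; exact norm_le_pi_norm v d
    rw [abs_mul, abs_mul]
    have h3 : |s| * |v c| ≤ 1 * ‖v‖ := mul_le_mul hs h1 (abs_nonneg _) zero_le_one
    have h4 : |t| * |v d| ≤ 1 * ‖v‖ := mul_le_mul ht h2 (abs_nonneg _) zero_le_one
    linarith
  rw [pi_norm_le_iff_of_nonneg (by linarith)]
  intro c
  rw [Real.norm_eq_abs]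
  by_cases h : c.2 = 0
  · rw [rho_fst h, rho_at_zero]
    exact (abs_sub _ _).trans
      (hb _ _ _ _ (Real.abs_cos_le_one _) (Real.abs_sin_le_one _))
  · rw [rho_snd h, rho_at_one]
    exact (abs_add_le _ _).trans
      (hb _ _ _ _ (Real.abs_sin_le_one _) (Real.abs_cos_le_one _))

lemma rho_so {ι : Type} [Fintype ι] [DecidableEq ι] (f : (ι → ℝ) →ₗ[ℝ] (ι → ℝ))
    (hf : 0 < LinearMap.det f) (x : ι → ι → ℝ) : so (fun c => f (x c)) = so x := by
  unfold so
  have h : Matrix.of (fun c => f (x c)) = Matrix.of x * (LinearMap.toMatrix' f).transpose := by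
    ext c b
    rw [Matrix.mul_apply, Matrix.of_apply, ← LinearMap.toMatrix'_mulVec f (x c)]
    refine Finset.sum_congr rfl fun j _ => ?_
    rw [Matrix.transpose_apply, Matrix.of_apply, mul_comm]
  rw [h, Matrix.det_mul, Matrix.det_transpose, LinearMap.det_toMatrix', sign_mul, sign_pos hf,
    mul_one]

/-- module Rho -/
theorem oRho : Stmt_ORho := by
  intro p k n hp χ
  refine ⟨rho_add χ, rho_zero χ, rho_lin χ, fun g => ?_, rho_norm χ, fun hp2 g x => ?_⟩
  · refine Function.LeftInverse.injective (g := rho χ (-g)) fun v => ?_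
    rw [← rho_add, neg_add_cancel, rho_zero]
  · -- halve the element
    have h2 : (2 : ZMod p) ≠ 0 := by
      intro h
      have h3 : ((2 : ℕ) : ZMod p) = 0 := by exact_mod_cast h
      rw [ZMod.natCast_eq_zero_iff] at h3
      exact hp2 ((Nat.prime_dvd_prime_iff_eq hp.out Nat.prime_two).1 h3)
    obtain ⟨h, hh⟩ : ∃ h : G p k, g = h + h := by
      refine ⟨fun j => 2⁻¹ * g j, ?_⟩
      funext j
      rw [Pi.add_apply, ← two_mul, ← mul_assoc, mul_inv_cancel₀ h2, one_mul]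
    have hc : (rho_lin χ g).mk' = (rho_lin χ h).mk' ∘ₗ (rho_lin χ h).mk' := by
      refine LinearMap.ext fun v => ?_
      change rho χ g v = rho χ h (rho χ h v)
      rw [hh, rho_add]
    have hi : (rho_lin χ h).mk' ∘ₗ (rho_lin χ (-h)).mk' = LinearMap.id := by
      refine LinearMap.ext fun v => ?_
      change rho χ h (rho χ (-h) v) = v
      rw [← rho_add, add_neg_cancel, rho_zero]
    have hd : LinearMap.det (rho_lin χ h).mk' ≠ 0 := by
      intro h0
      have h1 := congrArg LinearMap.det hi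
      rw [LinearMap.det_comp, h0, zero_mul, LinearMap.det_id] at h1
      exact zero_ne_one h1
    have hpos : 0 < LinearMap.det (rho_lin χ g).mk' := by
      rw [hc, LinearMap.det_comp]
      exact mul_self_pos.2 hd
    exact rho_so (rho_lin χ g).mk' hpos x

end Pool.Agent.Tvo
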