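import Pool.Agent.Tvo.Stmts

/-!
# Module Step: the degree does not change if one vector is changed (MP_001fdd_co, odd primes)
-/

set_option autoImplicit false

namespace Pool.Agent.Tvo

open scoped Classical
open Pool.Agent.Tvb (Pos Zero Base Good hat TP)

theorem Step_Zero_inv {ι κ : Type} [Fintype ι] (l : (κ → ℝ) → κ → ℝ) (hl : IsLinearMap ℝ l)
    (hinj : Function.Injective l) (x : ι → κ → ℝ) (v : κ → ℝ) :
    Zero (fun c => l (x c)) (l v) ↔ Zero x v := by
  unfold Tvb.Zero
  have key : ∀ (b : ℝ) (c : ι → ℝ), b • l v + ∑ i, c i • l (x i) = 0 ↔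
      b • v + ∑ i, c i • x i = 0 := by
    intro b c
    have h1 : b • l v + ∑ i, c i • l (x i) = l (b • v + ∑ i, c i • x i) := by
      have h2 := map_sum (hl.mk' l) (fun i => c i • x i) Finset.univ
      simp only [IsLinearMap.mk'_apply] at h2
      rw [hl.map_add, hl.map_smul, h2]
      congr 1
      exact Finset.sum_congr rfl fun i _ => (hl.map_smul _ _).symm
    rw [h1]
    constructor
    · intro h
      apply hinj
      rw [h, hl.map_zero]
    · intro h
      rw [h, hl.map_zero]
  simp only [key]

theorem Step_se {n : ℕ} (ε : Ix n → Bool) (c : Ix n) :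
    se (Function.update ε c (!ε c)) = -se ε := by
  unfold se
  rw [← Finset.mul_prod_erase Finset.univ _ (Finset.mem_univ c),
    ← Finset.mul_prod_erase Finset.univ (fun d => if ε d then (1 : ℤ) else -1)
      (Finset.mem_univ c)]
  have h1 : ∏ d ∈ Finset.univ.erase c, (if Function.update ε c (!ε c) d then (1 : ℤ) else -1) =
      ∏ d ∈ Finset.univ.erase c, (if ε d then (1 : ℤ) else -1) := by
    apply Finset.prod_congr rfl
    intro d hd
    rw [Function.update_of_ne (Finset.mem_erase.1 hd).1]
  rw [h1, Function.update_self, ← neg_mul]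
  congr 1
  cases ε c <;> simp

theorem Step_cancel {n : ℕ} (c : Ix n) (F : (Ix n → Bool) → ℤ)
    (hF : ∀ ε, F (Function.update ε c (!ε c)) = -F ε) : ∑ ε, F ε = 0 := by
  apply Finset.sum_involution (fun ε _ => Function.update ε c (!ε c))
  · intro ε _
    rw [hF]
    ring
  · intro ε _ _ h
    have h1 := congrFun h c
    simp at h1
  · intro ε _
    simp
  · intro ε _
    simp

theorem Step_pt {p k n : ℕ} {Λ : Type} (val : Λ → G p k) (w : Fin (2 * n) → Λ) (ε : Ix n → Bool)
    (c c' : Ix n) (b : Bool) (h : c' ≠ c) :
    pt val w (Function.update ε c b) c' = pt val w ε c' := by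
  unfold pt
  rw [Function.update_of_ne h]

theorem oStep (hP : Stmt_OPath) (hV : Stmt_OVec) (hR : Stmt_ORho) : Stmt_OStep := by
  intro p k n _ hp χ Λ K _ _ val B h2 hC ω u v i hG
  obtain ⟨radd, -, rlin, rinj, -, rso⟩ := hR p k (n + 1) χ
  have rso' := rso hp
  -- the lemma for vectors
  have hvec : ∀ (w : Fin (2 * (n + 1)) → Λ) (ε : Ix (n + 1) → Bool),
      PP ω (fun c => rho χ (pt val w ε c) (u c)) -
        ∑ c, PP ω (Function.update (fun c => rho χ (pt val w ε c) (u c)) c
          (rho χ (pt val w ε i) v)) =
      so (fun c => rho χ (pt val w ε c) (u c)) *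
        ind (Zero (fun c => rho χ (pt val w ε c) (u c)) (rho χ (pt val w ε i) v)) :=
    fun w ε => (hV _ ω _ _ (hG (pt val w ε))).1
  -- the right side
  have hR0 := hP p k n Λ K val B h2 hC
    (fun f => ((so (fun c => rho χ (f c) (u c)) *
      ind (Zero (fun c => rho χ (f c) (u c)) (rho χ (f i) v)) : ℤ) : K)) (by
      intro f g
      have e1 : (fun c => rho χ (f c + g) (u c)) = fun c => rho χ g (rho χ (f c) (u c)) := by
        funext c
        rw [add_comm (f c) g, radd]
      have e2 : rho χ (f i + g) v = rho χ g (rho χ (f i) v) := by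
        rw [add_comm (f i) g, radd]
      simp only
      rw [e1, e2, rso', propext (Step_Zero_inv (rho χ g) (rlin g) (rinj g)
        (fun c => rho χ (f c) (u c)) (rho χ (f i) v))])
  -- the terms of the left side
  have hterm : ∀ w : Fin (2 * (n + 1)) → Λ,
      ∑ ε : Ix (n + 1) → Bool, se ε * (PP ω (fun c => rho χ (pt val w ε c) (u c)) -
        ∑ c, PP ω (Function.update (fun c => rho χ (pt val w ε c) (u c)) c
          (rho χ (pt val w ε i) v))) =
      (∑ ε : Ix (n + 1) → Bool, se ε * PP ω (fun c => rho χ (pt val w ε c) (u c))) -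
      ∑ ε : Ix (n + 1) → Bool, se ε *
        PP ω (fun c => rho χ (pt val w ε c) (Function.update u i v c)) := by
    intro w
    simp only [mul_sub, Finset.mul_sum]
    rw [Finset.sum_sub_distrib]
    congr 1
    rw [Finset.sum_comm]
    rw [← Finset.add_sum_erase Finset.univ _ (Finset.mem_univ i)]
    have h1 : ∑ c ∈ Finset.univ.erase i, ∑ ε : Ix (n + 1) → Bool,
        se ε * PP ω (Function.update (fun c => rho χ (pt val w ε c) (u c)) c
          (rho χ (pt val w ε i) v)) = 0 := by
      apply Finset.sum_eq_zero
      intro c hc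
      have hci : c ≠ i := (Finset.mem_erase.mp hc).1
      apply Step_cancel c
      intro ε
      have h3 : Function.update
          (fun c_1 => rho χ (pt val w (Function.update ε c (!ε c)) c_1) (u c_1)) c
          (rho χ (pt val w (Function.update ε c (!ε c)) i) v) =
          Function.update (fun c => rho χ (pt val w ε c) (u c)) c (rho χ (pt val w ε i) v) := by
        rw [Step_pt val w ε c i _ hci.symm]
        funext c'
        by_cases h : c' = c
        · subst h
          rw [Function.update_self, Function.update_self]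
        · rw [Function.update_of_ne h, Function.update_of_ne h, Step_pt val w ε c c' _ h]
      rw [h3, Step_se, neg_mul]
    rw [h1, add_zero]
    apply Finset.sum_congr rfl
    intro ε _
    congr 2
    funext c'
    by_cases h : c' = i
    · subst h
      rw [Function.update_self, Function.update_self]
    · rw [Function.update_of_ne h, Function.update_of_ne h]
  have hsum : ∑ w : Fin (2 * (n + 1)) → Λ, pf B (2 * (n + 1)) w *
      (((∑ ε : Ix (n + 1) → Bool, se ε * PP ω (fun c => rho χ (pt val w ε c) (u c))) -
      ∑ ε : Ix (n + 1) → Bool, se ε *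
        PP ω (fun c => rho χ (pt val w ε c) (Function.update u i v c)) : ℤ) : K) = 0 := by
    rw [← hR0]
    apply Finset.sum_congr rfl
    intro w _
    congr 1
    rw [← hterm w, Int.cast_sum]
    apply Finset.sum_congr rfl
    intro ε _
    rw [hvec w ε, Int.cast_mul]
  have hfin : Th χ val B ω u - Th χ val B ω (Function.update u i v) = 0 := by
    rw [← hsum]
    unfold Th
    rw [← Finset.sum_sub_distrib]
    apply Finset.sum_congr rfl
    intro w _
    rw [Int.cast_sub, mul_sub]
  exact (sub_eq_zero.1 hfin).symm

end Pool.Agent.Tvo
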