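import Pool.Agent.Tvo.Stmts

/-!
# Module Wc: the number of words
-/

set_option autoImplicit false

namespace Pool.Agent.Tvo

open scoped Classical
open Pool.Agent.Tvb (Pos Zero Base Good hat TP)

theorem Wc_lead_zero {p k : ℕ} [NeZero k] (χ : G p k) (i : Fin k) (h : i < lead χ) : χ i = 0 := by
  by_contra hne
  unfold lead at h
  have hn : (Finset.univ.filter fun j => χ j ≠ 0).Nonempty := ⟨i, by simpa using hne⟩
  rw [dif_pos hn] at h
  exact absurd (Finset.min'_le _ i (by simpa using hne)) (not_le.mpr h)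

theorem Wc_lead_ne {p k : ℕ} [NeZero k] (χ : G p k) (h : χ ≠ 0) : χ (lead χ) ≠ 0 := by
  have hn : (Finset.univ.filter fun j => χ j ≠ 0).Nonempty := by
    by_contra hne
    rw [Finset.not_nonempty_iff_eq_empty] at hne
    apply h
    funext i
    by_contra hi
    have h2 : i ∈ (Finset.univ.filter fun j => χ j ≠ 0) := by simpa using hi
    rw [hne] at h2
    simp at h2
  unfold lead
  rw [dif_pos hn]
  have h2 := Finset.min'_mem _ hn
  simpa using h2

theorem Wc_lead_eq {p k : ℕ} [NeZero k] (χ : G p k) (l : Fin k) (h : χ l ≠ 0)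
    (h2 : ∀ i < l, χ i = 0) : lead χ = l := by
  have hχ : χ ≠ 0 := by
    rintro rfl
    exact h rfl
  apply le_antisymm
  · by_contra hlt
    exact h (Wc_lead_zero χ l (not_le.1 hlt))
  · by_contra hlt
    exact Wc_lead_ne χ hχ (h2 _ (not_le.1 hlt))

/-- the shift -/
def Wc_sh {p k : ℕ} (χ : G p k) (t : ZMod p) : G p k :=
  fun i => if h : (i : ℕ) + 1 < k then χ ⟨(i : ℕ) + 1, h⟩ else t

theorem Wc_sh_ne {p k : ℕ} [NeZero k] (χ : G p k) (t : ZMod p) (hχ : χ ≠ 0)
    (hl : 1 ≤ (lead χ : ℕ)) : Wc_sh χ t ≠ 0 ∧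
      (lead (Wc_sh χ t) : ℕ) + 1 = lead χ ∧ Wc_sh χ t (lead (Wc_sh χ t)) = χ (lead χ) := by
  have hlt := (lead χ).isLt
  have h1 : Wc_sh χ t ⟨(lead χ : ℕ) - 1, by omega⟩ = χ (lead χ) := by
    unfold Wc_sh
    have h2 : ((⟨(lead χ : ℕ) - 1, by omega⟩ : Fin k) : ℕ) + 1 < k := by
      simp only
      omega
    rw [dif_pos h2]
    congr 1
    apply Fin.ext
    simp only
    omega
  have h3 : lead (Wc_sh χ t) = ⟨(lead χ : ℕ) - 1, by omega⟩ := by
    apply Wc_lead_eq
    · rw [h1]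
      exact Wc_lead_ne χ hχ
    · intro i hi
      rw [Fin.lt_def] at hi
      simp only at hi
      unfold Wc_sh
      rw [dif_pos (by omega)]
      apply Wc_lead_zero
      rw [Fin.lt_def]
      simp only
      omega
  refine ⟨?_, ?_, ?_⟩
  · intro h0
    rw [h0] at h1
    exact Wc_lead_ne χ hχ h1.symm
  · rw [h3]
    simp only
    omega
  · rw [h3, h1]

theorem Wc_step {p k : ℕ} [Fact p.Prime] [NeZero k] (j : ℕ) :
    p * (Finset.univ.filter fun χ : XH p k => j + 1 ≤ (lead χ.1 : ℕ)).card ≤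
      (Finset.univ.filter fun χ : XH p k => j ≤ (lead χ.1 : ℕ)).card := by
  have h0 : p * (Finset.univ.filter fun χ : XH p k => j + 1 ≤ (lead χ.1 : ℕ)).card =
      ((Finset.univ : Finset (ZMod p)) ×ˢ
        (Finset.univ.filter fun χ : XH p k => j + 1 ≤ (lead χ.1 : ℕ))).card := by
    rw [Finset.card_product, Finset.card_univ, ZMod.card]
  rw [h0]
  have hval : ∀ (χ : XH p k) (t : ZMod p), 1 ≤ (lead χ.1 : ℕ) →
      Wc_sh χ.1 t ≠ 0 ∧ (Wc_sh χ.1 t (lead (Wc_sh χ.1 t))).val ≤ (p - 1) / 2 := by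
    intro χ t h
    obtain ⟨h1, -, h3⟩ := Wc_sh_ne χ.1 t χ.2.1 h
    exact ⟨h1, by rw [h3]; exact χ.2.2⟩
  refine Finset.card_le_card_of_injOn (fun x : ZMod p × XH p k =>
    if h : 1 ≤ (lead x.2.1 : ℕ) then (⟨Wc_sh x.2.1 x.1, hval x.2 x.1 h⟩ : XH p k) else x.2)
    ?_ ?_
  · rintro ⟨t, χ⟩ hx
    simp only [Finset.coe_product, Finset.coe_univ, Finset.coe_filter, Finset.mem_univ, true_and,
      Set.mem_prod, Set.mem_univ, Set.mem_ofPred_eq] at hx
    simp only [Finset.coe_filter, Finset.mem_univ, true_and, Set.mem_ofPred_eq]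
    have h1 : 1 ≤ (lead χ.1 : ℕ) := by omega
    rw [dif_pos h1]
    obtain ⟨-, h2, -⟩ := Wc_sh_ne χ.1 t χ.2.1 h1
    simp only
    omega
  · rintro ⟨t, χ⟩ hx ⟨t', χ'⟩ hx' hxx
    simp only [Finset.coe_product, Finset.coe_univ, Finset.coe_filter, Finset.mem_univ, true_and,
      Set.mem_prod, Set.mem_univ, Set.mem_ofPred_eq] at hx hx'
    have h1 : 1 ≤ (lead χ.1 : ℕ) := by omega
    have h1' : 1 ≤ (lead χ'.1 : ℕ) := by omega
    simp only at hxx
    rw [dif_pos h1, dif_pos h1'] at hxx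
    have h2 : Wc_sh χ.1 t = Wc_sh χ'.1 t' := congrArg Subtype.val hxx
    have hk : 0 < k := Nat.pos_of_ne_zero (NeZero.ne k)
    have ht : t = t' := by
      have h3 := congrFun h2 ⟨k - 1, by omega⟩
      unfold Wc_sh at h3
      have h4 : ¬ (((⟨k - 1, by omega⟩ : Fin k) : ℕ) + 1 < k) := by
        simp only
        omega
      rwa [dif_neg h4, dif_neg h4] at h3
    have hχ : χ = χ' := by
      apply Subtype.ext
      funext i
      by_cases hi : (i : ℕ) = 0
      · rw [Wc_lead_zero χ.1 i (by rw [Fin.lt_def]; omega),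
          Wc_lead_zero χ'.1 i (by rw [Fin.lt_def]; omega)]
      · have hik := i.isLt
        have h3 := congrFun h2 ⟨(i : ℕ) - 1, by omega⟩
        unfold Wc_sh at h3
        have h4 : (((⟨(i : ℕ) - 1, by omega⟩ : Fin k) : ℕ) + 1 < k) := by
          simp only
          omega
        rw [dif_pos h4, dif_pos h4] at h3
        have h5 : (⟨((⟨(i : ℕ) - 1, by omega⟩ : Fin k) : ℕ) + 1, h4⟩ : Fin k) = i := by
          apply Fin.ext
          simp only
          omega
        rwa [h5] at h3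
    rw [ht, hχ]

theorem Wc_tel {p k : ℕ} [Fact p.Prime] [NeZero k] (hp : p ≠ 2) (m : ℕ) :
    2 * ∑ j ∈ Finset.range m,
        (Finset.univ.filter fun χ : XH p k => j + 1 ≤ (lead χ.1 : ℕ)).card +
      (Finset.univ.filter fun χ : XH p k => m ≤ (lead χ.1 : ℕ)).card ≤
      Fintype.card (XH p k) := by
  have hp3 : 3 ≤ p := by
    have h2 := (Fact.out : p.Prime).two_le
    omega
  induction m with
  | zero =>
    simp only [Finset.range_zero, Finset.sum_empty, mul_zero, zero_add]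
    exact Finset.card_le_univ _
  | succ m ih =>
    rw [Finset.sum_range_succ]
    have h1 := Wc_step (p := p) (k := k) m
    have h2 := Nat.mul_le_mul_right
      (Finset.univ.filter fun χ : XH p k => m + 1 ≤ (lead χ.1 : ℕ)).card hp3
    omega

theorem Wc_sumlead {p k : ℕ} [Fact p.Prime] [NeZero k] (hp : p ≠ 2) :
    2 * ∑ χ : XH p k, (lead χ.1 : ℕ) ≤ Fintype.card (XH p k) := by
  have h1 : ∀ χ : XH p k, (lead χ.1 : ℕ) =
      ∑ j ∈ Finset.range k, if j + 1 ≤ (lead χ.1 : ℕ) then 1 else 0 := by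
    intro χ
    rw [← Finset.card_filter]
    have h2 : (Finset.range k).filter (fun j => j + 1 ≤ (lead χ.1 : ℕ)) =
        Finset.range (lead χ.1 : ℕ) := by
      ext j
      simp only [Finset.mem_filter, Finset.mem_range]
      have := (lead χ.1).isLt
      omega
    rw [h2, Finset.card_range]
  rw [Finset.sum_congr rfl (fun χ _ => h1 χ), Finset.sum_comm]
  have h3 := Wc_tel (p := p) (k := k) hp k
  have h4 : ∀ j ∈ Finset.range k, (∑ χ : XH p k, if j + 1 ≤ (lead χ.1 : ℕ) then 1 else 0) =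
      (Finset.univ.filter fun χ : XH p k => j + 1 ≤ (lead χ.1 : ℕ)).card := by
    intro j _
    rw [← Finset.card_filter]
  rw [Finset.sum_congr rfl h4]
  omega

theorem Wc_fib {ι κ : Type} [Fintype ι] [Fintype κ] [DecidableEq κ] (g : ι → κ) (f : κ → ℕ) :
    ∏ c : ι, f (g c) = ∏ j : κ, f j ^ (Finset.univ.filter fun c => g c = j).card := by
  rw [← Finset.prod_fiberwise (Finset.univ : Finset ι) g (fun c => f (g c))]
  apply Finset.prod_congr rfl
  intro j _
  rw [Finset.prod_congr rfl (g := fun _ => f j)]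
  · rw [Finset.prod_const]
  · intro c hc
    simp only [Finset.mem_filter, Finset.mem_univ, true_and] at hc
    rw [hc]

theorem Wc_letters (p k : ℕ) :
    ∑ x : Lt p k, 3 ^ (k - 1 - (x.1 : ℕ)) ≤ Nat.log 2 p * 3 ^ k := by
  have h1 : ∑ x : Lt p k, 3 ^ (k - 1 - (x.1 : ℕ)) =
      (Nat.log 2 p * 2) * ∑ j : Fin k, 3 ^ (k - 1 - (j : ℕ)) := by
    rw [Fintype.sum_prod_type, Finset.mul_sum]
    apply Finset.sum_congr rfl
    intro j _
    simp only [Finset.sum_const, Finset.card_univ, Fintype.card_prod, Fintype.card_fin,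
      Fintype.card_bool, smul_eq_mul]
  have h2 : 2 * ∑ j : Fin k, 3 ^ (k - 1 - (j : ℕ)) ≤ 3 ^ k := by
    rw [Fin.sum_univ_eq_sum_range (fun j => 3 ^ (k - 1 - j)) k,
      Finset.sum_range_reflect (fun j => 3 ^ j) k, Nat.geomSum_eq (by norm_num)]
    have h3 : 2 * ((3 ^ k - 1) / (3 - 1)) ≤ 3 ^ k - 1 := Nat.mul_div_le _ _
    exact h3.trans (Nat.sub_le _ _)
  rw [h1, mul_assoc]
  exact Nat.mul_le_mul_left _ h2

theorem oWc : Stmt_OWc := by
  intro p k d n _ _ hp e
  have hn : n = Fintype.card (XH p k) * (d + 1) := by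
    have := Fintype.card_congr e
    rw [Fintype.card_fin, Fintype.card_prod, Fintype.card_fin] at this
    exact this
  -- the sum of the leading positions
  have hS : 2 * ∑ a : Fin n, (lead (chi e a) : ℕ) ≤ n := by
    have h1 : ∑ a : Fin n, (lead (chi e a) : ℕ) =
        ∑ x : XH p k × Fin (d + 1), (lead x.1.1 : ℕ) :=
      Fintype.sum_equiv e _ _ (fun c => rfl)
    rw [h1, Fintype.sum_prod_type]
    simp only [Finset.sum_const, Finset.card_univ, Fintype.card_fin, smul_eq_mul]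
    rw [← Finset.mul_sum]
    have := Nat.mul_le_mul_left (d + 1) (Wc_sumlead (p := p) (k := k) hp)
    calc 2 * ((d + 1) * ∑ χ : XH p k, (lead χ.1 : ℕ)) =
        (d + 1) * (2 * ∑ χ : XH p k, (lead χ.1 : ℕ)) := by ring
      _ ≤ (d + 1) * Fintype.card (XH p k) := this
      _ = n := by rw [hn]; ring
  -- weights
  set P : ℕ := ∏ a : Fin n, (3 ^ (k - 1 - (lead (chi e a) : ℕ))) ^ 2 with hP
  have hw : ∀ w ∈ Wd (chi e), ∏ c : Fin (2 * n), 3 ^ (k - 1 - ((w c).1 : ℕ)) = P := by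
    intro w hw
    simp only [Wd, Finset.mem_filter, Finset.mem_univ, true_and] at hw
    have h1 := Wc_fib (fun c : Fin (2 * n) => (w c).1) (fun j : Fin k => 3 ^ (k - 1 - (j : ℕ)))
    have h2 := Wc_fib (fun a : Fin n => lead (chi e a))
      (fun j : Fin k => (3 ^ (k - 1 - (j : ℕ))) ^ 2)
    beta_reduce at h1 h2
    rw [h1, hP, h2]
    apply Finset.prod_congr rfl
    intro j _
    rw [hw j, ← pow_mul (3 ^ (k - 1 - (j : ℕ))) 2]
  have htot : ∑ w : Fin (2 * n) → Lt p k, ∏ c : Fin (2 * n), 3 ^ (k - 1 - ((w c).1 : ℕ)) =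
      (∑ x : Lt p k, 3 ^ (k - 1 - (x.1 : ℕ))) ^ (2 * n) := by
    have h1 : ∑ w : Fin (2 * n) → Lt p k, ∏ c : Fin (2 * n), 3 ^ (k - 1 - ((w c).1 : ℕ)) =
        ∏ c : Fin (2 * n), ∑ x : Lt p k, 3 ^ (k - 1 - (x.1 : ℕ)) := by
      rw [Finset.prod_univ_sum]
      simp [Fintype.piFinset_univ]
    rw [h1, Finset.prod_const, Finset.card_univ, Fintype.card_fin]
  have h1 : (Wd (chi e)).card * P ≤ (Nat.log 2 p * 3 ^ k) ^ (2 * n) := by
    calc (Wd (chi e)).card * P =
          ∑ w ∈ Wd (chi e), ∏ c : Fin (2 * n), 3 ^ (k - 1 - ((w c).1 : ℕ)) := by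
          rw [Finset.sum_congr rfl hw, Finset.sum_const, smul_eq_mul]
      _ ≤ ∑ w : Fin (2 * n) → Lt p k, ∏ c : Fin (2 * n), 3 ^ (k - 1 - ((w c).1 : ℕ)) :=
          Finset.sum_le_sum_of_subset (Finset.subset_univ _)
      _ = (∑ x : Lt p k, 3 ^ (k - 1 - (x.1 : ℕ))) ^ (2 * n) := htot
      _ ≤ (Nat.log 2 p * 3 ^ k) ^ (2 * n) := Nat.pow_le_pow_left (Wc_letters p k) _
  have h2 : (Nat.log 2 p * 3 ^ k) ^ (2 * n) ≤ (6 * Nat.log 2 p) ^ (2 * n) * P := by
    have h3 : P = 3 ^ (2 * ∑ a : Fin n, (k - 1 - (lead (chi e a) : ℕ))) := by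
      rw [hP, Finset.mul_sum, ← Finset.prod_pow_eq_pow_sum]
      apply Finset.prod_congr rfl
      intro a _
      rw [← pow_mul, mul_comm]
    have h4 : ∑ a : Fin n, (k - 1 - (lead (chi e a) : ℕ)) +
        ∑ a : Fin n, ((lead (chi e a) : ℕ) + 1) = k * n := by
      rw [← Finset.sum_add_distrib]
      have : ∀ a : Fin n, (k - 1 - (lead (chi e a) : ℕ)) + ((lead (chi e a) : ℕ) + 1) = k := by
        intro c
        have := (lead (chi e c)).isLt
        omega
      simp [this, mul_comm]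
    have h5 : ∑ a : Fin n, ((lead (chi e a) : ℕ) + 1) =
        ∑ a : Fin n, (lead (chi e a) : ℕ) + n := by
      rw [Finset.sum_add_distrib]
      simp
    have h6 : (3 ^ k) ^ (2 * n) ≤ 6 ^ (2 * n) * P := by
      have h7 : (3 ^ k) ^ (2 * n) = 3 ^ (2 * (k * n)) := by
        rw [← pow_mul]
        congr 1
        ring
      rw [h7, h3]
      calc 3 ^ (2 * (k * n)) ≤
          3 ^ (3 * n + 2 * ∑ a : Fin n, (k - 1 - (lead (chi e a) : ℕ))) := by
            apply Nat.pow_le_pow_right (by norm_num)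
            omega
        _ = 27 ^ n * 3 ^ (2 * ∑ a : Fin n, (k - 1 - (lead (chi e a) : ℕ))) := by
            rw [pow_add, pow_mul]
            norm_num
        _ ≤ 6 ^ (2 * n) * 3 ^ (2 * ∑ a : Fin n, (k - 1 - (lead (chi e a) : ℕ))) := by
            apply Nat.mul_le_mul_right
            rw [pow_mul]
            exact Nat.pow_le_pow_left (by norm_num) n
    calc (Nat.log 2 p * 3 ^ k) ^ (2 * n) = (Nat.log 2 p) ^ (2 * n) * (3 ^ k) ^ (2 * n) :=
          mul_pow _ _ _
      _ ≤ (Nat.log 2 p) ^ (2 * n) * (6 ^ (2 * n) * P) := Nat.mul_le_mul_left _ h6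
      _ = (6 * Nat.log 2 p) ^ (2 * n) * P := by rw [mul_pow]; ring
  have hPpos : 0 < P := Finset.prod_pos (fun c _ => pow_pos (pow_pos (by norm_num) _) _)
  exact Nat.le_of_mul_le_mul_right (h1.trans h2) hPpos

end Pool.Agent.Tvo
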