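import Pool.Agent.Tvo.FinalO
import Pool.Agent.Tvo.Pf
import Pool.Agent.Tvo.Path
import Pool.Agent.Tvo.Pair
import Pool.Agent.Tvo.Real
import Pool.Agent.Tvo.Vec
import Pool.Agent.Tvo.Gen
import Pool.Agent.Tvo.Rho
import Pool.Agent.Tvo.Step
import Pool.Agent.Tvo.Fin
import Pool.Agent.Tvo.Plane
import Pool.Agent.Tvo.Block
import Pool.Agent.Tvo.Frame
import Pool.Agent.Tvo.Hor
import Pool.Agent.Tvo.Coef
import Pool.Agent.Tvo.Cont
import Pool.Agent.Tvo.Wc
import Pool.Agent.Tvo.Ind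
import Pool.Agent.Tvo.Clo
import Pool.Agent.Tvo.Cov
import Pool.Agent.Tvo.Four
import Pool.Agent.Tvo.Lab
import Pool.Agent.Tvo.Dbl
import Pool.Agent.Tvo.Ar
import Pool.Agent.Tvo.Card

set_option autoImplicit false

namespace Pool.Agent.Tvo

open scoped Classical
open Pool.Agent.Tvb (Pos Zero Base Good hat TP)

theorem mainO (p k d : ℕ) [hp : Fact p.Prime] (hp2 : p ≠ 2) (hk : 1 ≤ k)
    (S : Finset (EuclideanSpace ℝ (Fin d))) (hS : S.card = (p ^ k - 1) * (d + 1) + 1) :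
    ((p ^ k - 1).factorial) ^ d ≤
      (6 * Nat.log 2 p) ^ ((p ^ k - 1) * (d + 1)) * (TP (p ^ k) S).ncard := by
  have hV := oVec oReal
  have hB := oBlock oPlane
  have hS' := oStep (oPath oPf) hV oRho
  have hI := oInd hS' hV oGen hB oRho
  have hC := oCov hI oGen (oFin hV) oClo oRho (oFrame hB) (oPair oPf) oHor oCoef oCont
  exact finalO hC oWc oFour oLab oDbl oAr oCard p k d hp2 hk S hS

end Pool.Agent.Tvo
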