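import Pool.Agent.Tvo.Defs

/-!
# Frozen statements (MP_001fdd_co, number of parts an odd prime power)
-/

set_option autoImplicit false

namespace Pool.Agent.Tvo

open scoped Classical
open Pool.Agent.Tvb (Pos Zero Base Good hat TP)

/-- O1: exchange of two neighbours and expansion along the last letter. -/
def Stmt_OPf : Prop := ∀ (Λ K : Type) [CommRing K] (B : Λ → Λ → K), (∀ a b, B a b = B b a) →
  (∀ (N : ℕ) (w : Fin (N + 2) → Λ) (i : Fin (N + 1)),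
    pf B (N + 2) w + pf B (N + 2) (fun c => w (Equiv.swap i.castSucc i.succ c)) =
      2 * (B (w i.castSucc) (w i.succ) * pf B N (rem2 i w))) ∧
  ∀ (N : ℕ) (w : Fin (N + 2) → Λ), pf B (N + 2) w =
    ∑ j : Fin (N + 1), (-1) ^ (j : ℕ) * B (w j.castSucc) (w (Fin.last (N + 1))) *
      pf B N (fun i => w (j.succAbove i).castSucc)

/-- O2: the sum of the cells of the words is zero on invariant functions. -/
def Stmt_OPath : Prop := ∀ (p k n : ℕ) (Λ K : Type) [Fintype Λ] [CommRing K] (val : Λ → G p k)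
  (B : Λ → Λ → K), IsUnit (2 : K) → Cyc val B →
  ∀ H : (Ix (n + 1) → G p k) → K, (∀ f g, H (fun c => f c + g) = H f) →
  ∑ w : Fin (2 * (n + 1)) → Λ, pf B (2 * (n + 1)) w *
    ∑ ε : Ix (n + 1) → Bool, ((se ε : ℤ) : K) * H (pt val w ε) = 0

/-- O3: contraction with symmetric functions. -/
def Stmt_OPair : Prop := ∀ (n : ℕ) (Λ K : Type) [Fintype Λ] [CommRing K] (B : Λ → Λ → K),
  IsUnit (2 : K) → (∀ a b, B a b = B b a) →
  ∀ c : Fin n → Λ → Λ → K, (∀ a x y, c a x y = c a y x) →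
  ∑ w : Fin (2 * n) → Λ, pf B (2 * n) w * ∏ a, c a (w (e0 a)) (w (e1 a)) =
    ∏ a, ∑ x, ∑ y, B x y * c a x y

/-- O4: signed number of the ends of an interval. -/
def Stmt_OReal : Prop := ∀ (ι : Type) [Fintype ι] (α τ : ι → ℝ), (∀ i, α i ≠ 0) →
  (∀ i, τ i ≠ 0) → Function.Injective τ →
  ind (∀ l, 0 < α l * τ l) - ∑ i, ((SignType.sign (α i) : SignType) : ℤ) *
    ind (0 < τ i ∧ ∀ l, l ≠ i → 0 < α l * (τ l - τ i)) = ind (∀ l, α l < 0)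

/-- O5: the lemma for vectors. -/
def Stmt_OVec : Prop := ∀ (ι : Type) [Fintype ι] [DecidableEq ι] (ω v : ι → ℝ) (x : ι → ι → ℝ),
  Good ω v x →
  (PP ω x - ∑ i, PP ω (Function.update x i v) = so x * ind (Zero x v)) ∧
  ∀ i, Base ω (Function.update x i v)

/-- O6: generic choice of a vector. -/
def Stmt_OGen : Prop := ∀ (ι : Type) [Fintype ι] (ω : ι → ℝ) (s : Type) [Fintype s]
  (l : s → (ι → ℝ) → ι → ℝ) (x : s → ι → ι → ℝ), (∀ a, IsLinearMap ℝ (l a)) →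
  (∀ a, Function.Injective (l a)) → (∀ a, Base ω (x a)) →
  ∀ (T : ι → ℝ) (δ : ℝ), 0 < δ → ∃ v : ι → ℝ, ‖v - T‖ < δ ∧ ∀ a, Good ω (l a v) (x a)

/-- O7: the action. -/
def Stmt_ORho : Prop := ∀ (p k n : ℕ) [Fact p.Prime] (χ : Fin n → G p k),
  (∀ (a b : G p k) (v : Ix n → ℝ), rho χ (a + b) v = rho χ a (rho χ b v)) ∧
  (∀ v : Ix n → ℝ, rho χ 0 v = v) ∧
  (∀ g : G p k, IsLinearMap ℝ (rho χ g : (Ix n → ℝ) → Ix n → ℝ)) ∧
  (∀ g : G p k, Function.Injective (rho χ g : (Ix n → ℝ) → Ix n → ℝ)) ∧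
  (∀ (g : G p k) (v : Ix n → ℝ), ‖rho χ g v‖ ≤ 2 * ‖v‖) ∧
  (p ≠ 2 → ∀ (g : G p k) (x : Ix n → Ix n → ℝ), so (fun c => rho χ g (x c)) = so x)

/-- O8: the degree does not change if one vector is changed. -/
def Stmt_OStep : Prop := ∀ (p k n : ℕ) [Fact p.Prime], p ≠ 2 → ∀ (χ : Fin (n + 1) → G p k)
  (Λ K : Type) [Fintype Λ] [CommRing K] (val : Λ → G p k) (B : Λ → Λ → K), IsUnit (2 : K) →
  Cyc val B → ∀ (ω : Ix (n + 1) → ℝ) (u : Ix (n + 1) → Ix (n + 1) → ℝ) (v : Ix (n + 1) → ℝ)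
    (i : Ix (n + 1)),
  (∀ f : Ix (n + 1) → G p k, Good ω (rho χ (f i) v) (fun c => rho χ (f c) (u c))) →
  Th χ val B ω (Function.update u i v) = Th χ val B ω u

/-- O9: if the degree is not zero there is a zero. -/
def Stmt_OFin : Prop := ∀ (p k n : ℕ) [Fact p.Prime] (χ : Fin n → G p k)
  (Λ K K' : Type) [Fintype Λ] [CommRing K] [AddCommGroup K'] (φ : K →+ K') (val : Λ → G p k)
  (B : Λ → Λ → K) (ω : Ix n → ℝ) (u : Ix n → Ix n → ℝ) (v : Ix n → ℝ),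
  (∀ (f : Ix n → G p k) (g : G p k), Good ω (rho χ g v) (fun c => rho χ (f c) (u c))) →
  φ (Th χ val B ω u) ≠ 0 →
  ∃ w : Fin (2 * n) → Λ, φ (pf B (2 * n) w) ≠ 0 ∧ ∃ ε : Ix n → Bool,
    Zero (fun c => rho χ (pt val w ε c) (u c)) (rho χ (pA val w (2 * n)) v)

/-- O10: the plane. -/
def Stmt_OPlane : Prop := ∀ (p : ℕ) [Fact p.Prime], p ≠ 2 → ∀ i j : ZMod p,
  (p : ℤ) * PP ![Real.cos (Real.pi / (3 * p)), -Real.sin (Real.pi / (3 * p))]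
      ![![Real.cos (2 * Real.pi * (i.val : ℝ) / p), Real.sin (2 * Real.pi * (i.val : ℝ) / p)],
        ![Real.cos (2 * Real.pi * (j.val : ℝ) / p + Real.pi / (3 * p)),
          Real.sin (2 * Real.pi * (j.val : ℝ) / p + Real.pi / (3 * p))]] =
    (j - i).valMinAbs - ((j.val : ℤ) - (i.val : ℤ)) ∧
  Base ![Real.cos (Real.pi / (3 * p)), -Real.sin (Real.pi / (3 * p))]
      ![![Real.cos (2 * Real.pi * (i.val : ℝ) / p), Real.sin (2 * Real.pi * (i.val : ℝ) / p)],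
        ![Real.cos (2 * Real.pi * (j.val : ℝ) / p + Real.pi / (3 * p)),
          Real.sin (2 * Real.pi * (j.val : ℝ) / p + Real.pi / (3 * p))]]

/-- O11: the frame, as a product of planes. -/
def Stmt_OBlock : Prop := ∀ (p k n : ℕ) [Fact p.Prime], p ≠ 2 → ∀ (χ : Fin n → G p k)
  (f : Ix n → G p k),
  (p : ℤ) ^ n * PP (fo p n) (fun c => rho χ (f c) (fr p n c)) =
    ∏ a : Fin n, ((dt (χ a) (f (a, 1)) - dt (χ a) (f (a, 0))).valMinAbs -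
      (((dt (χ a) (f (a, 1))).val : ℤ) - ((dt (χ a) (f (a, 0))).val : ℤ))) ∧
  Base (fo p n) (fun c => rho χ (f c) (fr p n c))

/-- O12: the degree of the frame. -/
def Stmt_OFrame : Prop := ∀ (p k n : ℕ) [Fact p.Prime], p ≠ 2 → ∀ (χ : Fin n → G p k)
  (Λ K : Type) [Fintype Λ] [CommRing K] (val : Λ → G p k) (B : Λ → Λ → K),
  Th χ val B (fo p n) (fr p n) = ∑ w : Fin (2 * n) → Λ, pf B (2 * n) w *
    ∏ a : Fin n, ((cc (dt (χ a) (val (w (e0 a)))) (dt (χ a) (val (w (e1 a)))) : ℤ) : K)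

/-- O13: the cycle of the Horner scheme. -/
def Stmt_OHor : Prop := ∀ (p k : ℕ) [Fact p.Prime], p ≠ 2 →
  IsUnit (2 : MvPolynomial (Fin k) (ZMod p)) ∧ Cyc (vl (p := p) (k := k)) BB ∧
  ∀ χ : G p k, ∑ x : Lt p k, ∑ y : Lt p k, BB x y *
      ((cc (dt χ (vl x)) (dt χ (vl y)) : ℤ) : MvPolynomial (Fin k) (ZMod p)) =
    2 * ∑ j, MvPolynomial.X j * MvPolynomial.C (χ j)

/-- O14: the leading coefficient. -/
def Stmt_OCoef : Prop := ∀ (p k n : ℕ) [Fact p.Prime] [NeZero k], p ≠ 2 →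
  ∀ χ : Fin n → G p k, (∀ a, χ a ≠ 0) →
  MvPolynomial.coeff (bb χ) (∏ a : Fin n, (2 * ∑ j, MvPolynomial.X j *
    MvPolynomial.C (χ a j) : MvPolynomial (Fin k) (ZMod p))) ≠ 0

/-- O15: the letters of a word with a coefficient. -/
def Stmt_OCont : Prop := ∀ (p k n : ℕ) [Fact p.Prime] [NeZero k] (χ : Fin n → G p k)
  (w : Fin (2 * n) → Lt p k),
  MvPolynomial.coeff (bb χ) (pf BB (2 * n) w) ≠ 0 → w ∈ Wd χ

/-- O16: number of words. -/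
def Stmt_OWc : Prop := ∀ (p k d n : ℕ) [Fact p.Prime] [NeZero k], p ≠ 2 →
  ∀ e : Fin n ≃ XH p k × Fin (d + 1), (Wd (chi e)).card ≤ (6 * Nat.log 2 p) ^ (2 * n)

/-- O17: generic families near given ones have the degree of the frame. -/
def Stmt_OInd : Prop := ∀ (p k n : ℕ) [Fact p.Prime], p ≠ 2 → ∀ (χ : Fin (n + 1) → G p k)
  (Λ K : Type) [Fintype Λ] [CommRing K] (val : Λ → G p k) (B : Λ → Λ → K), IsUnit (2 : K) →
  Cyc val B → ∀ (T : Ix (n + 1) → Ix (n + 1) → ℝ) (δ : ℝ), 0 < δ →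
  ∃ u : Ix (n + 1) → Ix (n + 1) → ℝ, (∀ c, ‖u c - T c‖ < δ) ∧
    Th χ val B (fo p (n + 1)) u = Th χ val B (fo p (n + 1)) (fr p (n + 1)) ∧
    ∀ f : Ix (n + 1) → G p k, Base (fo p (n + 1)) (fun c => rho χ (f c) (u c))

/-- O18: limits of positive relations. -/
def Stmt_OClo : Prop := ∀ (ι κ : Type) [Fintype ι] [Nonempty ι] [Fintype κ] (y : ι → κ → ℝ),
  (∀ δ > 0, ∃ y' : ι → κ → ℝ, (∀ i, ‖y' i - y i‖ < δ) ∧
    ∃ c : ι → ℝ, (∀ i, 0 < c i) ∧ ∑ i, c i • y' i = 0) →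
  ∃ c : ι → ℝ, (∀ i, 0 ≤ c i) ∧ ∑ i, c i = 1 ∧ ∑ i, c i • y i = 0

/-- O19: every family has a labelling from a word. -/
def Stmt_OCov : Prop := ∀ (p k n : ℕ) [Fact p.Prime] [NeZero k], p ≠ 2 →
  ∀ χ : Fin (n + 1) → G p k, (∀ c, χ c ≠ 0) →
  ∀ (T : Option (Ix (n + 1)) → Ix (n + 1) → ℝ) (κ : Option (Ix (n + 1)) → G p k),
  ∃ w ∈ Wd χ, ∃ ε : Ix (n + 1) → Bool, ∃ c : Option (Ix (n + 1)) → ℝ, (∀ i, 0 ≤ c i) ∧
    ∑ i, c i = 1 ∧ ∑ i, c i • rho χ (lab vl w ε i + κ i) (T i) = 0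

/-- O20: the labellings are Tverberg labellings. -/
def Stmt_OFour : Prop := ∀ (p k d n : ℕ) [Fact p.Prime] [NeZero k], p ≠ 2 →
  ∀ (e : Fin n ≃ XH p k × Fin (d + 1)) (q : Option (Ix n) → EuclideanSpace ℝ (Fin d)),
  ∀ f ∈ LabT e q,
  ∃ y : EuclideanSpace ℝ (Fin d), ∀ h : G p k, y ∈ convexHull ℝ (q '' {i | f i = h})

/-- O21: labellings and partitions. -/
def Stmt_OLab : Prop := ∀ (p k d n : ℕ) [Fact p.Prime] (S : Finset (EuclideanSpace ℝ (Fin d)))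
  (q : Option (Ix n) ≃ S) (A : Finset (Option (Ix n) → G p k)),
  (∀ f ∈ A, ∃ y : EuclideanSpace ℝ (Fin d), ∀ h : G p k,
    y ∈ convexHull ℝ ((fun i => (q i : EuclideanSpace ℝ (Fin d))) '' {i | f i = h})) →
  A.card ≤ (p ^ k).factorial * (TP (p ^ k) S).ncard

/-- O22: double counting. -/
def Stmt_ODbl : Prop := ∀ (p k n : ℕ) [Fact p.Prime] (Λ : Type) [Fintype Λ] (val : Λ → G p k)
  (W : Finset (Fin (2 * n) → Λ)) (A : Finset (Option (Ix n) → G p k)),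
  (∀ κ : Option (Ix n) → G p k, ∃ w ∈ W, ∃ ε : Ix n → Bool,
    (fun i => lab val w ε i + κ i) ∈ A) →
  (p ^ k) ^ (2 * n + 1) ≤ W.card * 2 ^ (2 * n) * A.card

/-- O23: arithmetic. -/
def Stmt_OAr : Prop := ∀ (m d L t : ℕ), 1 ≤ m →
  m ^ ((m - 1) * (d + 1) + 1) ≤ (2 * L) ^ ((m - 1) * (d + 1)) * (m.factorial * t) →
  ((m - 1).factorial) ^ d ≤ L ^ ((m - 1) * (d + 1)) * t

/-- O24: half of the characters. -/
def Stmt_OCard : Prop := ∀ (p k : ℕ) [Fact p.Prime] [NeZero k], p ≠ 2 →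
  2 * Fintype.card (XH p k) = p ^ k - 1

end Pool.Agent.Tvo
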