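import Pool.Agent.Tvb.Defs

/-!
# Lower bounds for the number of Tverberg partitions (MP_001fdd_co), odd prime powers: definitions
-/

set_option autoImplicit false

namespace Pool.Agent.Tvo

open scoped Classical
open Pool.Agent.Tvb (Pos Zero Base Good hat TP)

/-- the group of labels, of order `p ^ k` -/
abbrev G (p k : ℕ) : Type := Fin k → ZMod p

/-- the coordinates: `n` planes -/
abbrev Ix (n : ℕ) : Type := Fin n × Fin 2

/-- position of a coordinate -/
def ps {n : ℕ} (c : Ix n) : ℕ := 2 * (c.1 : ℕ) + (c.2 : ℕ)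

/-- positions of the two coordinates of a plane in a word -/
def e0 {n : ℕ} (a : Fin n) : Fin (2 * n) := ⟨2 * (a : ℕ), by have := a.2; omega⟩

/-- positions of the two coordinates of a plane in a word -/
def e1 {n : ℕ} (a : Fin n) : Fin (2 * n) := ⟨2 * (a : ℕ) + 1, by have := a.2; omega⟩

/-- sum of the values of the first `i` letters of the word `w` -/
noncomputable def pA {p k N : ℕ} {Λ : Type} (val : Λ → G p k) (w : Fin N → Λ) (i : ℕ) : G p k :=
  ∑ c : Fin N, if (c : ℕ) < i then val (w c) else 0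

/-- the labels `a_c` or `a_{c+1}` -/
noncomputable def pt {p k n : ℕ} {Λ : Type} (val : Λ → G p k) (w : Fin (2 * n) → Λ)
    (ε : Ix n → Bool) : Ix n → G p k :=
  fun c => pA val w (ps c + if ε c then 1 else 0)

/-- the labels `a_c` or `a_{c+1}`, and `a_N` for `none` -/
noncomputable def lab {p k n : ℕ} {Λ : Type} (val : Λ → G p k) (w : Fin (2 * n) → Λ)
    (ε : Ix n → Bool) : Option (Ix n) → G p k
  | none => pA val w (2 * n)
  | some c => pt val w ε c

/-- sign of a choice -/
def se {n : ℕ} (ε : Ix n → Bool) : ℤ := ∏ c, if ε c then 1 else -1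

/-- the Pfaffian of the matrix `B (w i) (w j)`, `i < j` -/
def pf {Λ K : Type} [CommRing K] (B : Λ → Λ → K) : (N : ℕ) → (Fin N → Λ) → K
  | 0, _ => 1
  | 1, _ => 0
  | N + 2, w => ∑ j : Fin (N + 1), (-1) ^ (j : ℕ) * B (w 0) (w j.succ) *
      pf B N (fun i => w (j.succAbove i).succ)

/-- the word `w` without the letters `i` and `i + 1` -/
def rem2 {Λ : Type} {N : ℕ} (i : ℕ) (w : Fin (N + 2) → Λ) : Fin N → Λ :=
  fun j => if (j : ℕ) < i then w j.castSucc.castSucc else w j.succ.succ

/-- value of the character `χ` at `g` -/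
def dt {p k : ℕ} (χ g : G p k) : ZMod p := ∑ j, χ j * g j

/-- the angle of the character `χ` at `g` -/
noncomputable def ang {p k : ℕ} (χ g : G p k) : ℝ := 2 * Real.pi * ((dt χ g).val : ℝ) / p

/-- action of `g` on `ℝ^(2n)`: rotation of the plane `a` by the angle of `χ a` -/
noncomputable def rho {p k n : ℕ} (χ : Fin n → G p k) (g : G p k) (v : Ix n → ℝ) : Ix n → ℝ :=
  fun c => if c.2 = 0 then
    Real.cos (ang (χ c.1) g) * v (c.1, 0) - Real.sin (ang (χ c.1) g) * v (c.1, 1)
  else Real.sin (ang (χ c.1) g) * v (c.1, 0) + Real.cos (ang (χ c.1) g) * v (c.1, 1)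

/-- indicator with values in `ℤ` -/
noncomputable def ind (P : Prop) : ℤ := if P then 1 else 0

/-- sign of the determinant -/
noncomputable def so {ι : Type} [Fintype ι] [DecidableEq ι] (x : ι → ι → ℝ) : ℤ :=
  ((SignType.sign (Matrix.det (Matrix.of x)) : SignType) : ℤ)

/-- signed indicator of `ω` in the open cone of the `x i` -/
noncomputable def PP {ι : Type} [Fintype ι] [DecidableEq ι] (ω : ι → ℝ) (x : ι → ι → ℝ) : ℤ :=
  so x * ind (Pos ω x)

/-- the degree -/
noncomputable def Th {p k n : ℕ} {Λ K : Type} [Fintype Λ] [CommRing K] (χ : Fin n → G p k)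
    (val : Λ → G p k) (B : Λ → Λ → K) (ω : Ix n → ℝ) (u : Ix n → Ix n → ℝ) : K :=
  ∑ w : Fin (2 * n) → Λ, pf B (2 * n) w *
    ((∑ ε : Ix n → Bool, se ε * PP ω (fun c => rho χ (pt val w ε c) (u c)) : ℤ) : K)

/-- `B` is a symmetric cycle -/
def Cyc {p k : ℕ} {Λ K : Type} [Fintype Λ] [CommRing K] (val : Λ → G p k) (B : Λ → Λ → K) :
    Prop :=
  (∀ a b, B a b = B b a) ∧ ∀ s : G p k → K, s 0 = 0 →
    ∑ a, ∑ b, B a b * (s (val a) + s (val b) - s (val a + val b)) = 0

/-- the carry cocycle -/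
def cc {p : ℕ} (g h : ZMod p) : ℤ := (g.valMinAbs + h.valMinAbs - (g + h).valMinAbs) / p

/-- the frame: in every plane the vectors of angles `0` and `π / (3 p)` -/
noncomputable def fr (p n : ℕ) : Ix n → Ix n → ℝ := fun c b =>
  if c.1 = b.1 then
    (if c.2 = 0 then (if b.2 = 0 then 1 else 0)
      else (if b.2 = 0 then Real.cos (Real.pi / (3 * p)) else Real.sin (Real.pi / (3 * p))))
  else 0

/-- in every plane the vector of angle `-π / (3 p)` -/
noncomputable def fo (p n : ℕ) : Ix n → ℝ := fun b =>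
  if b.2 = 0 then Real.cos (Real.pi / (3 * p)) else -Real.sin (Real.pi / (3 * p))

/-- the first coordinate at which `χ` does not vanish -/
noncomputable def lead {p k : ℕ} [NeZero k] (χ : G p k) : Fin k :=
  if h : (Finset.univ.filter fun j => χ j ≠ 0).Nonempty then
    (Finset.univ.filter fun j => χ j ≠ 0).min' h else 0

/-- half of the nonzero characters -/
abbrev XH (p k : ℕ) [NeZero k] : Type :=
  {χ : G p k // χ ≠ 0 ∧ (χ (lead χ)).val ≤ (p - 1) / 2}

/-- the letters: a direction, a step of the Horner scheme of `p`, and whether it is doubled -/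
abbrev Lt (p k : ℕ) : Type := Fin k × Fin (Nat.log 2 p) × Bool

/-- Horner scheme of `p` -/
def gn (p i : ℕ) : ℕ := p / 2 ^ (Nat.log 2 p - i)

/-- binary digits of `p` -/
def dg (p i : ℕ) : ℕ := (p / 2 ^ (Nat.log 2 p - 1 - i)) % 2

/-- value of a letter -/
def vl {p k : ℕ} (x : Lt p k) : G p k :=
  Pi.single x.1 (((if x.2.2 then 2 * gn p x.2.1 else gn p x.2.1 : ℕ)) : ZMod p)

/-- half of the cycle of the Horner scheme -/
noncomputable def MM {p k : ℕ} (x y : Lt p k) : MvPolynomial (Fin k) (ZMod p) :=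
  if y.1 = x.1 ∧ y.2.2 = false ∧
      ((x.2.2 = false ∧ y.2.1 = x.2.1) ∨ (x.2.2 = true ∧ (y.2.1 : ℕ) = 0)) then
    MvPolynomial.X x.1 * (((if x.2.2 then dg p x.2.1 else 1) *
      2 ^ (Nat.log 2 p - 1 - (x.2.1 : ℕ)) : ℕ) : MvPolynomial (Fin k) (ZMod p))
  else 0

/-- the cycle of the Horner scheme -/
noncomputable def BB {p k : ℕ} (x y : Lt p k) : MvPolynomial (Fin k) (ZMod p) := MM x y + MM y x

/-- the words with prescribed numbers of letters of every direction -/
noncomputable def Wd {p k n : ℕ} [NeZero k] (χ : Fin n → G p k) :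
    Finset (Fin (2 * n) → Lt p k) :=
  Finset.univ.filter fun w => ∀ j, (Finset.univ.filter fun c => (w c).1 = j).card =
    2 * (Finset.univ.filter fun a => lead (χ a) = j).card

/-- the exponents of the leading monomial -/
noncomputable def bb {p k n : ℕ} [NeZero k] (χ : Fin n → G p k) : Fin k →₀ ℕ :=
  ∑ a, Finsupp.single (lead (χ a)) 1

/-- the character of a plane -/
def chi {p k d n : ℕ} [NeZero k] (e : Fin n ≃ XH p k × Fin (d + 1)) : Fin n → G p k :=
  fun a => (e a).1.1

/-- the vector of a point -/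
noncomputable def vec {p k d n : ℕ} [NeZero k] (e : Fin n ≃ XH p k × Fin (d + 1))
    (q : EuclideanSpace ℝ (Fin d)) : Ix n → ℝ :=
  fun c => if c.2 = 0 then hat q (e c.1).2 else 0

/-- the labellings `f` of the points `q i` for which `0` is in the convex hull of the vectors
`rho (f i) (vec (q i))` -/
def LabT {p k d n : ℕ} [NeZero k] (e : Fin n ≃ XH p k × Fin (d + 1))
    (q : Option (Ix n) → EuclideanSpace ℝ (Fin d)) : Set (Option (Ix n) → G p k) :=
  {f | ∃ c : Option (Ix n) → ℝ, (∀ i, 0 ≤ c i) ∧ ∑ i, c i = 1 ∧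
    ∑ i, c i • rho (chi e) (f i) (vec e (q i)) = 0}

end Pool.Agent.Tvo
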