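import Pool.Agent.Tvo.Stmts

set_option autoImplicit false

namespace Pool.Agent.Tvo

open scoped Classical
open Pool.Agent.Tvb (Pos Zero Base Good hat TP)

theorem finalO (hCov : Stmt_OCov) (hWc : Stmt_OWc) (hFour : Stmt_OFour) (hLab : Stmt_OLab)
    (hDbl : Stmt_ODbl) (hAr : Stmt_OAr) (hCard : Stmt_OCard) (p k d : ℕ) [hp : Fact p.Prime]
    (hp2 : p ≠ 2) (hk : 1 ≤ k) (S : Finset (EuclideanSpace ℝ (Fin d)))
    (hS : S.card = (p ^ k - 1) * (d + 1) + 1) :
    ((p ^ k - 1).factorial) ^ d ≤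
      (6 * Nat.log 2 p) ^ ((p ^ k - 1) * (d + 1)) * (TP (p ^ k) S).ncard := by
  have : NeZero k := ⟨by omega⟩
  have h3 : 2 < p := lt_of_le_of_ne hp.out.two_le (Ne.symm hp2)
  have h2 : 3 ≤ p ^ k := by
    calc 3 ≤ p := h3
      _ = p ^ 1 := (pow_one p).symm
      _ ≤ p ^ k := Nat.pow_le_pow_right (by omega) hk
  have hX := hCard p k hp2
  obtain ⟨n, hn⟩ : ∃ n, Fintype.card (XH p k) * (d + 1) = n + 1 := by
    have : 0 < Fintype.card (XH p k) * (d + 1) := Nat.mul_pos (by omega) (by omega)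
    exact ⟨Fintype.card (XH p k) * (d + 1) - 1, by omega⟩
  have hN : (p ^ k - 1) * (d + 1) = 2 * (n + 1) := by rw [← hn, ← hX]; ring
  apply hAr (p ^ k) d _ _ (by omega)
  rw [hN] at hS ⊢
  have he : Fintype.card (Fin (n + 1)) = Fintype.card (XH p k × Fin (d + 1)) := by
    rw [Fintype.card_prod, Fintype.card_fin, Fintype.card_fin, hn]
  obtain ⟨e⟩ := Fintype.card_eq.1 he
  have hq : Fintype.card (Option (Ix (n + 1))) = Fintype.card S := by
    simp [hS]; ring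
  obtain ⟨q⟩ := Fintype.card_eq.1 hq
  let A : Finset (Option (Ix (n + 1)) → G p k) :=
    Finset.univ.filter fun f => f ∈ LabT e (fun i => (q i : EuclideanSpace ℝ (Fin d)))
  have hA : A.card ≤ (p ^ k).factorial * (TP (p ^ k) S).ncard := by
    apply hLab p k d (n + 1) S q A
    intro f hf
    exact hFour p k d (n + 1) hp2 e _ f (Finset.mem_filter.1 hf).2
  have hW := hWc p k d (n + 1) hp2 e
  have hD := hDbl p k (n + 1) (Lt p k) vl (Wd (chi e)) A (by
    intro κ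
    obtain ⟨w, hw, ε, c, h0, h1, h2⟩ := hCov p k n hp2 (chi e) (fun c => (e c).1.2.1)
      (fun i => vec e (q i : EuclideanSpace ℝ (Fin d))) κ
    exact ⟨w, hw, ε, Finset.mem_filter.2 ⟨Finset.mem_univ _, c, h0, h1, h2⟩⟩)
  refine (hD.trans (Nat.mul_le_mul (Nat.mul_le_mul hW le_rfl) hA)).trans (le_of_eq ?_)
  rw [← mul_pow, mul_comm (6 * Nat.log 2 p) 2]

end Pool.Agent.Tvo
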