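import Pool.Agent.Tvo.Stmts

/-!
# Generic families near given ones have the degree of the frame (MP_001fdd_co, module Ind)
-/

set_option autoImplicit false

namespace Pool.Agent.Tvo

open scoped Classical
open Pool.Agent.Tvb (Pos Zero Base Good hat TP)

theorem oInd (hS : Stmt_OStep) (hV : Stmt_OVec) (hG : Stmt_OGen) (hB : Stmt_OBlock)
    (hR : Stmt_ORho) : Stmt_OInd := by
  intro p k n _ hp χ Λ K _ _ val B h2 hC T δ hδ
  have key : ∀ F : Finset (Ix (n + 1)), ∃ u : Ix (n + 1) → Ix (n + 1) → ℝ,
      (∀ c ∈ F, ‖u c - T c‖ < δ) ∧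
      Th χ val B (fo p (n + 1)) u = Th χ val B (fo p (n + 1)) (fr p (n + 1)) ∧
      ∀ f : Ix (n + 1) → G p k, Base (fo p (n + 1)) (fun c => rho χ (f c) (u c)) := by
    intro F
    induction F using Finset.induction_on with
    | empty =>
      exact ⟨fr p (n + 1), fun c hc => absurd hc (Finset.notMem_empty c), rfl,
        fun f => (hB p k (n + 1) hp χ f).2⟩
    | insert c0 F hc0 ih =>
      obtain ⟨u, hu1, hu2, hu3⟩ := ih
      obtain ⟨v, hv1, hv2⟩ := hG (Ix (n + 1)) (fo p (n + 1)) (Ix (n + 1) → G p k)
        (fun f => rho χ (f c0)) (fun f c => rho χ (f c) (u c))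
        (fun f => (hR p k (n + 1) χ).2.2.1 (f c0)) (fun f => (hR p k (n + 1) χ).2.2.2.1 (f c0))
        hu3 (T c0) δ hδ
      refine ⟨Function.update u c0 v, fun c hc => ?_, ?_, fun f => ?_⟩
      · by_cases h : c = c0
        · rw [h, Function.update_self]
          exact hv1
        · rw [Function.update_of_ne h]
          exact hu1 c (Finset.mem_of_mem_insert_of_ne hc h)
      · rw [hS p k n hp χ Λ K val B h2 hC (fo p (n + 1)) u v c0 hv2]
        exact hu2
      · have h1 := (hV (Ix (n + 1)) (fo p (n + 1)) (rho χ (f c0) v)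
          (fun c => rho χ (f c) (u c)) (hv2 f)).2 c0
        have h3 : (fun c => rho χ (f c) (Function.update u c0 v c)) =
            Function.update (fun c => rho χ (f c) (u c)) c0 (rho χ (f c0) v) := by
          funext c
          by_cases h : c = c0
          · rw [h, Function.update_self, Function.update_self]
          · rw [Function.update_of_ne h, Function.update_of_ne h]
        rw [h3]
        exact h1
  obtain ⟨u, h1, h3, h4⟩ := key Finset.univ
  exact ⟨u, fun c => h1 c (Finset.mem_univ c), h3, h4⟩

end Pool.Agent.Tvo
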